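import Pool.Agent.RieszLin.Defs

set_option autoImplicit false

open Real Finset

namespace Pool.Agent.RieszLin

open Pool.Agent.RieszSmall

section

variable {ι : Type*} [Fintype ι] [DecidableEq ι] {V : Type*} [NormedAddCommGroup V]
  [InnerProductSpace ℝ V] [FiniteDimensional ℝ V]

/-- MODULE RL1. An affine dependency of the points.
Proof: `exists_dep x h` (RieszSmall/One.lean) gives orthonormal `c, s` with `∑ c i • x i = 0`,
`∑ s i • x i = 0`. Put `C = ∑ c i`, `S = ∑ s i`. If `C = 0` take `a = c`; otherwise take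
`a i = (S * c i - C * s i) / sqrt (C^2 + S^2)`: `∑ a = 0`, `∑ a² = (S² + C²)/(C²+S²) = 1`. -/
theorem exists_aff (x : ι → V) (h : Module.finrank ℝ V + 2 ≤ Fintype.card ι) :
    ∃ a : ι → ℝ, ∑ i, a i = 0 ∧ ∑ i, a i ^ 2 = 1 ∧ ∑ i, a i • x i = 0 := by
  obtain ⟨c, s, hc, hs, hcs, hcx, hsx⟩ := exists_dep x h
  by_cases hC : ∑ i, c i = 0
  · exact ⟨c, hC, hc, hcx⟩
  · set C := ∑ i, c i with hCdef
    set S := ∑ i, s i with hSdef
    have hpos : 0 < C ^ 2 + S ^ 2 := by positivity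
    have hR : 0 < sqrt (C ^ 2 + S ^ 2) := Real.sqrt_pos.mpr hpos
    have hRsq : sqrt (C ^ 2 + S ^ 2) ^ 2 = C ^ 2 + S ^ 2 := Real.sq_sqrt hpos.le
    refine ⟨fun i => (S * c i - C * s i) / sqrt (C ^ 2 + S ^ 2), ?_, ?_, ?_⟩
    · rw [← Finset.sum_div, Finset.sum_sub_distrib, ← Finset.mul_sum, ← Finset.mul_sum,
        ← hCdef, ← hSdef]
      rw [mul_comm S C, sub_self, zero_div]
    · have h1 : ∀ i, ((S * c i - C * s i) / sqrt (C ^ 2 + S ^ 2)) ^ 2 =
          (S ^ 2 * (c i ^ 2) - 2 * S * C * (c i * s i) + C ^ 2 * (s i ^ 2)) / (C ^ 2 + S ^ 2) := by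
        intro i
        rw [div_pow, hRsq]
        congr 1
        ring
      simp only [h1]
      rw [← Finset.sum_div, Finset.sum_add_distrib, Finset.sum_sub_distrib, ← Finset.mul_sum,
        ← Finset.mul_sum, ← Finset.mul_sum, hc, hs, hcs]
      rw [div_eq_one_iff_eq hpos.ne']
      ring
    · have h2 : ∀ i, ((S * c i - C * s i) / sqrt (C ^ 2 + S ^ 2)) • x i =
          (S / sqrt (C ^ 2 + S ^ 2)) • (c i • x i) - (C / sqrt (C ^ 2 + S ^ 2)) • (s i • x i) := by
        intro i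
        rw [smul_smul, smul_smul, ← sub_smul]
        congr 1
        ring
      simp only [h2]
      rw [Finset.sum_sub_distrib, ← Finset.smul_sum, ← Finset.smul_sum, hcx, hsx]
      simp

end

end Pool.Agent.RieszLin
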