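import Pool.Agent.RieszLin.Defs

set_option autoImplicit false

open Real Finset

namespace Pool.Agent.RieszLin

open Pool.Agent.RieszSmall

/-- MODULE RL3. Facts about the constants of the block `[2, m]`.
`YY q = 1 - 2^(-q)/2`. -/
theorem YY_eq (q : ℝ) : YY q = 1 - (2 : ℝ) ^ (-q) / 2 := by
  unfold YY
  have h : (2 : ℝ) ^ (-(q + 1)) = (2 : ℝ) ^ (-q) / 2 := by
    rw [neg_add, Real.rpow_add (by norm_num), Real.rpow_neg_one]
    ring
  rw [h]

/-- for `q ≥ 1`: `3/4 ≤ Y < 1` -/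
theorem YY_bounds {q : ℝ} (hq : 1 ≤ q) : 3 / 4 ≤ YY q ∧ YY q < 1 := by
  unfold YY
  have h0 : (0 : ℝ) < (2 : ℝ) ^ (-(q + 1)) := by positivity
  have h1 : (2 : ℝ) ^ (-(q + 1)) ≤ (2 : ℝ) ^ (-2 : ℝ) :=
    Real.rpow_le_rpow_of_exponent_le (by norm_num) (by linarith)
  have h2 : (2 : ℝ) ^ (-2 : ℝ) = 1 / 4 := by
    rw [Real.rpow_neg (by norm_num)]
    norm_num
  rw [h2] at h1
  constructor <;> linarith

/-- `0 ≤ y₀ ≤ (q+1)/m` (Bernoulli `one_add_mul_self_le_rpow_one_add`) and `y₀ < 1`. -/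
theorem y0_bounds {q m : ℝ} (hq : 1 ≤ q) (hm : 2 ≤ m) :
    0 < y0 q m ∧ y0 q m ≤ (q + 1) / m ∧ y0 q m < 1 := by
  unfold y0
  have hm0 : 0 < m := by linarith
  have h1 : 1 / m ≤ 1 / 2 := one_div_le_one_div_of_le (by norm_num) hm
  have h2 : 0 < 1 / m := by positivity
  have h3 : 0 < 1 - 1 / m := by linarith
  have h4 : (1 - 1 / m) ^ (q + 1) < 1 := Real.rpow_lt_one h3.le (by linarith) (by linarith)
  have h5 : 0 < (1 - 1 / m) ^ (q + 1) := by positivity
  have h6 := one_add_mul_self_le_rpow_one_add (s := -(1 / m)) (by linarith)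
    (p := q + 1) (by linarith)
  have h7 : (1 : ℝ) + -(1 / m) = 1 - 1 / m := by ring
  rw [h7] at h6
  refine ⟨by linarith, ?_, by linarith⟩
  have h8 : (q + 1) / m = (q + 1) * (1 / m) := by ring
  rw [h8]
  linarith

/-- `T = 2·2^(-q) + 4m + m(m-1)(1-1/m)^q`. -/
theorem TT_eq {q m : ℝ} (hm : 2 ≤ m) :
    TT q m = 2 * (2 : ℝ) ^ (-q) + 4 * m + m * (m - 1) * (1 - 1 / m) ^ q := by
  have hm0 : 0 < m := by linarith
  have h1 : 1 / m ≤ 1 / 2 := one_div_le_one_div_of_le (by norm_num) hm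
  have h3 : 0 < 1 - 1 / m := by linarith
  unfold TT y0
  rw [YY_eq, Real.rpow_add_one h3.ne']
  field_simp
  ring

theorem TT_ge {q m : ℝ} (hm : 2 ≤ m) : 4 * m < TT q m := by
  have h1 : 1 / m ≤ 1 / 2 := one_div_le_one_div_of_le (by norm_num) hm
  have h3 : 0 < 1 - 1 / m := by linarith
  rw [TT_eq hm]
  have h4 : (0 : ℝ) < (2 : ℝ) ^ (-q) := by positivity
  have h5 : 0 < m * (m - 1) * (1 - 1 / m) ^ q := by
    have : 0 < m - 1 := by linarith
    have : 0 < m := by linarith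
    positivity
  linarith

/-- `0 < κ < 1`, `κ N² = T` -/
theorem kap_facts {q m : ℝ} (hq : 1 ≤ q) (hm : 2 ≤ m) :
    0 < kap q m ∧ kap q m < 1 ∧ kap q m * (m + 2) ^ 2 = TT q m := by
  have hN : 0 < (m + 2) ^ 2 := by
    have : 0 < m + 2 := by linarith
    positivity
  have h1 := TT_ge (q := q) hm
  have h2 := YY_bounds hq
  have h3 := y0_bounds hq hm
  unfold kap
  refine ⟨div_pos (by linarith) hN, ?_, div_mul_cancel₀ _ hN.ne'⟩
  rw [div_lt_one hN]
  unfold TT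
  have h4 : 0 < m ^ 2 * y0 q m := by
    have : 0 < m := by linarith
    have := h3.1
    positivity
  linarith [h2.1]

/-- `1 - κ = (4Y + m² y₀)/N² ≤ (q+1)/m + 4/m²`. -/
theorem kap_lower {q m : ℝ} (hq : 1 ≤ q) (hm : 2 ≤ m) :
    1 - kap q m ≤ (q + 1) / m + 4 / m ^ 2 := by
  have hm0 : 0 < m := by linarith
  have hN : 0 < (m + 2) ^ 2 := by positivity
  have h2 := YY_bounds hq
  have h3 := y0_bounds hq hm
  have e1 : 1 - kap q m = (4 * YY q + m ^ 2 * y0 q m) / (m + 2) ^ 2 := by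
    unfold kap TT
    field_simp
    ring
  have e2 : (q + 1) / m + 4 / m ^ 2 = (4 + m ^ 2 * ((q + 1) / m)) / m ^ 2 := by
    field_simp
    ring
  rw [e1, e2]
  have h4 : 4 * YY q + m ^ 2 * y0 q m ≤ 4 + m ^ 2 * ((q + 1) / m) := by
    have := mul_le_mul_of_nonneg_left h3.2.1 (sq_nonneg m)
    linarith [h2.2]
  have h5 : (0 : ℝ) ≤ 4 + m ^ 2 * ((q + 1) / m) := by
    have : 0 < q + 1 := by linarith
    positivity
  calc (4 * YY q + m ^ 2 * y0 q m) / (m + 2) ^ 2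
      ≤ (4 + m ^ 2 * ((q + 1) / m)) / (m + 2) ^ 2 := by gcongr
    _ ≤ (4 + m ^ 2 * ((q + 1) / m)) / m ^ 2 := by
        refine div_le_div_of_nonneg_left h5 (by positivity) ?_
        nlinarith

section

variable {ι : Type*} [Fintype ι] [DecidableEq ι] {V : Type*} [NormedAddCommGroup V]
  [InnerProductSpace ℝ V]

private lemma block_card {P : Finset ι} (hP : P.card = 2) {m : ℝ}
    (hcard : (Fintype.card ι : ℝ) = m + 2) : ((Pᶜ.card : ℕ) : ℝ) = m := by
  have h1 : P.card + Pᶜ.card = Fintype.card ι := Finset.card_add_card_compl P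
  have h2 : ((P.card : ℕ) : ℝ) + ((Pᶜ.card : ℕ) : ℝ) = (Fintype.card ι : ℝ) := by
    exact_mod_cast h1
  rw [hP, hcard] at h2
  push_cast at h2
  linarith

/-- The energy of the claimed minimizer (use `En_orth`, `Est`). -/
theorem En_block {x : ι → V} {P : Finset ι} (hP : P.card = 2) {m : ℝ}
    (hcard : (Fintype.card ι : ℝ) = m + 2) (hm : 2 ≤ m) (h : OrthSimplices P x) (q : ℝ) :
    En q x = TT q m := by
  have hc := block_card hP hcard
  have hQ : 1 < Pᶜ.card := by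
    have h1 : (1 : ℝ) < ((Pᶜ.card : ℕ) : ℝ) := by rw [hc]; linarith
    exact_mod_cast h1
  rw [En_orth h (by omega) hQ q, hP, hc]
  unfold Est TT y0 YY
  have e : (1 - 1 / ((2 : ℕ) : ℝ)) ^ (q + 1) = (2 : ℝ) ^ (-(q + 1)) := by
    rw [Real.rpow_neg (by norm_num), ← Real.inv_rpow (by norm_num)]
    norm_num
  rw [e]
  push_cast
  ring

/-- If the inner products are those prescribed by equality in `dual_bound`, the configuration is
the claimed one: `2^(-(q+1)) = D^(-(q+1))` gives `D = 2`, `1 = D^(-(q+1))` gives `D = 1`,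
`(1-1/m)^(q+1) = D^(-(q+1))` gives `D = 1/(1-1/m) = m/(m-1)` (injectivity of rpow), `P = {i1, i2}`;
inner `= -1 = -1/(2-1)`, `0`, `1 - m/(m-1) = -1/(m-1)`. -/
theorem orth_of_K {x : ι → V} {q m : ℝ} (hq : 1 ≤ q) (hcard : (Fintype.card ι : ℝ) = m + 2)
    (hm : 2 ≤ m) (hlt : ∀ i j, i ≠ j → (inner ℝ (x i) (x j) : ℝ) < 1) {K : ι → ι → ℝ}
    {i1 i2 : ι} (hne : i1 ≠ i2)
    (hK : ∀ i j, i ≠ j → (1 - (inner ℝ (x i) (x j) : ℝ)) ^ (-(q + 1)) = K i j)
    (h12 : K i1 i2 = (2 : ℝ) ^ (-(q + 1)))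
    (hc : ∀ j, j ≠ i1 → j ≠ i2 → K i1 j = 1 ∧ K i2 j = 1)
    (hr : ∀ i j, i ≠ i1 → i ≠ i2 → j ≠ i1 → j ≠ i2 → i ≠ j → K i j = (1 - 1 / m) ^ (q + 1)) :
    ∃ P : Finset ι, P.card = 2 ∧ OrthSimplices P x := by
  have hexp : -(q + 1) ≠ 0 := by linarith
  have hm1 : 1 / m ≤ 1 / 2 := one_div_le_one_div_of_le (by norm_num) hm
  have hm3 : 0 < 1 - 1 / m := by linarith
  have inj : ∀ i j, i ≠ j → ∀ D : ℝ, 0 ≤ D → K i j = D ^ (-(q + 1)) →
      (inner ℝ (x i) (x j) : ℝ) = 1 - D := by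
    intro i j hij D hD hKD
    have h1 := hK i j hij
    rw [hKD] at h1
    have h2 := (Real.rpow_left_inj (by linarith [hlt i j hij]) hD hexp).mp h1
    linarith
  have hP : ({i1, i2} : Finset ι).card = 2 := Finset.card_pair hne
  have hcc := block_card hP hcard
  refine ⟨{i1, i2}, hP, ?_, ?_, ?_⟩
  · have h := inj i1 i2 hne 2 (by norm_num) h12
    have h' : (inner ℝ (x i2) (x i1) : ℝ) = 1 - 2 := by rw [real_inner_comm]; exact h
    intro i hi j hj hij
    rw [hP]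
    simp only [Finset.mem_insert, Finset.mem_singleton] at hi hj
    rcases hi with rfl | rfl <;> rcases hj with rfl | rfl
    · exact absurd rfl hij
    · rw [h]; norm_num
    · rw [h']; norm_num
    · exact absurd rfl hij
  · intro i hi j hj hij
    rw [hcc]
    simp only [Finset.mem_compl, Finset.mem_insert, Finset.mem_singleton, not_or] at hi hj
    have h1 := hr i j hi.1 hi.2 hj.1 hj.2 hij
    have h2 : (1 - 1 / m) ^ (q + 1) = ((1 - 1 / m)⁻¹) ^ (-(q + 1)) := by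
      rw [Real.rpow_neg (inv_nonneg.mpr hm3.le), Real.inv_rpow hm3.le, inv_inv]
    rw [h2] at h1
    rw [inj i j hij _ (inv_nonneg.mpr hm3.le) h1]
    have h4 : m ≠ 0 := by linarith
    have h5 : m - 1 ≠ 0 := by linarith
    have h6 : 1 - 1 / m = (m - 1) / m := by field_simp
    rw [h6, inv_div]
    field_simp
    ring
  · intro i hi j hj
    simp only [Finset.mem_compl, Finset.mem_insert, Finset.mem_singleton, not_or] at hi hj
    have hone : (1 : ℝ) = (1 : ℝ) ^ (-(q + 1)) := (Real.one_rpow _).symm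
    rcases hi with rfl | rfl
    · have h1 := (hc j hj.1 hj.2).1
      rw [inj i j (Ne.symm hj.1) 1 (by norm_num) (h1.trans hone)]
      norm_num
    · have h1 := (hc j hj.1 hj.2).2
      rw [inj i j (Ne.symm hj.2) 1 (by norm_num) (h1.trans hone)]
      norm_num

end

end Pool.Agent.RieszLin
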