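import Pool.Agent.Riesz.Main

set_option autoImplicit false

open Real Finset

namespace Pool.Agent.RieszLin

open Pool.Agent.Riesz

namespace CompSmallAux

lemma G_exp {q g : ℝ} : G q g = exp (-(q * log (1 - g))) := by
  unfold G LL
  congr 1
  ring

lemma log_big {d : ℝ} (hd : 100 ≤ d) : 4.38 ≤ log d := by
  have h1 : log 100 ≤ log d := log_le_log (by norm_num) hd
  have h2 : (19 : ℝ) * log 2 ≤ 3 * log 100 := by
    have e1 : (19 : ℝ) * log 2 = log (2 ^ 19) := by
      rw [log_pow]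
      norm_num
    have e2 : (3 : ℝ) * log 100 = log (100 ^ 3) := by
      rw [log_pow]
      norm_num
    rw [e1, e2]
    exact log_le_log (by norm_num) (by norm_num)
  have h3 := log_two_gt_d9
  linarith

lemma exp_half {d : ℝ} (hd : 100 ≤ d) {c : ℝ} (hc : c ≤ 0.501) : exp (c * log d) ≤ d / 8 := by
  have h1 := log_big hd
  have h2 : log 8 = 3 * log 2 := by
    rw [show (8 : ℝ) = 2 ^ 3 by norm_num, log_pow]
    norm_num
  have h3 := log_two_lt_d9
  have h4 : c * log d ≤ log d - log 8 := by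
    have : c * log d ≤ 0.501 * log d := mul_le_mul_of_nonneg_right hc (by linarith)
    linarith
  calc exp (c * log d) ≤ exp (log d - log 8) := exp_le_exp.2 h4
    _ = d / 8 := by rw [exp_sub, exp_log (by linarith), exp_log (by norm_num)]

/-- upper bound for `G q (-x)` -/
lemma G_neg_le {q x t : ℝ} (hq : 0 ≤ q) (hx : 0 < x) (h : t * (1 + x) ≤ q * x) :
    G q (-x) ≤ exp (-t) := by
  rw [G_exp]
  refine exp_le_exp.2 (neg_le_neg ?_)
  have h1 : x / (1 + x) ≤ log (1 - -x) := by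
    have h2 := one_sub_inv_le_log_of_pos (show (0 : ℝ) < 1 + x by linarith)
    have h3 : x / (1 + x) = 1 - (1 + x)⁻¹ := by
      have : (1 + x) ≠ 0 := by linarith
      field_simp
      ring
    rw [h3, sub_neg_eq_add]
    exact h2
  have h4 : t ≤ q * (x / (1 + x)) := by
    rw [← mul_div_assoc, le_div_iff₀ (by linarith)]
    exact h
  exact h4.trans (mul_le_mul_of_nonneg_left h1 hq)

/-- upper bound for `G q x` -/
lemma G_pos_le {q x t : ℝ} (hq : 0 ≤ q) (hx : x < 1) (h : q * x ≤ t * (1 - x)) :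
    G q x ≤ exp t := by
  rw [G_exp]
  refine exp_le_exp.2 ?_
  have h2 := one_sub_inv_le_log_of_pos (show (0 : ℝ) < 1 - x by linarith)
  have h3 : 1 - (1 - x)⁻¹ = -(x / (1 - x)) := by
    have : (1 - x) ≠ 0 := by linarith
    field_simp
    ring
  rw [h3] at h2
  have h4 : q * (x / (1 - x)) ≤ t := by
    rw [← mul_div_assoc, div_le_iff₀ (by linarith)]
    exact h
  have h5 := mul_le_mul_of_nonneg_left h2 hq
  linarith

end CompSmallAux

/-- MODULE RL26. The competitor has small energy, `n = d - 1 ≥ 99`, `d = n + 1`,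
`q ≥ 4 d log d`. Parameters: `γ = 1/(2(n-1))`, so `(n-1)γ = 1/2`; `ω = om n α γ = 2 n α²`; choose
`α = sqrt(log d / (4 n q))`, so `ω = log d/(2q) ≤ 1/(8d)`. `G β g = (1-g)^(-β)` (lemma `G_eq`).
`2 Phi = 8n G(-α) + n(n-1) G(-γ) + 8 G(ω) + 4 G(2ω-1)`:
`G q ω = (1-ω)^(-q) ≤ exp(qω/(1-ω)) ≤ exp(.5006 log d) = d^.5006 ≤ d/9` (d ≥ 100),
`G q (2ω-1) = (2-2ω)^(-q) ≤ 1`,
`q log(1+α) ≥ q(α - α²/2) ≥ .99 log d` (`qα = sqrt(q log d/(4n)) ≥ log d`), so `8n G(-α) ≤ 8 d^.01 ≤ d/10`,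
`q log(1+γ) ≥ q (γ - γ²/2) ≥ 1.98 log d` so `n(n-1) G(-γ) ≤ d^.02 ≤ d/50`.
Total `< 4(d+1)` with a lot of room. -/
theorem competitor_small {n : ℕ} (hn : 99 ≤ n) {q : ℝ}
    (hq : 4 * ((n : ℝ) + 1) * Real.log ((n : ℝ) + 1) ≤ q) :
    ∃ α γ : ℝ, InDom n α γ ∧ 2 * Phi n q α γ < 4 * ((n : ℝ) + 2) := by
  have hnR : (99 : ℝ) ≤ n := by exact_mod_cast hn
  set L : ℝ := Real.log ((n : ℝ) + 1) with hL
  have hL1 : 4.38 ≤ L := CompSmallAux.log_big (by linarith)
  have hLpos : 0 < L := by linarith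
  have hq1 : 0 < q := lt_of_lt_of_le (by positivity) hq
  have hqL : 4 * ((n : ℝ) + 1) * L ≤ q := hq
  have hn1 : (0 : ℝ) < (n : ℝ) - 1 := by linarith
  set γ : ℝ := 1 / (2 * ((n : ℝ) - 1)) with hγ
  set α : ℝ := Real.sqrt (L / (4 * n * q)) with hα
  have hγ1 : ((n : ℝ) - 1) * γ = 1 / 2 := by
    rw [hγ]
    field_simp
  have hγpos : 0 < γ := by rw [hγ]; positivity
  have hαpos : 0 < α := by
    rw [hα]
    apply Real.sqrt_pos.2
    positivity
  have hα2 : α ^ 2 = L / (4 * n * q) := by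
    rw [hα]
    exact Real.sq_sqrt (by positivity)
  have hω : om n α γ = L / (2 * q) := by
    unfold om
    rw [hγ1, hα2]
    have : (n : ℝ) ≠ 0 := by linarith
    field_simp
    ring
  -- smallness of `ω`
  have hω1 : L / (2 * q) ≤ 1 / 800 := by
    rw [div_le_div_iff₀ (by positivity) (by norm_num)]
    nlinarith
  have hωpos : 0 < L / (2 * q) := by positivity
  -- `q α ≥ L`
  have hqα : L ≤ q * α := by
    have h1 : L ^ 2 ≤ (q * α) ^ 2 := by
      rw [mul_pow, hα2]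
      have : q ^ 2 * (L / (4 * n * q)) = q * L / (4 * n) := by
        have : (n : ℝ) ≠ 0 := by linarith
        field_simp
      rw [this, le_div_iff₀ (by positivity)]
      nlinarith
    exact le_of_sq_le_sq h1 (by positivity)
  have hα1 : α ≤ 1 / 396 := by
    have h1 : α ^ 2 ≤ (1 / 396) ^ 2 := by
      rw [hα2, div_le_iff₀ (by positivity)]
      have h2 : 4 * 100 * L ≤ q := by nlinarith
      have h3 : (4 * 99 * q) ≤ 4 * n * q := by nlinarith
      nlinarith
    exact le_of_sq_le_sq h1 (by norm_num)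
  have hγs : γ ≤ 1 / 196 := by
    rw [hγ, div_le_div_iff₀ (by positivity) (by norm_num)]
    linarith
  have hqγ : 2 * L ≤ q * γ := by
    rw [hγ, mul_one_div, le_div_iff₀ (by positivity)]
    nlinarith
  refine ⟨α, γ, ⟨hαpos, hγpos.le, by rw [hγ1]; norm_num, by rw [hω]; linarith⟩, ?_⟩
  have hd : (100 : ℝ) ≤ (n : ℝ) + 1 := by linarith
  have hdexp : Real.exp L = (n : ℝ) + 1 := Real.exp_log (by linarith)
  -- the four terms
  have t1 : G q (-α) ≤ Real.exp (-(0.99 * L)) :=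
    CompSmallAux.G_neg_le hq1.le hαpos (by nlinarith)
  have t2 : G q (-γ) ≤ Real.exp (-(1.98 * L)) :=
    CompSmallAux.G_neg_le hq1.le hγpos (by nlinarith)
  have t3 : G q (om n α γ) ≤ Real.exp (0.501 * L) := by
    rw [hω]
    refine CompSmallAux.G_pos_le hq1.le (by linarith) ?_
    have h1 : q * (L / (2 * q)) = L / 2 := by field_simp
    rw [h1]
    nlinarith
  have t4 : G q (2 * om n α γ - 1) ≤ Real.exp 0 := by
    rw [hω]
    refine CompSmallAux.G_pos_le hq1.le (by linarith) ?_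
    rw [zero_mul]
    nlinarith
  have e1 : (n : ℝ) * Real.exp (-(0.99 * L)) ≤ ((n : ℝ) + 1) / 8 := by
    have h1 : Real.exp (-(0.99 * L)) = Real.exp (0.01 * L) / Real.exp L := by
      rw [← Real.exp_sub]
      congr 1
      ring
    rw [h1, hdexp]
    have h2 := CompSmallAux.exp_half hd (c := 0.01) (by norm_num)
    rw [← hL] at h2
    have h3 : (n : ℝ) * (Real.exp (0.01 * L) / ((n : ℝ) + 1)) ≤ Real.exp (0.01 * L) := by
      rw [← mul_div_assoc, div_le_iff₀ (by linarith)]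
      nlinarith [Real.exp_pos (0.01 * L)]
    linarith
  have e2 : (n : ℝ) * (n - 1) * Real.exp (-(1.98 * L)) ≤ ((n : ℝ) + 1) / 8 := by
    have h1 : Real.exp (-(1.98 * L)) = Real.exp (0.02 * L) / (Real.exp L * Real.exp L) := by
      rw [← Real.exp_add, ← Real.exp_sub]
      congr 1
      ring
    rw [h1, hdexp]
    have h2 := CompSmallAux.exp_half hd (c := 0.02) (by norm_num)
    rw [← hL] at h2
    have h3 : (n : ℝ) * (n - 1) * (Real.exp (0.02 * L) / (((n : ℝ) + 1) * ((n : ℝ) + 1))) ≤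
        Real.exp (0.02 * L) := by
      rw [← mul_div_assoc, div_le_iff₀ (by positivity)]
      have h4 : (n : ℝ) * (n - 1) ≤ ((n : ℝ) + 1) * ((n : ℝ) + 1) := by nlinarith
      calc (n : ℝ) * (n - 1) * Real.exp (0.02 * L) ≤
          (((n : ℝ) + 1) * ((n : ℝ) + 1)) * Real.exp (0.02 * L) :=
            mul_le_mul_of_nonneg_right h4 (Real.exp_pos _).le
        _ = Real.exp (0.02 * L) * (((n : ℝ) + 1) * ((n : ℝ) + 1)) := by ring
    linarith
  have e3 := CompSmallAux.exp_half hd (c := 0.501) le_rfl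
  rw [← hL] at e3
  rw [Real.exp_zero] at t4
  have u1 : 8 * (n : ℝ) * G q (-α) ≤ (n : ℝ) + 1 := by
    have := mul_le_mul_of_nonneg_left t1 (show (0 : ℝ) ≤ n by linarith)
    linarith
  have u2 : (n : ℝ) * (n - 1) * G q (-γ) ≤ ((n : ℝ) + 1) / 8 := by
    have := mul_le_mul_of_nonneg_left t2 (show (0 : ℝ) ≤ (n : ℝ) * (n - 1) by positivity)
    linarith
  unfold Phi
  have : 2 * (4 * (n : ℝ) * G q (-α) + n * (n - 1) / 2 * G q (-γ) + 4 * G q (om n α γ) +
      2 * G q (2 * om n α γ - 1)) = 8 * (n : ℝ) * G q (-α) + (n : ℝ) * (n - 1) * G q (-γ) +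
      8 * G q (om n α γ) + 4 * G q (2 * om n α γ - 1) := by ring
  rw [this]
  linarith

end Pool.Agent.RieszLin
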