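import Pool.Agent.Riesz.Main

set_option autoImplicit false

open Real Finset

namespace Pool.Agent.RieszLin

open Pool.Agent.Riesz

/-- MODULE RL25. The competitor exists (this is `hconf` inside the proof of
`Pool.Agent.Results.MP_743703_an.LargeExponent.result`; copy it; there `IsConfig (m+1) x` is
`Function.Injective x ∧ ∀ i, ‖x i‖ = 1`). -/
theorem exists_competitor {m : ℕ} (hm : 1 ≤ m) {β α γ : ℝ} (h : InDom m α γ) :
    ∃ x : Fin (m + 1 + 3) → EuclideanSpace ℝ (Fin (m + 1 + 1)),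
      Function.Injective x ∧ (∀ i, ‖x i‖ = 1) ∧ dsum β x = 2 * Phi m β α γ := by
  have hm' : (1 : ℝ) ≤ m := by exact_mod_cast hm
  have hcm : (Fintype.card (Fin m) : ℝ) = m := by rw [Fintype.card_fin]
  let eb : Fin (m + 1 + 1) ≃ Fin m ⊕ Fin 2 := (finSumFinEquiv (m := m) (n := 2)).symm
  let ob := (EuclideanSpace.basisFun (Fin (m + 1 + 1)) ℝ).reindex eb
  obtain ⟨x0, x1, x2, x3, y, n0, n1, n2, n3, ny, hsym⟩ := exists_sym (κ := Fin m)
    (e := ob) ob.orthonormal (by rw [hcm]; exact hm') (α := α) (γ := γ) (by rw [hcm]; exact h)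
  let e : Fin 4 ⊕ Fin m ≃ Fin (m + 1 + 3) := Fintype.equivOfCardEq (by simp; ring)
  let u : Fin 4 ⊕ Fin m → EuclideanSpace ℝ (Fin (m + 1 + 1)) := Sum.elim ![x0, x1, x2, x3] y
  have hu1 : ∀ p, ‖u p‖ = 1 := by
    rintro (i | k)
    · fin_cases i
      · exact n0
      · exact n1
      · exact n2
      · exact n3
    · exact ny k
  have husym : IsSym α γ (u (Sum.inl 0)) (u (Sum.inl 1)) (u (Sum.inl 2)) (u (Sum.inl 3))
      (fun k => u (Sum.inr k)) := hsym
  have hlt := husym.lt_one (by rw [hcm]; exact h)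
  refine ⟨fun i => u (e.symm i), ?_, fun i => hu1 _, ?_⟩
  · intro i j hij
    by_contra hne
    have h1 := hlt (e.symm i) (e.symm j) (fun h => hne (e.symm.injective h))
    have hij' : u (e.symm i) = u (e.symm j) := hij
    rw [hij', real_inner_self_eq_norm_sq, hu1] at h1
    norm_num at h1
  · rw [dsum_relabel e.symm β u, dsum_eq, Etot_sym husym, hcm]

end Pool.Agent.RieszLin
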