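import Pool.Agent.RieszSmall.One
import Pool.Agent.RieszSmall.Exist

set_option autoImplicit false

open Real Finset

namespace Pool.Agent.RieszLin

/-- `Ψ(y) = p - q y - p (1-y)^(q/p)` with `p = q + 1`. -/
noncomputable def Psi (q y : ℝ) : ℝ := (q + 1) - q * y - (q + 1) * (1 - y) ^ (q / (q + 1))

/-- `Y = 1 - 2^(-p)`. -/
noncomputable def YY (q : ℝ) : ℝ := 1 - 2 ^ (-(q + 1))

/-- `y₀ = 1 - (1 - 1/m)^p`. -/
noncomputable def y0 (q m : ℝ) : ℝ := 1 - (1 - 1 / m) ^ (q + 1)

/-- the energy of two orthogonal simplices with `2` and `m` vertices. -/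
noncomputable def TT (q m : ℝ) : ℝ := (m + 2) ^ 2 - 4 * YY q - m ^ 2 * y0 q m

/-- `κ = T / N²`. -/
noncomputable def kap (q m : ℝ) : ℝ := TT q m / (m + 2) ^ 2

/-- coefficient of `y²` in `Ψ` -/
noncomputable def psi2 (q : ℝ) : ℝ := q / (q + 1) / 2

/-- coefficient of `y³` in `Ψ` -/
noncomputable def psi3 (q : ℝ) : ℝ := q / (q + 1) * (2 - q / (q + 1)) / 6

/-- coefficient of `y⁴` in `Ψ` -/
noncomputable def psi4 (q : ℝ) : ℝ := q / (q + 1) * (2 - q / (q + 1)) * (3 - q / (q + 1)) / 24

section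

variable {ι : Type*} [Fintype ι] [DecidableEq ι]

/-- the multiplier. -/
def Kf (κ A B : ℝ) (a : ι → ℝ) (i j : ι) : ℝ := κ - A * (a i + a j) - B * (a i * a j)

/-- sum over ordered pairs of different indices. -/
def offsum (f : ι → ι → ℝ) : ℝ := ∑ i, ∑ j, if i = j then 0 else f i j

lemma offsum_eq (f : ι → ι → ℝ) : offsum f = ∑ i, ∑ j, f i j - ∑ i, f i i := by
  unfold offsum
  rw [← Finset.sum_sub_distrib]
  refine Finset.sum_congr rfl (fun i _ => ?_)
  have h : ∀ j, (if i = j then 0 else f i j) = f i j - (if i = j then f i j else 0) := by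
    intro j; split_ifs <;> ring
  simp only [h, Finset.sum_sub_distrib, Finset.sum_ite_eq, Finset.mem_univ, if_true]

lemma offsum_congr {f g : ι → ι → ℝ} (h : ∀ i j, i ≠ j → f i j = g i j) : offsum f = offsum g := by
  unfold offsum
  refine Finset.sum_congr rfl (fun i _ => Finset.sum_congr rfl (fun j _ => ?_))
  split_ifs with hij
  · rfl
  · exact h i j hij

lemma offsum_le {f g : ι → ι → ℝ} (h : ∀ i j, i ≠ j → f i j ≤ g i j) : offsum f ≤ offsum g := by
  unfold offsum
  refine Finset.sum_le_sum (fun i _ => Finset.sum_le_sum (fun j _ => ?_))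
  split_ifs with hij
  · exact le_rfl
  · exact h i j hij

lemma offsum_add (f g : ι → ι → ℝ) : offsum (fun i j => f i j + g i j) = offsum f + offsum g := by
  unfold offsum
  rw [← Finset.sum_add_distrib]
  refine Finset.sum_congr rfl (fun i _ => ?_)
  rw [← Finset.sum_add_distrib]
  refine Finset.sum_congr rfl (fun j _ => ?_)
  split_ifs <;> ring

lemma offsum_sub (f g : ι → ι → ℝ) : offsum (fun i j => f i j - g i j) = offsum f - offsum g := by
  unfold offsum
  rw [← Finset.sum_sub_distrib]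
  refine Finset.sum_congr rfl (fun i _ => ?_)
  rw [← Finset.sum_sub_distrib]
  refine Finset.sum_congr rfl (fun j _ => ?_)
  split_ifs <;> ring

lemma offsum_mul (c : ℝ) (f : ι → ι → ℝ) : offsum (fun i j => c * f i j) = c * offsum f := by
  unfold offsum
  rw [Finset.mul_sum]
  refine Finset.sum_congr rfl (fun i _ => ?_)
  rw [Finset.mul_sum]
  refine Finset.sum_congr rfl (fun j _ => ?_)
  split_ifs <;> ring

lemma offsum_const (c : ℝ) : offsum (fun (_ _ : ι) => c)
    = c * ((Fintype.card ι : ℝ) ^ 2 - Fintype.card ι) := by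
  rw [offsum_eq]
  simp only [Finset.sum_const, Finset.card_univ, nsmul_eq_mul]
  ring

lemma offsum_mulfun (a b : ι → ℝ) : offsum (fun i j => a i * b j)
    = (∑ i, a i) * (∑ i, b i) - ∑ i, a i * b i := by
  rw [offsum_eq]
  congr 1
  rw [Finset.sum_mul_sum]

lemma offsum_sum (a : ι → ℝ) : offsum (fun i j => a i + a j)
    = 2 * ((Fintype.card ι : ℝ) - 1) * ∑ i, a i := by
  rw [offsum_eq]
  simp only [Finset.sum_add_distrib, Finset.sum_const, Finset.card_univ, nsmul_eq_mul]
  rw [← Finset.mul_sum]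
  ring

/-- split off two indices of a symmetric off-diagonal sum. -/
lemma offsum_split {f : ι → ι → ℝ} (hf : ∀ i j, f i j = f j i) {i1 i2 : ι} (hne : i1 ≠ i2) :
    offsum f = 2 * f i1 i2 + 2 * ∑ j ∈ (univ.erase i1).erase i2, (f i1 j + f i2 j)
      + ∑ i ∈ (univ.erase i1).erase i2, ∑ j ∈ (univ.erase i1).erase i2,
          (if i = j then 0 else f i j) := by
  have hm2 : i2 ∈ univ.erase i1 := Finset.mem_erase.2 ⟨hne.symm, Finset.mem_univ _⟩
  have key : ∀ g : ι → ℝ, ∑ j, g j = g i1 + (g i2 + ∑ j ∈ (univ.erase i1).erase i2, g j) := by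
    intro g
    rw [← Finset.add_sum_erase _ _ (Finset.mem_univ i1), ← Finset.add_sum_erase _ _ hm2]
  unfold offsum
  rw [key]
  rw [key (fun j => if i1 = j then 0 else f i1 j), key (fun j => if i2 = j then 0 else f i2 j)]
  simp only [if_true, if_neg hne, if_neg hne.symm]
  have h1 : ∑ j ∈ (univ.erase i1).erase i2, (if i1 = j then 0 else f i1 j)
      = ∑ j ∈ (univ.erase i1).erase i2, f i1 j := by
    refine Finset.sum_congr rfl (fun j hj => ?_)
    rw [if_neg]
    rintro rfl
    simp at hj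
  have h2 : ∑ j ∈ (univ.erase i1).erase i2, (if i2 = j then 0 else f i2 j)
      = ∑ j ∈ (univ.erase i1).erase i2, f i2 j := by
    refine Finset.sum_congr rfl (fun j hj => ?_)
    rw [if_neg]
    rintro rfl
    simp at hj
  have h3 : ∑ i ∈ (univ.erase i1).erase i2, (∑ j, if i = j then 0 else f i j)
      = ∑ i ∈ (univ.erase i1).erase i2, (f i1 i + f i2 i
        + ∑ j ∈ (univ.erase i1).erase i2, if i = j then 0 else f i j) := by
    refine Finset.sum_congr rfl (fun i hi => ?_)
    rw [key]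
    have hi1 : i ≠ i1 := by rintro rfl; simp at hi
    have hi2 : i ≠ i2 := by rintro rfl; simp at hi
    rw [if_neg hi1, if_neg hi2, hf i i1, hf i i2]
    ring
  rw [h1, h2, h3, Finset.sum_add_distrib, Finset.sum_add_distrib, hf i2 i1]
  ring

lemma card_rest {i1 i2 : ι} (hne : i1 ≠ i2) :
    ((((univ : Finset ι).erase i1).erase i2).card : ℝ) = (Fintype.card ι : ℝ) - 2 := by
  have hm2 : i2 ∈ univ.erase i1 := Finset.mem_erase.2 ⟨hne.symm, Finset.mem_univ _⟩
  have h1 := Finset.card_erase_add_one hm2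
  have h2 := Finset.card_erase_add_one (Finset.mem_univ i1)
  rw [Finset.card_univ] at h2
  have h3 : (((univ : Finset ι).erase i1).erase i2).card + 2 = Fintype.card ι := by omega
  rw [← h3]; push_cast; ring

end

end Pool.Agent.RieszLin
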