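import Pool.Agent.RieszLin.Defs

set_option autoImplicit false

open Real Finset

namespace Pool.Agent.RieszLin

open Pool.Agent.RieszSmall

section

variable {ι : Type*} [Fintype ι] [DecidableEq ι] {V : Type*} [NormedAddCommGroup V]
  [InnerProductSpace ℝ V]

namespace DualAux

omit [DecidableEq ι] in
lemma sumK {a : ι → ℝ} (ha0 : ∑ i, a i = 0) (κ A B : ℝ) :
    ∑ i, ∑ j, Kf κ A B a i j = κ * (Fintype.card ι : ℝ) ^ 2 := by
  have h1 : ∀ i, ∑ j, Kf κ A B a i j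
      = (Fintype.card ι : ℝ) * κ - (A * (Fintype.card ι : ℝ)) * a i := by
    intro i
    have h2 : ∑ j, Kf κ A B a i j = ∑ _j : ι, (κ - A * a i) - (A + B * a i) * ∑ j, a j := by
      rw [Finset.mul_sum, ← Finset.sum_sub_distrib]
      refine Finset.sum_congr rfl (fun j _ => ?_)
      unfold Kf; ring
    rw [h2, ha0, Finset.sum_const, Finset.card_univ, nsmul_eq_mul]; ring
  simp only [h1]
  rw [Finset.sum_sub_distrib, Finset.sum_const, Finset.card_univ, nsmul_eq_mul, ← Finset.mul_sum,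
    ha0]
  ring

omit [DecidableEq ι] in
lemma sumKI {x : ι → V} {a : ι → ℝ} (hax : ∑ i, a i • x i = 0) (κ A B : ℝ) :
    ∑ i, ∑ j, Kf κ A B a i j * (inner ℝ (x i) (x j) : ℝ) = κ * ‖∑ i, x i‖ ^ 2 := by
  have h1 : ∀ i, ∑ j, a j * (inner ℝ (x i) (x j) : ℝ) = 0 := by
    intro i
    have h2 : (inner ℝ (x i) (∑ j, a j • x j) : ℝ) = ∑ j, a j * (inner ℝ (x i) (x j) : ℝ) := by
      rw [inner_sum]
      exact Finset.sum_congr rfl (fun j _ => by rw [real_inner_smul_right])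
    rw [← h2, hax, inner_zero_right]
  have h3 : ∑ i, ∑ j, a i * (inner ℝ (x i) (x j) : ℝ) = 0 := by
    rw [Finset.sum_comm]
    refine Finset.sum_eq_zero (fun j _ => ?_)
    have h4 := h1 j
    rw [← h4]
    exact Finset.sum_congr rfl (fun i _ => by rw [real_inner_comm])
  have h5 : ‖∑ i, x i‖ ^ 2 = ∑ i, ∑ j, (inner ℝ (x i) (x j) : ℝ) := by
    rw [← real_inner_self_eq_norm_sq, sum_inner]
    exact Finset.sum_congr rfl (fun i _ => by rw [inner_sum])
  have h6 : ∀ i, ∑ j, Kf κ A B a i j * (inner ℝ (x i) (x j) : ℝ)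
      = κ * ∑ j, (inner ℝ (x i) (x j) : ℝ) - A * ∑ j, a i * (inner ℝ (x i) (x j) : ℝ)
        - (A + B * a i) * ∑ j, a j * (inner ℝ (x i) (x j) : ℝ) := by
    intro i
    rw [Finset.mul_sum, Finset.mul_sum, Finset.mul_sum, ← Finset.sum_sub_distrib,
      ← Finset.sum_sub_distrib]
    refine Finset.sum_congr rfl (fun j _ => ?_)
    unfold Kf; ring
  simp only [h6, h1, mul_zero, sub_zero]
  rw [Finset.sum_sub_distrib, ← Finset.mul_sum, ← Finset.mul_sum, h3, h5]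
  ring

end DualAux

/-- MODULE RL2. The dual (multiplier) bound and its equality case.
Proof. Write `D i j = 1 - inner (x i) (x j) > 0` and `K i j = Kf κ A B a i j > 0` for `i ≠ j`,
`p = q+1`, `τ = q/p`. `tangent_ineq` with `t = K^(1/p)`, `y = D` (RieszSmall/Energy.lean):
`t^q = K^τ`, `t^(q+1) = K`, so `p K^τ - q K D ≤ D^(-q)`; equality gives `t * D = 1` by `tangent_eq`,
i.e. `K = D^(-p)`.
Sum over `i ≠ j`: `En q x ≥ p * offsum K^τ - q * offsum (D*K)`.
`offsum (D*K) = ∑∑ D K` over all pairs (diagonal: `D i i = 1 - ‖x i‖² = 0`)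
`= ∑∑ K i j - ∑∑ inner (x i) (x j) * K i j`; `∑∑ K = κ N²` since `∑ a = 0`;
`∑∑ inner (x i)(x j) * K = κ ‖∑ x i‖² - 2 A ⟪∑ a i x i, ∑ x j⟫ - B ‖∑ a i x i‖² = κ ‖∑ x i‖² ≥ 0`.
Hence `offsum (D*K) ≤ κ N²`. -/
theorem dual_bound {x : ι → V} (hx : ∀ i, ‖x i‖ = 1)
    (hlt : ∀ i j, i ≠ j → (inner ℝ (x i) (x j) : ℝ) < 1) {a : ι → ℝ} (ha0 : ∑ i, a i = 0)
    (hax : ∑ i, a i • x i = 0) {q κ A B : ℝ} (hq : 0 < q) (hκ : 0 ≤ κ)
    (hK : ∀ i j, i ≠ j → 0 < Kf κ A B a i j) :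
    (q + 1) * offsum (fun i j => Kf κ A B a i j ^ (q / (q + 1)))
        - q * κ * (Fintype.card ι : ℝ) ^ 2 ≤ En q x ∧
    (En q x ≤ (q + 1) * offsum (fun i j => Kf κ A B a i j ^ (q / (q + 1)))
        - q * κ * (Fintype.card ι : ℝ) ^ 2 →
      ∀ i j, i ≠ j → (1 - (inner ℝ (x i) (x j) : ℝ)) ^ (-(q + 1)) = Kf κ A B a i j) := by
  have hp : 0 < q + 1 := by linarith
  have ht1 : ∀ K : ℝ, 0 < K → (K ^ (1 / (q + 1))) ^ q = K ^ (q / (q + 1)) := by
    intro K hK0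
    rw [← Real.rpow_mul hK0.le]
    congr 1
    field_simp
  have ht2 : ∀ K : ℝ, 0 < K → (K ^ (1 / (q + 1))) ^ (q + 1) = K := by
    intro K hK0
    rw [← Real.rpow_mul hK0.le, one_div, inv_mul_cancel₀ hp.ne', Real.rpow_one]
  set G : ι → ι → ℝ := fun i j => if i = j then 0 else
    ((1 + q) * (Kf κ A B a i j ^ (1 / (q + 1))) ^ q
      - q * (Kf κ A B a i j ^ (1 / (q + 1))) ^ (q + 1) * (1 - inner ℝ (x i) (x j))) with hG
  have hle : ∀ i j, G i j ≤ (if i = j then 0 else (1 - (inner ℝ (x i) (x j) : ℝ)) ^ (-q)) := by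
    intro i j
    simp only [hG]
    split_ifs with hij
    · exact le_rfl
    · exact tangent_ineq hq (Real.rpow_pos_of_pos (hK i j hij) _) (by linarith [hlt i j hij])
  have hGs : ∑ i, ∑ j, G i j = (q + 1) * offsum (fun i j => Kf κ A B a i j ^ (q / (q + 1)))
        - q * κ * (Fintype.card ι : ℝ) ^ 2 + q * κ * ‖∑ i, x i‖ ^ 2 := by
    have h1 : ∀ i j, G i j = (q + 1) * (if i = j then 0 else Kf κ A B a i j ^ (q / (q + 1)))
        - q * (Kf κ A B a i j - Kf κ A B a i j * (inner ℝ (x i) (x j) : ℝ)) := by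
      intro i j
      simp only [hG]
      split_ifs with hij
      · subst hij
        rw [real_inner_self_eq_norm_sq, hx i]
        ring
      · rw [ht1 _ (hK i j hij), ht2 _ (hK i j hij)]
        ring
    simp only [h1]
    have h2 : ∀ i, ∑ j, ((q + 1) * (if i = j then 0 else Kf κ A B a i j ^ (q / (q + 1)))
        - q * (Kf κ A B a i j - Kf κ A B a i j * (inner ℝ (x i) (x j) : ℝ)))
        = (q + 1) * ∑ j, (if i = j then 0 else Kf κ A B a i j ^ (q / (q + 1)))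
        - q * (∑ j, Kf κ A B a i j - ∑ j, Kf κ A B a i j * (inner ℝ (x i) (x j) : ℝ)) := by
      intro i
      rw [Finset.sum_sub_distrib, ← Finset.mul_sum, ← Finset.mul_sum, Finset.sum_sub_distrib]
    simp only [h2]
    rw [Finset.sum_sub_distrib, ← Finset.mul_sum, ← Finset.mul_sum, Finset.sum_sub_distrib,
      DualAux.sumK ha0, DualAux.sumKI hax]
    unfold offsum
    ring
  have hle2 : ∑ i, ∑ j, G i j ≤ En q x := by
    unfold En
    exact Finset.sum_le_sum (fun i _ => Finset.sum_le_sum (fun j _ => hle i j))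
  have hpos : 0 ≤ q * κ * ‖∑ i, x i‖ ^ 2 := by positivity
  refine ⟨by linarith, ?_⟩
  intro hEn i j hij
  have heq : ∑ i, ∑ j, G i j = En q x := by linarith
  unfold En at heq
  have h1 := (Finset.sum_eq_sum_iff_of_le
    (fun i _ => Finset.sum_le_sum (fun j _ => hle i j))).1 heq i (Finset.mem_univ i)
  have h2 := (Finset.sum_eq_sum_iff_of_le (fun j _ => hle i j)).1 h1 j (Finset.mem_univ j)
  simp only [hG, if_neg hij] at h2
  have hKp := hK i j hij
  have hDp : 0 < 1 - (inner ℝ (x i) (x j) : ℝ) := by linarith [hlt i j hij]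
  have h3 := tangent_eq hq (Real.rpow_pos_of_pos hKp _) hDp h2
  have h4 : 1 - (inner ℝ (x i) (x j) : ℝ) = (Kf κ A B a i j ^ (1 / (q + 1)))⁻¹ :=
    eq_inv_of_mul_eq_one_right h3
  rw [h4, Real.rpow_neg (inv_nonneg.2 (Real.rpow_nonneg hKp.le _)),
    Real.inv_rpow (Real.rpow_nonneg hKp.le _), inv_inv, ht2 _ hKp]

end

end Pool.Agent.RieszLin
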