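import Pool.Agent.RieszLin.Block

set_option autoImplicit false

open Real Finset

namespace Pool.Agent.RieszLin

section

variable {ι : Type*} [Fintype ι] [DecidableEq ι] {a : ι → ℝ}

/-- MODULE RL14. General reduction of the global part: `K = κ (1 - t a i a j)`.
`Kf κ 0 (κ t) a i j = κ (1 - t a i a j)`, `K^τ = κ^τ (1 - t a i a j)^τ`,
`p (1-v)^τ = p - q v - Ψ(v)`, `offsum (a i * a j) = -1`. With `T = κ N²`,
`p offsum K^τ - q κ N² - T = κ^τ [p (N² - N) + q t - offsum Ψ(t a i a j) - p N² κ^(1/p)]`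
(`κ = κ^τ κ^(1/p)`). -/
theorem glob_red {q m t : ℝ} (hq : 1 ≤ q) (hm : 2 ≤ m) (hcard : (Fintype.card ι : ℝ) = m + 2)
    (h0 : ∑ i, a i = 0) (h2 : ∑ i, a i ^ 2 = 1) (hP : ∀ i j, i ≠ j → t * (a i * a j) < 1)
    (hmain : offsum (fun i j => Psi q (t * (a i * a j)))
      < (q + 1) * (m + 2) ^ 2 - (q + 1) * (m + 2) + q * t
        - (q + 1) * (m + 2) ^ 2 * kap q m ^ (1 / (q + 1))) :
    (∀ i j, i ≠ j → 0 < Kf (kap q m) 0 (kap q m * t) a i j) ∧
    TT q m < (q + 1) * offsum (fun i j => Kf (kap q m) 0 (kap q m * t) a i j ^ (q / (q + 1)))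
      - q * kap q m * (m + 2) ^ 2 := by
  have hsq := h2
  obtain ⟨hk0, hk1, hkN⟩ := kap_facts hq hm
  have hp : (0 : ℝ) < q + 1 := by linarith
  have hKf : ∀ i j, Kf (kap q m) 0 (kap q m * t) a i j = kap q m * (1 - t * (a i * a j)) := by
    intro i j
    unfold Kf
    ring
  refine ⟨fun i j hij => ?_, ?_⟩
  · rw [hKf]
    exact mul_pos hk0 (by linarith [hP i j hij])
  · have h1 : (q + 1) * offsum (fun i j => Kf (kap q m) 0 (kap q m * t) a i j ^ (q / (q + 1)))
        = kap q m ^ (q / (q + 1)) * ((q + 1) * ((m + 2) ^ 2 - (m + 2)) + q * t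
          - offsum (fun i j => Psi q (t * (a i * a j)))) := by
      have h2 : (q + 1) * offsum (fun i j => Kf (kap q m) 0 (kap q m * t) a i j ^ (q / (q + 1)))
          = offsum (fun i j => kap q m ^ (q / (q + 1)) *
            (((q + 1) - (q * t) * (a i * a j)) - Psi q (t * (a i * a j)))) := by
        rw [← offsum_mul]
        refine offsum_congr fun i j hij => ?_
        rw [hKf, Real.mul_rpow hk0.le (by linarith [hP i j hij])]
        unfold Psi
        ring
      rw [h2, offsum_mul, offsum_sub, offsum_sub, offsum_const, offsum_mul, offsum_mulfun, h0,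
        hcard]
      have h3 : ∑ i, a i * a i = 1 := by
        rw [← hsq]
        exact Finset.sum_congr rfl fun i _ => by ring
      rw [h3]
      ring
    rw [h1]
    have hkt : 0 < kap q m ^ (q / (q + 1)) := Real.rpow_pos_of_pos hk0 _
    have hkk : kap q m = kap q m ^ (q / (q + 1)) * kap q m ^ (1 / (q + 1)) := by
      rw [← Real.rpow_add hk0]
      have : q / (q + 1) + 1 / (q + 1) = 1 := by
        field_simp
      rw [this, Real.rpow_one]
    have h4 : kap q m ^ (q / (q + 1)) * ((q + 1) * (m + 2) ^ 2 * kap q m ^ (1 / (q + 1)))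
        < kap q m ^ (q / (q + 1)) * ((q + 1) * ((m + 2) ^ 2 - (m + 2)) + q * t
          - offsum (fun i j => Psi q (t * (a i * a j)))) := by
      apply mul_lt_mul_of_pos_left _ hkt
      linarith
    have h5 : kap q m ^ (q / (q + 1)) * ((q + 1) * (m + 2) ^ 2 * kap q m ^ (1 / (q + 1)))
        = (q + 1) * (kap q m * (m + 2) ^ 2) := by
      calc kap q m ^ (q / (q + 1)) * ((q + 1) * (m + 2) ^ 2 * kap q m ^ (1 / (q + 1)))
          = (q + 1) * (m + 2) ^ 2 * (kap q m ^ (q / (q + 1)) * kap q m ^ (1 / (q + 1))) := by ring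
        _ = (q + 1) * (m + 2) ^ 2 * kap q m := by rw [← hkk]
        _ = (q + 1) * (kap q m * (m + 2) ^ 2) := by ring
    rw [h5] at h4
    have h6 : q * kap q m * (m + 2) ^ 2 = q * (kap q m * (m + 2) ^ 2) := by ring
    rw [h6, hkN] at *
    linarith

end

end Pool.Agent.RieszLin
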