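import Pool.Agent.RieszLin.Defs

set_option autoImplicit false

open Real Finset

namespace Pool.Agent.RieszLin

/-- MODULE RL8. Three cubic inequalities (`z = 9/4`); true suprema `2.82402` (at `X = .8775`),
`2.82426` (at `X = 1.1009`), `2.88073` (at `X = 1.2148`). Certificates: `B - z(z-X)(...)` is a
polynomial in `X`; e.g. `(X - X₀)² (αX + β) + γ` with `γ > 0`; nlinarith should do it. -/
theorem poly_one {X : ℝ} (h0 : 0 ≤ X) (h1 : X ≤ 1) :
    9 / 4 * (9 / 4 - X) * (X ^ 2 + 53 / 100 * (1 - X ^ 2) + 21 / 100 * (X * (1 - X))) ≤ 2825 / 1000 := by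
  nlinarith [mul_nonneg h0 (sq_nonneg (X - 8775 / 10000)), sq_nonneg (X - 8775 / 10000)]

theorem poly_two {X : ℝ} (h0 : 1 ≤ X) (h1 : X ≤ 9 / 4) :
    9 / 4 * (9 / 4 - X) * (X ^ 2 + 47 / 100 * (1 - X ^ 2) + 18 / 100 * (X * (1 - X))) ≤ 2825 / 1000 := by
  nlinarith [mul_nonneg (zero_le_one.trans h0) (sq_nonneg (X - 11009 / 10000)),
    sq_nonneg (X - 11009 / 10000)]

theorem poly_three {X : ℝ} (h0 : 1 ≤ X) (h1 : X ≤ 9 / 4) :
    9 / 4 * (9 / 4 - X) * (X ^ 2 + 42 / 100 * (1 - X ^ 2) + 15 / 100 * (X * (1 - X))) ≤ 2885 / 1000 := by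
  nlinarith [mul_nonneg (zero_le_one.trans h0) (sq_nonneg (X - 12148 / 10000)),
    sq_nonneg (X - 12148 / 10000)]

end Pool.Agent.RieszLin
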