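import Pool.Agent.RieszLin.Defs

set_option autoImplicit false

open Real Finset

namespace Pool.Agent.RieszLin

namespace ScalAAux

lemma two_rpow_ge {q : ℝ} (hq : 2 ≤ q) :
    4 + 2.772 * (q - 2) + 0.96 * (q - 2) ^ 2 ≤ (2 : ℝ) ^ q := by
  have h1 : (2 : ℝ) ^ q = 4 * Real.exp ((q - 2) * Real.log 2) := by
    have h2 : (2 : ℝ) ^ q = (2 : ℝ) ^ (2 : ℝ) * (2 : ℝ) ^ (q - 2) := by
      rw [← Real.rpow_add (by norm_num)]
      congr 1
      ring
    have h3 : (2 : ℝ) ^ (2 : ℝ) = 4 := by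
      rw [show (2 : ℝ) = ((2 : ℕ) : ℝ) by norm_num, Real.rpow_natCast]
      norm_num
    rw [h2, h3, Real.rpow_def_of_pos (by norm_num), mul_comm (Real.log 2)]
  have hl := Real.log_two_gt_d9
  have ht : 0 ≤ q - 2 := by linarith
  have hx : 0 ≤ (q - 2) * Real.log 2 := mul_nonneg ht (by linarith)
  have h4 := Real.quadratic_le_exp_of_nonneg hx
  rw [h1]
  have h5 : (q - 2) * 0.693 ≤ (q - 2) * Real.log 2 :=
    mul_le_mul_of_nonneg_left (by linarith) ht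
  have h6 : ((q - 2) * 0.693) ^ 2 ≤ ((q - 2) * Real.log 2) ^ 2 :=
    pow_le_pow_left₀ (mul_nonneg ht (by norm_num)) h5 2
  nlinarith [sq_nonneg (q - 2)]

lemma g_facts {q g : ℝ} (hq : 2 ≤ q) (hg : g = (2 : ℝ) ^ (-q)) :
    0 < g ∧ g ≤ 1 / 4 ∧ g * (4 + 2.772 * (q - 2) + 0.96 * (q - 2) ^ 2) ≤ 1 := by
  have hpos : 0 < g := by rw [hg]; positivity
  have h1 : g * (2 : ℝ) ^ q = 1 := by
    rw [hg, ← Real.rpow_add (by norm_num)]
    simp
  have h2 := two_rpow_ge hq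
  have h3 : g * (4 + 2.772 * (q - 2) + 0.96 * (q - 2) ^ 2) ≤ 1 := by
    rw [← h1]
    exact mul_le_mul_of_nonneg_left h2 hpos.le
  refine ⟨hpos, ?_, h3⟩
  have h4 : g * 4 ≤ g * (4 + 2.772 * (q - 2) + 0.96 * (q - 2) ^ 2) := by
    apply mul_le_mul_of_nonneg_left _ hpos.le
    nlinarith [sq_nonneg (q - 2)]
  linarith

end ScalAAux

open ScalAAux in
theorem scal_a {q g : ℝ} (hq : 2 ≤ q) (hg : g = (2 : ℝ) ^ (-q)) :
    psi2 q * (1 - g / 2) ^ 2 ≤ 53 / 100 * (1 - (q + 2) * g / 2) := by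
  obtain ⟨h1, h2, h3⟩ := g_facts hq hg
  obtain ⟨t, ht, rfl⟩ : ∃ t, 0 ≤ t ∧ q = t + 2 := ⟨q - 2, by linarith, by ring⟩
  rw [add_sub_cancel_right] at h3
  have hq1 : 0 < t + 2 + 1 := by linarith
  unfold psi2
  have key : (t + 2) * (1 - g / 2) ^ 2 ≤ 53 / 50 * (t + 3) * (1 - (t + 2 + 2) * g / 2) := by
    have h4 : g * (53 / 100 * t ^ 2 + 2.7725 * t + 4.485) ≤ 1.18 + 0.06 * t := by
      have h5 : g * (53 / 100 * t ^ 2 + 2.7725 * t + 4.485)
          ≤ (1.18 + 0.06 * t) * (g * (4 + 2.772 * t + 0.96 * t ^ 2)) := by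
        have h6 : 53 / 100 * t ^ 2 + 2.7725 * t + 4.485
            ≤ (1.18 + 0.06 * t) * (4 + 2.772 * t + 0.96 * t ^ 2) := by
          have : 0 ≤ t ^ 3 := by positivity
          nlinarith [sq_nonneg t]
        calc g * (53 / 100 * t ^ 2 + 2.7725 * t + 4.485)
            ≤ g * ((1.18 + 0.06 * t) * (4 + 2.772 * t + 0.96 * t ^ 2)) :=
              mul_le_mul_of_nonneg_left h6 h1.le
          _ = _ := by ring
      refine h5.trans ?_
      have : 0 ≤ 1.18 + 0.06 * t := by linarith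
      nlinarith
    nlinarith [mul_nonneg h1.le (by linarith : 0 ≤ 1 / 4 - g), mul_nonneg (mul_nonneg h1.le
      (by linarith : 0 ≤ 1 / 4 - g)) ht]
  have e : (t + 2) / (t + 2 + 1) / 2 * (1 - g / 2) ^ 2
      = (t + 2) * (1 - g / 2) ^ 2 / (2 * (t + 3)) := by
    field_simp
    ring
  rw [e, div_le_iff₀ (by linarith)]
  linarith

open ScalAAux in
theorem scal_b {q g : ℝ} (hq : 2 ≤ q) (hg : g = (2 : ℝ) ^ (-q)) :
    psi3 q * (1 - g / 2) ^ 3 ≤ 21 / 100 * (1 - (q + 2) * g / 2) := by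
  obtain ⟨h1, h2, h3⟩ := g_facts hq hg
  obtain ⟨t, ht, rfl⟩ : ∃ t, 0 ≤ t ∧ q = t + 2 := ⟨q - 2, by linarith, by ring⟩
  rw [add_sub_cancel_right] at h3
  have hq1 : 0 < t + 2 + 1 := by linarith
  unfold psi3
  have key : (t + 2) * (t + 4) * (1 - g / 2) ^ 3
      ≤ 63 / 50 * (t + 3) ^ 2 * (1 - (t + 2 + 2) * g / 2) := by
    have h4 : g * (0.63 * t ^ 3 + 4.9875 * t ^ 2 + 12.915 * t + 12.18)
        ≤ 0.26 * t ^ 2 + 1.56 * t + 3.34 := by
      have h6 : 0.63 * t ^ 3 + 4.9875 * t ^ 2 + 12.915 * t + 12.18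
          ≤ (0.26 * t ^ 2 + 1.56 * t + 3.34) * (4 + 2.772 * t + 0.96 * t ^ 2) := by
        have a3 : 0 ≤ t ^ 3 := by positivity
        have a4 : 0 ≤ t ^ 4 := by positivity
        nlinarith [sq_nonneg t]
      have h5 : g * (0.63 * t ^ 3 + 4.9875 * t ^ 2 + 12.915 * t + 12.18)
          ≤ (0.26 * t ^ 2 + 1.56 * t + 3.34) * (g * (4 + 2.772 * t + 0.96 * t ^ 2)) := by
        calc g * (0.63 * t ^ 3 + 4.9875 * t ^ 2 + 12.915 * t + 12.18)
            ≤ g * ((0.26 * t ^ 2 + 1.56 * t + 3.34) * (4 + 2.772 * t + 0.96 * t ^ 2)) :=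
              mul_le_mul_of_nonneg_left h6 h1.le
          _ = _ := by ring
      refine h5.trans ?_
      have : 0 ≤ 0.26 * t ^ 2 + 1.56 * t + 3.34 := by positivity
      nlinarith
    have h7 : (1 - g / 2) ^ 3 ≤ 1 - 3 * g / 2 + 3 * g / 16 := by
      have : 0 ≤ g ^ 3 := by positivity
      nlinarith [mul_nonneg h1.le (by linarith : 0 ≤ 1 / 4 - g)]
    have h8 : 0 ≤ (t + 2) * (t + 4) := by positivity
    have h9 := mul_le_mul_of_nonneg_left h7 h8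
    refine h9.trans ?_
    nlinarith
  have e : (t + 2) / (t + 2 + 1) * (2 - (t + 2) / (t + 2 + 1)) / 6 * (1 - g / 2) ^ 3
      = (t + 2) * (t + 4) * (1 - g / 2) ^ 3 / (6 * (t + 3) ^ 2) := by
    have : (t + 2 + 1) = t + 3 := by ring
    rw [this]
    have h0 : t + 3 ≠ 0 := by linarith
    field_simp
    ring
  rw [e, div_le_iff₀ (by positivity)]
  linarith

end Pool.Agent.RieszLin
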