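import Pool.Agent.RieszLin.Defs

set_option autoImplicit false

open Real Finset

namespace Pool.Agent.RieszLin

namespace ScalBAux

theorem g_tan3 {q g : ℝ} (hq3 : q ≤ 3) (hg : g = (2 : ℝ) ^ (-q)) :
    1 / 8 * (1 + (3 - q) * 0.6931) ≤ g := by
  have h1 : g = 1 / 8 * Real.exp ((3 - q) * Real.log 2) := by
    have h8 : (1 / 8 : ℝ) = Real.exp (-(3 * Real.log 2)) := by
      rw [Real.exp_neg, ← Real.log_rpow (by norm_num), Real.exp_log (by norm_num)]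
      norm_num
    rw [h8, ← Real.exp_add, hg, Real.rpow_def_of_pos (by norm_num)]
    congr 1
    ring
  have h2 := Real.add_one_le_exp ((3 - q) * Real.log 2)
  have h3 := Real.log_two_gt_d9
  rw [h1]
  nlinarith

theorem g_tan2 {q g : ℝ} (hq : 2 ≤ q) (hg : g = (2 : ℝ) ^ (-q)) :
    1 / 4 * (1 - (q - 2) * 0.6932) ≤ g := by
  have h1 : g = 1 / 4 * Real.exp (-((q - 2) * Real.log 2)) := by
    have h8 : (1 / 4 : ℝ) = Real.exp (-(2 * Real.log 2)) := by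
      rw [Real.exp_neg, ← Real.log_rpow (by norm_num), Real.exp_log (by norm_num)]
      norm_num
    rw [h8, ← Real.exp_add, hg, Real.rpow_def_of_pos (by norm_num)]
    congr 1
    ring
  have h2 := Real.add_one_le_exp (-((q - 2) * Real.log 2))
  have h3 := Real.log_two_lt_d9
  rw [h1]
  nlinarith

theorem g_le {q g : ℝ} (hq : 2 ≤ q) (hg : g = (2 : ℝ) ^ (-q)) : g ≤ 1 / 4 := by
  rw [hg]
  calc (2 : ℝ) ^ (-q) ≤ (2 : ℝ) ^ (-2 : ℝ) := Real.rpow_le_rpow_of_exponent_le (by norm_num) (by linarith)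
    _ = 1 / 4 := by
      rw [Real.rpow_neg (by norm_num)]
      norm_num

theorem mono_c {q g g0 : ℝ} (hq : 2 ≤ q) (hg0 : 0 ≤ g0) (hg : g0 ≤ g)
    (h : 0 ≤ q * (1 - g0 / 2) ^ 2 - 94 / 100 * (q + 1) * (1 - (q + 2) * g0 / 2)) :
    0 ≤ q * (1 - g / 2) ^ 2 - 94 / 100 * (q + 1) * (1 - (q + 2) * g / 2) := by
  have e : q * (1 - g / 2) ^ 2 - 94 / 100 * (q + 1) * (1 - (q + 2) * g / 2) -
      (q * (1 - g0 / 2) ^ 2 - 94 / 100 * (q + 1) * (1 - (q + 2) * g0 / 2)) =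
      (g - g0) * (47 / 100 * (q + 1) * (q + 2) - q * (1 - (g + g0) / 4)) := by ring
  have h2 : 0 ≤ 47 / 100 * (q + 1) * (q + 2) - q * (1 - (g + g0) / 4) := by nlinarith
  have := mul_nonneg (sub_nonneg.mpr hg) h2
  linarith

theorem mono_c' {q g g0 : ℝ} (hq : 2 ≤ q) (hg0 : 0 ≤ g0) (hg : g0 ≤ g) (hg1 : g ≤ 1 / 4)
    (h : 0 ≤ q * (q + 2) * (1 - g0 / 2) ^ 3 - 108 / 100 * (q + 1) ^ 2 * (1 - (q + 2) * g0 / 2)) :
    0 ≤ q * (q + 2) * (1 - g / 2) ^ 3 - 108 / 100 * (q + 1) ^ 2 * (1 - (q + 2) * g / 2) := by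
  have e : q * (q + 2) * (1 - g / 2) ^ 3 - 108 / 100 * (q + 1) ^ 2 * (1 - (q + 2) * g / 2) -
      (q * (q + 2) * (1 - g0 / 2) ^ 3 - 108 / 100 * (q + 1) ^ 2 * (1 - (q + 2) * g0 / 2)) =
      (g - g0) * (q + 2) * (54 / 100 * (q + 1) ^ 2 -
        q * ((1 - g / 2) ^ 2 + (1 - g / 2) * (1 - g0 / 2) + (1 - g0 / 2) ^ 2) / 2) := by ring
  have h1 : (1 - g / 2) ^ 2 ≤ 1 := by nlinarith
  have h2 : (1 - g0 / 2) ^ 2 ≤ 1 := by nlinarith
  have h3 : (1 - g / 2) * (1 - g0 / 2) ≤ 1 := by nlinarith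
  have h4 : 0 ≤ 54 / 100 * (q + 1) ^ 2 -
        q * ((1 - g / 2) ^ 2 + (1 - g / 2) * (1 - g0 / 2) + (1 - g0 / 2) ^ 2) / 2 := by nlinarith
  have := mul_nonneg (mul_nonneg (sub_nonneg.mpr hg) (by linarith : (0:ℝ) ≤ q + 2)) h4
  linarith

end ScalBAux

open ScalBAux

/-- MODULE RL10. One-variable inequalities on `[2,3]`; `g = 2^(-q)`. Margins: (c) .0064 at q = 3,
(c') .0049 at q = 3, (e) .0119 at q = 2. Lower bounds for `g`: tangent lines of `2^(-q)`, e.g. at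
`q = 3` (`g ≥ (1/8)(1 + (3-q) log 2)`), upper bound: chord `g ≤ (4-q)/8`; `log 2 ∈ (.6931, .6932)`. -/
theorem scal_c {q g : ℝ} (hq : 2 ≤ q) (hq3 : q ≤ 3) (hg : g = (2 : ℝ) ^ (-q)) :
    47 / 100 * (1 - (q + 2) * g / 2) ≤ psi2 q * (1 - g / 2) ^ 2 := by
  have key : 0 ≤ q * (1 - g / 2) ^ 2 - 94 / 100 * (q + 1) * (1 - (q + 2) * g / 2) := by
    rcases le_total q (5 / 2) with h | h
    · refine mono_c hq ?_ (g_tan2 hq hg) ?_
      · nlinarith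
      · obtain ⟨t, rfl⟩ : ∃ t, q = 2 + t := ⟨q - 2, by ring⟩
        have ht : 0 ≤ t := by linarith
        have ht2 : t ≤ 1 / 2 := by linarith
        nlinarith [mul_nonneg ht (sub_nonneg.mpr ht2), mul_nonneg (mul_nonneg ht ht) (sub_nonneg.mpr ht2)]
    · refine mono_c hq ?_ (g_tan3 hq3 hg) ?_
      · nlinarith
      · obtain ⟨t, rfl⟩ : ∃ t, q = 3 - t := ⟨3 - q, by ring⟩
        have ht : 0 ≤ t := by linarith
        have ht2 : t ≤ 1 / 2 := by linarith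
        nlinarith [mul_nonneg ht (sub_nonneg.mpr ht2), mul_nonneg (mul_nonneg ht ht) (sub_nonneg.mpr ht2)]
  have hq1 : 0 < q + 1 := by linarith
  have e : psi2 q * (1 - g / 2) ^ 2 - 47 / 100 * (1 - (q + 2) * g / 2) =
      (q * (1 - g / 2) ^ 2 - 94 / 100 * (q + 1) * (1 - (q + 2) * g / 2)) / (2 * (q + 1)) := by
    unfold psi2
    field_simp
    ring
  have : 0 ≤ psi2 q * (1 - g / 2) ^ 2 - 47 / 100 * (1 - (q + 2) * g / 2) := by
    rw [e]; positivity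
  linarith

theorem scal_c' {q g : ℝ} (hq : 2 ≤ q) (hq3 : q ≤ 3) (hg : g = (2 : ℝ) ^ (-q)) :
    18 / 100 * (1 - (q + 2) * g / 2) ≤ psi3 q * (1 - g / 2) ^ 3 := by
  have key : 0 ≤ q * (q + 2) * (1 - g / 2) ^ 3 - 108 / 100 * (q + 1) ^ 2 * (1 - (q + 2) * g / 2) := by
    rcases le_total q (5 / 2) with h | h
    · refine mono_c' hq ?_ (g_tan2 hq hg) (g_le hq hg) ?_
      · nlinarith
      · obtain ⟨t, rfl⟩ : ∃ t, q = 2 + t := ⟨q - 2, by ring⟩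
        have ht : 0 ≤ t := by linarith
        have ht2 : t ≤ 1 / 2 := by linarith
        nlinarith [mul_nonneg ht (sub_nonneg.mpr ht2), mul_nonneg (mul_nonneg ht ht) (sub_nonneg.mpr ht2),
          mul_nonneg (mul_nonneg (mul_nonneg ht ht) ht) (sub_nonneg.mpr ht2),
          mul_nonneg (mul_nonneg (mul_nonneg (mul_nonneg ht ht) ht) ht) (sub_nonneg.mpr ht2)]
    · refine mono_c' hq ?_ (g_tan3 hq3 hg) (g_le hq hg) ?_
      · nlinarith
      · obtain ⟨t, rfl⟩ : ∃ t, q = 3 - t := ⟨3 - q, by ring⟩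
        have ht : 0 ≤ t := by linarith
        have ht2 : t ≤ 1 / 2 := by linarith
        nlinarith [mul_nonneg ht (sub_nonneg.mpr ht2), mul_nonneg (mul_nonneg ht ht) (sub_nonneg.mpr ht2),
          mul_nonneg (mul_nonneg (mul_nonneg ht ht) ht) (sub_nonneg.mpr ht2),
          mul_nonneg (mul_nonneg (mul_nonneg (mul_nonneg ht ht) ht) ht) (sub_nonneg.mpr ht2)]
  have hq1 : 0 < q + 1 := by linarith
  have e : psi3 q * (1 - g / 2) ^ 3 - 18 / 100 * (1 - (q + 2) * g / 2) =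
      (q * (q + 2) * (1 - g / 2) ^ 3 - 108 / 100 * (q + 1) ^ 2 * (1 - (q + 2) * g / 2)) /
        (6 * (q + 1) ^ 2) := by
    unfold psi3
    field_simp
    ring
  have : 0 ≤ psi3 q * (1 - g / 2) ^ 3 - 18 / 100 * (1 - (q + 2) * g / 2) := by
    rw [e]; positivity
  linarith

theorem scal_e {q g : ℝ} (hq : 2 ≤ q) (hq3 : q ≤ 3) (hg : g = (2 : ℝ) ^ (-q)) :
    825 / 1000 * (1 - (q + 2) * g / 2) + (0.0102 * (q + 1) - 0.02 * (1 - g / 2))
      < q * (1 - g / 2) / 4 := by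
  have h := g_tan2 hq hg
  have h2 : 0 ≤ (g - 1 / 4 * (1 - (q - 2) * 0.6932)) * (825 / 2000 * (q + 2) - q / 8 - 0.01) := by
    apply mul_nonneg (by linarith)
    linarith
  nlinarith [mul_nonneg (sub_nonneg.mpr hq) (sub_nonneg.mpr hq3)]

end Pool.Agent.RieszLin
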