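import Pool.Agent.RieszLin.Defs

set_option autoImplicit false

open Real Finset

namespace Pool.Agent.RieszLin

namespace ScalCAux

lemma g_pos {q g : ℝ} (hg : g = (2 : ℝ) ^ (-q)) : 0 < g := by
  rw [hg]; exact Real.rpow_pos_of_pos (by norm_num) _

lemma g_le {q g : ℝ} (hq : 3 ≤ q) (hg : g = (2 : ℝ) ^ (-q)) : g ≤ 1 / 8 := by
  have h : (2 : ℝ) ^ (-q) ≤ (2 : ℝ) ^ (-(3 : ℝ)) :=
    Real.rpow_le_rpow_of_exponent_le (by norm_num) (by linarith)
  have h2 : (2 : ℝ) ^ (-(3 : ℝ)) = 1 / 8 := by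
    rw [Real.rpow_neg (by norm_num)]
    norm_num
  rw [hg]
  rw [h2] at h
  exact h

/-- tangent line bound at an integer. -/
lemma g_tan {q g : ℝ} (n : ℕ) (hg : g = (2 : ℝ) ^ (-q)) :
    (1 / 2 ^ n) * (1 - (q - n) * Real.log 2) ≤ g := by
  have h1 : g = (1 / 2 ^ n) * Real.exp (-(q - n) * Real.log 2) := by
    have h2 : (2 : ℝ) ^ (-q) = (2 : ℝ) ^ (-(n : ℝ)) * (2 : ℝ) ^ (-(q - n)) := by
      rw [← Real.rpow_add (by norm_num)]
      congr 1; ring
    rw [hg, h2]
    congr 1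
    · rw [Real.rpow_neg (by norm_num), Real.rpow_natCast]
      simp
    · rw [Real.rpow_def_of_pos (by norm_num)]
      congr 1; ring
  rw [h1]
  have h3 := Real.add_one_le_exp (-(q - n) * Real.log 2)
  have h4 : (0 : ℝ) < 1 / 2 ^ n := by positivity
  refine mul_le_mul_of_nonneg_left ?_ h4.le
  linarith

end ScalCAux

open ScalCAux

/-- MODULE RL11. One-variable inequalities for `q ≥ 3`; `g = 2^(-q)`. Margins: (d) .028 (at 6.1),
(d') .0158 (at 11), (f) .072 at q = 3. For (d) on `[3, 5.25]` a lower bound of `g` is needed, e.g. the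
tangent line at `q = 4`: `g ≥ (1/16)(1 - (q-4) log 2)`; for `q ≥ 5.25`, `psi2 ≥ .42` and
`(1-g/2)² ≥ 1 - g ≥ 1 - (q+2) g/2`. -/
theorem scal_d {q g : ℝ} (hq : 3 ≤ q) (hg : g = (2 : ℝ) ^ (-q)) :
    42 / 100 * (1 - (q + 2) * g / 2) ≤ psi2 q * (1 - g / 2) ^ 2 := by
  have hg0 := g_pos hg
  have hq1 : 0 < q + 1 := by linarith
  have key : 0 ≤ 16 / 100 * q - 84 / 100 + g * (42 / 100 * q ^ 2 + 26 / 100 * q + 84 / 100)
      + q * g ^ 2 / 4 := by
    have hlast : 0 ≤ q * g ^ 2 / 4 := by positivity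
    have hpoly : 0 < 42 / 100 * q ^ 2 + 26 / 100 * q + 84 / 100 := by positivity
    rcases le_or_gt (525 / 100) q with h | h
    · have : 0 ≤ g * (42 / 100 * q ^ 2 + 26 / 100 * q + 84 / 100) := by positivity
      linarith
    · have ht := g_tan (q := q) (g := g) 4 hg
      have hl1 := Real.log_two_gt_d9
      have hl2 := Real.log_two_lt_d9
      have hlow : (1 / 16) * (1 - (q - 4) * Real.log 2)
          * (42 / 100 * q ^ 2 + 26 / 100 * q + 84 / 100)
          ≤ g * (42 / 100 * q ^ 2 + 26 / 100 * q + 84 / 100) := by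
        refine mul_le_mul_of_nonneg_right ?_ hpoly.le
        norm_num at ht
        linarith
      rcases le_or_gt q 4 with h4 | h4
      · have hL : (1 / 16) * (1 - (q - 4) * (693 / 1000))
          ≤ (1 / 16) * (1 - (q - 4) * Real.log 2) := by nlinarith
        have h5 := mul_le_mul_of_nonneg_right hL hpoly.le
        have h6 : 0 ≤ 16 / 100 * q - 84 / 100 + (1 / 16) * (1 - (q - 4) * (693 / 1000))
            * (42 / 100 * q ^ 2 + 26 / 100 * q + 84 / 100) := by
          nlinarith [mul_nonneg (sub_nonneg.2 hq) (sub_nonneg.2 h4),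
            mul_nonneg (mul_nonneg (sub_nonneg.2 hq) (sub_nonneg.2 h4)) (by linarith : (0:ℝ) ≤ q)]
        linarith
      · have hL : (1 / 16) * (1 - (q - 4) * (694 / 1000))
          ≤ (1 / 16) * (1 - (q - 4) * Real.log 2) := by nlinarith
        have h5 := mul_le_mul_of_nonneg_right hL hpoly.le
        have h6 : 0 ≤ 16 / 100 * q - 84 / 100 + (1 / 16) * (1 - (q - 4) * (694 / 1000))
            * (42 / 100 * q ^ 2 + 26 / 100 * q + 84 / 100) := by
          nlinarith [mul_nonneg (sub_nonneg.2 h4.le) (sub_nonneg.2 h.le),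
            mul_nonneg (mul_nonneg (sub_nonneg.2 h4.le) (sub_nonneg.2 h.le)) (by linarith : (0:ℝ) ≤ q)]
        linarith
  have e : psi2 q * (1 - g / 2) ^ 2 - 42 / 100 * (1 - (q + 2) * g / 2)
      = (16 / 100 * q - 84 / 100 + g * (42 / 100 * q ^ 2 + 26 / 100 * q + 84 / 100)
      + q * g ^ 2 / 4) / (2 * (q + 1)) := by
    unfold psi2
    field_simp
    ring
  have h7 : 0 ≤ psi2 q * (1 - g / 2) ^ 2 - 42 / 100 * (1 - (q + 2) * g / 2) := by
    rw [e]; exact div_nonneg key (by positivity)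
  linarith

theorem scal_d' {q g : ℝ} (hq : 3 ≤ q) (hg : g = (2 : ℝ) ^ (-q)) :
    15 / 100 * (1 - (q + 2) * g / 2) ≤ psi3 q * (1 - g / 2) ^ 3 := by
  have hg0 := g_pos hg
  have hg1 := g_le hq hg
  have hq1 : 0 < q + 1 := by linarith
  have hb : 1 - 3 * g / 2 ≤ (1 - g / 2) ^ 3 := by nlinarith [sq_nonneg g]
  have hpsi : psi3 q = q * (q + 2) / (6 * (q + 1) ^ 2) := by
    unfold psi3
    field_simp
    ring
  have hpsi0 : 0 ≤ psi3 q := by rw [hpsi]; positivity
  have h1 : psi3 q * (1 - 3 * g / 2) ≤ psi3 q * (1 - g / 2) ^ 3 :=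
    mul_le_mul_of_nonneg_left hb hpsi0
  refine le_trans ?_ h1
  have e : psi3 q * (1 - 3 * g / 2) - 15 / 100 * (1 - (q + 2) * g / 2)
      = (1 / 10 * (q ^ 2 + 2 * q) - 9 / 10
        + g * ((q + 2) * (45 / 100 * q ^ 2 - 6 / 10 * q + 45 / 100))) / (6 * (q + 1) ^ 2) := by
    rw [hpsi]
    field_simp
    ring
  have h2 : 0 ≤ 1 / 10 * (q ^ 2 + 2 * q) - 9 / 10
        + g * ((q + 2) * (45 / 100 * q ^ 2 - 6 / 10 * q + 45 / 100)) := by
    have h3 : 0 ≤ 45 / 100 * q ^ 2 - 6 / 10 * q + 45 / 100 := by nlinarith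
    have h4 : 0 ≤ g * ((q + 2) * (45 / 100 * q ^ 2 - 6 / 10 * q + 45 / 100)) := by positivity
    nlinarith
  have h5 : 0 ≤ psi3 q * (1 - 3 * g / 2) - 15 / 100 * (1 - (q + 2) * g / 2) := by
    rw [e]; exact div_nonneg h2 (by positivity)
  linarith

theorem scal_f {q g : ℝ} (hq : 3 ≤ q) (hg : g = (2 : ℝ) ^ (-q)) :
    885 / 1000 * (1 - (q + 2) * g / 2) + (0.0102 * (q + 1) - 0.02 * (1 - g / 2))
      < q * (1 - g / 2) / 4 := by
  have hg0 := g_pos hg
  have key : 0 < 0.2398 * q - 0.8752 + g * (0.3175 * q + 0.875) := by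
    rcases le_or_gt (365 / 100) q with h | h
    · have : 0 < g * (0.3175 * q + 0.875) := by positivity
      nlinarith
    · have ht := g_tan (q := q) (g := g) 3 hg
      have hl1 := Real.log_two_gt_d9
      have hl2 := Real.log_two_lt_d9
      norm_num at ht
      have hL : (1 / 8) * (1 - (q - 3) * (694 / 1000)) ≤ g := by nlinarith
      have hp : (0 : ℝ) ≤ 0.3175 * q + 0.875 := by positivity
      have h5 := mul_le_mul_of_nonneg_right hL hp
      nlinarith
  nlinarith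
end Pool.Agent.RieszLin
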