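import Pool.Agent.RieszLin.PsiBd
import Pool.Agent.RieszLin.Poly
import Pool.Agent.RieszLin.ScalA
import Pool.Agent.RieszLin.ScalB
import Pool.Agent.RieszLin.ScalC
import Pool.Agent.RieszLin.Block

set_option autoImplicit false

open Real Finset

namespace Pool.Agent.RieszLin

namespace GlobScalAux

/-- the left side in the variable `X = 9/4 x` -/
lemma lhs_eq (c2 c3 F x : ℝ) :
    c2 * (9 / 4) ^ 2 * (1 - x) + c3 * (9 / 4) ^ 3 * (x - x ^ 2)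
        + (F - c2 - c3) * (9 / 4) ^ 4 * (x ^ 2 - x ^ 3)
      = 9 / 4 * (9 / 4 - 9 / 4 * x) * (F * (9 / 4 * x) ^ 2 + c2 * (1 - (9 / 4 * x) ^ 2)
          + c3 * ((9 / 4 * x) * (1 - 9 / 4 * x))) := by
  ring

lemma low {c2 c3 F X : ℝ} (hF : 0 ≤ F) (h2 : c2 ≤ 53 / 100 * F) (h3 : c3 ≤ 21 / 100 * F)
    (h0 : 0 ≤ X) (h1 : X ≤ 1) :
    9 / 4 * (9 / 4 - X) * (F * X ^ 2 + c2 * (1 - X ^ 2) + c3 * (X * (1 - X)))
      ≤ 2825 / 1000 * F := by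
  have hp := poly_one h0 h1
  have ha : c2 * (1 - X ^ 2) ≤ 53 / 100 * F * (1 - X ^ 2) :=
    mul_le_mul_of_nonneg_right h2 (by nlinarith)
  have hb : c3 * (X * (1 - X)) ≤ 21 / 100 * F * (X * (1 - X)) :=
    mul_le_mul_of_nonneg_right h3 (mul_nonneg h0 (by linarith))
  have hc : 9 / 4 * (9 / 4 - X) * (F * X ^ 2 + c2 * (1 - X ^ 2) + c3 * (X * (1 - X)))
      ≤ 9 / 4 * (9 / 4 - X) * (F * X ^ 2 + 53 / 100 * F * (1 - X ^ 2)
          + 21 / 100 * F * (X * (1 - X))) :=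
    mul_le_mul_of_nonneg_left (by linarith) (by nlinarith)
  have hd := mul_le_mul_of_nonneg_right hp hF
  refine hc.trans (le_trans (le_of_eq ?_) hd)
  ring

lemma high {c2 c3 F X a b B : ℝ} (hF : 0 ≤ F) (h2 : a * F ≤ c2) (h3 : b * F ≤ c3)
    (h0 : 1 ≤ X) (h1 : X ≤ 9 / 4)
    (hp : 9 / 4 * (9 / 4 - X) * (X ^ 2 + a * (1 - X ^ 2) + b * (X * (1 - X))) ≤ B) :
    9 / 4 * (9 / 4 - X) * (F * X ^ 2 + c2 * (1 - X ^ 2) + c3 * (X * (1 - X)))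
      ≤ B * F := by
  have ha : c2 * (1 - X ^ 2) ≤ a * F * (1 - X ^ 2) :=
    mul_le_mul_of_nonpos_right h2 (by nlinarith)
  have hb : c3 * (X * (1 - X)) ≤ b * F * (X * (1 - X)) :=
    mul_le_mul_of_nonpos_right h3 (mul_nonpos_of_nonneg_of_nonpos (by linarith) (by linarith))
  have hc : 9 / 4 * (9 / 4 - X) * (F * X ^ 2 + c2 * (1 - X ^ 2) + c3 * (X * (1 - X)))
      ≤ 9 / 4 * (9 / 4 - X) * (F * X ^ 2 + a * F * (1 - X ^ 2)
          + b * F * (X * (1 - X))) :=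
    mul_le_mul_of_nonneg_left (by linarith) (by nlinarith)
  have hd := mul_le_mul_of_nonneg_right hp hF
  refine hc.trans (le_trans (le_of_eq ?_) hd)
  ring

/-- the error term -/
lemma err {q m Y : ℝ} (hq : 2 ≤ q) (hm : 200 * q ≤ m) (hY0 : 3 / 4 ≤ Y) (hY1 : Y < 1) :
    2 * q / (m - 1) * (1.0102 * (q + 1) - 2 * Y) ≤ 0.0102 * (q + 1) - 0.02 * Y := by
  have hm1 : 0 < m - 1 := by linarith
  have h1 : 2 * q / (m - 1) ≤ 4 / 399 := by
    rw [div_le_div_iff₀ hm1 (by norm_num)]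
    nlinarith
  have h2 : 0 ≤ 1.0102 * (q + 1) - 2 * Y := by nlinarith
  have h3 := mul_le_mul_of_nonneg_right h1 h2
  refine h3.trans ?_
  nlinarith

end GlobScalAux

open GlobScalAux in
/-- MODULE RL13. The scalar form of the global inequality, `z = 9/4`, `X = z x`,
`c2 = psi2 Y²`, `c3 = psi3 Y³`, `F = Ψ(Y)`.
The left side below is `z (z-X) (F X² + c2 (1-X²) + c3 X (1-X))`. For `X ≤ 1` use
`c2 ≤ .53 F`, `c3 ≤ .21 F` (`scal_a/b`) and `poly_one`; for `X ≥ 1` use the lower bounds and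
`poly_two` (`q ≤ 3`) or `poly_three`. Then it is `≤ 2.825 F` or `≤ 2.885 F`, and `scal_e/f`.
`F = Ψ(YY q) = 1 - (q+2) g/2 > 0`, `YY q = 1 - g/2`. `2/(m-1)*...` : for `m ≥ 200 q`,
`2q/(m-1) (1.0102 (q+1) - 2Y) ≤ 0.0102 (q+1) - 0.02 Y`. -/
theorem glob_scal {q m x : ℝ} (hq : 2 ≤ q) (hm : 200 * q ≤ m) (hx0 : 0 ≤ x) (hx1 : x ≤ 1) :
    psi2 q * YY q ^ 2 * (9 / 4) ^ 2 * (1 - x) + psi3 q * YY q ^ 3 * (9 / 4) ^ 3 * (x - x ^ 2)
        + (Psi q (YY q) - psi2 q * YY q ^ 2 - psi3 q * YY q ^ 3) * (9 / 4) ^ 4 * (x ^ 2 - x ^ 3)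
      < q * YY q * (9 / 4) - (2 * (q + 1) - 4 * YY q
          + 2 * q / (m - 1) * (1.0102 * (q + 1) - 2 * YY q)) := by
  have hY := YY_eq q
  obtain ⟨hYl, hYu⟩ := YY_bounds (q := q) (by linarith)
  have hP := Psi_YY (q := q) (by linarith)
  have herr := err hq hm hYl hYu
  rw [lhs_eq]
  have ha := scal_a hq (rfl : (2 : ℝ) ^ (-q) = (2 : ℝ) ^ (-q))
  have hb := scal_b hq (rfl : (2 : ℝ) ^ (-q) = (2 : ℝ) ^ (-q))
  rw [← hY, ← hP] at ha hb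
  have hτ : 0 < psi2 q := by
    unfold psi2
    have : 0 < q / (q + 1) := div_pos (by linarith) (by linarith)
    linarith
  have hc2 : 0 < psi2 q * YY q ^ 2 := mul_pos hτ (by positivity)
  have hF : 0 < Psi q (YY q) := by linarith
  have hXle : 9 / 4 * x ≤ 9 / 4 := by linarith
  have hX0 : 0 ≤ 9 / 4 * x := by linarith
  have hid : q * YY q * (9 / 4) - (2 * (q + 1) - 4 * YY q)
      = q * YY q / 4 + 2 * Psi q (YY q) := by
    rw [hP, hY]; ring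
  rcases le_total q 3 with hq3 | hq3
  · have hc := scal_c hq hq3 (rfl : (2 : ℝ) ^ (-q) = (2 : ℝ) ^ (-q))
    have hc' := scal_c' hq hq3 (rfl : (2 : ℝ) ^ (-q) = (2 : ℝ) ^ (-q))
    have he := scal_e hq hq3 (rfl : (2 : ℝ) ^ (-q) = (2 : ℝ) ^ (-q))
    rw [← hY, ← hP] at hc hc' he
    have key : 9 / 4 * (9 / 4 - 9 / 4 * x) * (Psi q (YY q) * (9 / 4 * x) ^ 2
        + psi2 q * YY q ^ 2 * (1 - (9 / 4 * x) ^ 2)
          + psi3 q * YY q ^ 3 * ((9 / 4 * x) * (1 - 9 / 4 * x))) ≤ 2825 / 1000 * Psi q (YY q) := by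
      rcases le_total (9 / 4 * x) 1 with h | h
      · exact low hF.le ha hb hX0 h
      · exact high hF.le hc hc' h hXle (poly_two h hXle)
    linarith
  · have hc := scal_d hq3 (rfl : (2 : ℝ) ^ (-q) = (2 : ℝ) ^ (-q))
    have hc' := scal_d' hq3 (rfl : (2 : ℝ) ^ (-q) = (2 : ℝ) ^ (-q))
    have he := scal_f hq3 (rfl : (2 : ℝ) ^ (-q) = (2 : ℝ) ^ (-q))
    rw [← hY, ← hP] at hc hc' he
    have key : 9 / 4 * (9 / 4 - 9 / 4 * x) * (Psi q (YY q) * (9 / 4 * x) ^ 2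
        + psi2 q * YY q ^ 2 * (1 - (9 / 4 * x) ^ 2)
          + psi3 q * YY q ^ 3 * ((9 / 4 * x) * (1 - 9 / 4 * x))) ≤ 2885 / 1000 * Psi q (YY q) := by
      rcases le_total (9 / 4 * x) 1 with h | h
      · refine (low hF.le ha hb hX0 h).trans ?_
        linarith
      · exact high hF.le hc hc' h hXle (poly_three h hXle)
    linarith

end Pool.Agent.RieszLin
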