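import Pool.Agent.RieszLin.Defs

set_option autoImplicit false

open Real Finset

namespace Pool.Agent.RieszLin

namespace J0Aux

/-- `(1+t)^q ≤ 1 + q t (1+t)^(q-1)`. -/
lemma rpow_le {q t : ℝ} (hq : 1 ≤ q) (ht : 0 ≤ t) :
    (1 + t) ^ q ≤ 1 + q * t * (1 + t) ^ (q - 1) := by
  have h1t : 0 < 1 + t := by linarith
  have h1 : 1 + q * (-(t / (1 + t))) ≤ (1 + -(t / (1 + t))) ^ q := by
    apply one_add_mul_self_le_rpow_one_add _ hq
    have : t / (1 + t) ≤ 1 := by rw [div_le_one h1t]; linarith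
    linarith
  have h2 : 1 + -(t / (1 + t)) = (1 + t)⁻¹ := by field_simp; ring
  rw [h2, Real.inv_rpow h1t.le] at h1
  have h3 : 0 < (1 + t) ^ q := Real.rpow_pos_of_pos h1t q
  have h4 : (1 + q * (-(t / (1 + t)))) * (1 + t) ^ q ≤ 1 := by
    have := mul_le_mul_of_nonneg_right h1 h3.le
    rwa [inv_mul_cancel₀ h3.ne'] at this
  have h5 : (1 + t) ^ (q - 1) = (1 + t) ^ q / (1 + t) := by
    rw [Real.rpow_sub h1t, Real.rpow_one]
  rw [h5]
  have h6 : q * t * ((1 + t) ^ q / (1 + t)) = q * (t / (1 + t)) * (1 + t) ^ q := by ring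
  rw [h6]
  nlinarith [h4]

/-- second order Taylor bound of `(1+u)^(q+1)`. -/
lemma taylor {q u : ℝ} (hq : 1 ≤ q) (hu : 0 ≤ u) :
    (1 + u) ^ (q + 1) ≤ 1 + (q + 1) * u + (q + 1) * q / 2 * (1 + u) ^ (q - 1) * u ^ 2 := by
  set E := (1 + u) ^ (q - 1) with hE
  let f : ℝ → ℝ := fun t => 1 + (q + 1) * t + (q + 1) * q / 2 * E * t ^ 2 - (1 + t) ^ (q + 1)
  have hder : ∀ t, 0 ≤ t → HasDerivAt f ((q + 1) + (q + 1) * q * E * t - (q + 1) * (1 + t) ^ q) t := by
    intro t ht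
    have h1t : 1 + t ≠ 0 := by linarith
    have h1 : HasDerivAt (fun t : ℝ => (1 + t) ^ (q + 1)) ((q + 1) * (1 + t) ^ q) t := by
      have h2 : HasDerivAt (fun t : ℝ => 1 + t) 1 t := (hasDerivAt_id t).const_add 1
      have h3 := h2.rpow_const (p := q + 1) (Or.inl h1t)
      exact h3.congr_deriv (by rw [add_sub_cancel_right]; ring)
    have h4 : HasDerivAt (fun t : ℝ => 1 + (q + 1) * t + (q + 1) * q / 2 * E * t ^ 2)
        ((q + 1) + (q + 1) * q * E * t) t := by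
      have h5 : HasDerivAt (fun t : ℝ => (q + 1) * t) (q + 1) t := by
        simpa using (hasDerivAt_id t).const_mul (q + 1)
      have h6 : HasDerivAt (fun t : ℝ => (q + 1) * q / 2 * E * t ^ 2)
          ((q + 1) * q / 2 * E * (2 * t)) t := by
        have := (hasDerivAt_pow 2 t).const_mul ((q + 1) * q / 2 * E)
        simpa using this
      have h7 := (h5.const_add 1).add h6
      exact h7.congr_deriv (by ring)
    exact h4.sub h1
  have hmono : MonotoneOn f (Set.Icc 0 u) := by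
    apply monotoneOn_of_deriv_nonneg (convex_Icc 0 u)
    · exact fun t ht => (hder t ht.1).continuousAt.continuousWithinAt
    · intro t ht
      rw [interior_Icc] at ht
      exact (hder t ht.1.le).differentiableAt.differentiableWithinAt
    · intro t ht
      rw [interior_Icc] at ht
      rw [(hder t ht.1.le).deriv]
      have h1 := rpow_le hq ht.1.le
      have h2 : (1 + t) ^ (q - 1) ≤ E := by
        rw [hE]
        exact Real.rpow_le_rpow (by linarith [ht.1]) (by linarith [ht.2]) (by linarith)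
      have h3 : q * t * (1 + t) ^ (q - 1) ≤ q * t * E :=
        mul_le_mul_of_nonneg_left h2 (mul_nonneg (by linarith) ht.1.le)
      have h4 : (1 + t) ^ q ≤ 1 + q * t * E := by linarith
      have h5 : (q + 1) * (1 + t) ^ q ≤ (q + 1) * (1 + q * t * E) :=
        mul_le_mul_of_nonneg_left h4 (by linarith)
      nlinarith [h5]
  have h0 : f 0 = 0 := by
    simp only [f]
    rw [add_zero, Real.one_rpow]
    ring
  have h1 := hmono (Set.left_mem_Icc.2 hu) (Set.right_mem_Icc.2 hu) hu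
  rw [h0] at h1
  have h2 : f u = 1 + (q + 1) * u + (q + 1) * q / 2 * E * u ^ 2 - (1 + u) ^ (q + 1) := rfl
  rw [h2] at h1
  linarith

/-- the numerical bound of the remainder factor. -/
lemma cbound {q m : ℝ} (hq : 1 ≤ q) (hm : 200 * q ≤ m) :
    (1 + 1 / (m - 1)) ^ (q - 1) * (1 + 1 / m) ≤ 1.0102 := by
  have hm1 : 0 < m - 1 := by linarith
  have hm0 : 0 < m := by linarith
  have h1 : (1 + 1 / (m - 1)) ^ (q - 1) ≤ Real.exp (1 / (m - 1) * (q - 1)) := by
    rw [Real.exp_mul]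
    apply Real.rpow_le_rpow (by positivity) _ (by linarith)
    have := Real.add_one_le_exp (1 / (m - 1))
    linarith
  have h2 : 1 / (m - 1) * (q - 1) ≤ 1 / 200 := by
    rw [one_div, inv_mul_le_iff₀ hm1]
    linarith
  have h3 : Real.exp (1 / 200) ≤ 1.0051 := by
    have h4 := Real.exp_bound' (x := 1 / 200) (by norm_num) (by norm_num) (n := 2) (by norm_num)
    refine h4.trans ?_
    simp only [Finset.sum_range_succ, Finset.sum_range_zero, Nat.factorial]
    norm_num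
  have h5 : (1 + 1 / (m - 1)) ^ (q - 1) ≤ 1.0051 :=
    h1.trans ((Real.exp_le_exp.2 h2).trans h3)
  have h6 : 1 + 1 / m ≤ 1.005 := by
    have : 1 / m ≤ 1 / 200 := one_div_le_one_div_of_le (by norm_num) (by linarith)
    linarith
  have h7 : 0 ≤ (1 + 1 / (m - 1)) ^ (q - 1) := Real.rpow_nonneg (by positivity) _
  calc (1 + 1 / (m - 1)) ^ (q - 1) * (1 + 1 / m)
      ≤ 1.0051 * 1.005 := mul_le_mul h5 h6 (by positivity) (by norm_num)
    _ ≤ 1.0102 := by norm_num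

lemma YY_nonneg {q : ℝ} (hq : 1 ≤ q) : 0 ≤ YY q := by
  unfold YY
  have h1 : (2 : ℝ) ^ (-(q + 1)) ≤ 1 := Real.rpow_le_one_of_one_le_of_nonpos (by norm_num) (by linarith)
  linarith

lemma YY_le_one {q : ℝ} : YY q ≤ 1 := by
  unfold YY
  have h1 : (0 : ℝ) < 2 ^ (-(q + 1)) := Real.rpow_pos_of_pos (by norm_num) _
  linarith

end J0Aux

/-- MODULE RL7. Upper bound for `p N² κ^(1/p)`.
Proof. `p = q+1`, `N = m+2`, `λ = 1-1/m`, `u = 1/(m-1)`, so `λ⁻¹ = 1+u`, `λ u = 1/m`, and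
`κ = λ^p (m/N)² + (4m+4-4Y)/N² = λ^p (1+ξ)` with `1 + ξ = (m² + λ^(-p)(4m+4-4Y))/N² > 0`.
`κ^(1/p) = λ (1+ξ)^(1/p) ≤ λ (1 + ξ/p)` (Bernoulli, `rpow_one_add_le_one_add_mul_self`), so
`p N² κ^(1/p) ≤ p N² λ + λ N² ξ`, `N² ξ = (λ^(-p) - 1)(4m+4) - 4Y λ^(-p)`,
`p N² λ = p N² - p N²/m`, `p N²/m = p N + 2p + 4p/m`.
`λ^(-p) = (1+u)^p ≤ 1 + p u + (p q/2) u² c` with `c = exp((q-1)u)` [Taylor; e.g. the function
`f(u) = 1 + p u + (pq/2) u² e^{(q-1)u} - (1+u)^p` or use `(1+u)^p = 1 + p ∫(1+t)^q`], and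
`λ^(-q) = (1+u)^q ≥ 1 + q u`.  Hence the error is at most
`2 q u [p c (1+1/m) - 2Y]` and `c (1+1/m) ≤ exp((q-1)/(200q-1)) (1+1/200q) ≤ 1.0102`. -/
theorem J0_bound {q m : ℝ} (hq : 1 ≤ q) (hm : 200 * q ≤ m) :
    (q + 1) * (m + 2) ^ 2 * kap q m ^ (1 / (q + 1))
      ≤ (q + 1) * (m + 2) ^ 2 - (q + 1) * (m + 2) + 2 * (q + 1) - 4 * YY q
        + 2 * q / (m - 1) * (1.0102 * (q + 1) - 2 * YY q) := by
  have hm0 : 0 < m := by linarith
  have hm1 : 0 < m - 1 := by linarith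
  have hp : 0 < q + 1 := by linarith
  set u : ℝ := 1 / (m - 1) with hu
  have hu0 : 0 < u := by rw [hu]; positivity
  set l : ℝ := 1 - 1 / m with hl
  have hl' : l = (m - 1) / m := by rw [hl]; field_simp
  have hl0 : 0 < l := by rw [hl']; positivity
  have hlu : l * (1 + u) = 1 := by rw [hl', hu]; field_simp; ring
  have hlu' : l * u = 1 / m := by rw [hl', hu]; field_simp
  have hinv : 1 + u = l⁻¹ := by
    rw [eq_comm, inv_eq_of_mul_eq_one_right]
    exact hlu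
  set P : ℝ := (1 + u) ^ (q + 1) with hP
  have h1u : 0 < 1 + u := by linarith
  have hP0 : 0 < P := Real.rpow_pos_of_pos h1u _
  have hlP : l ^ (q + 1) * P = 1 := by
    rw [hP, hinv, Real.inv_rpow hl0.le, mul_inv_cancel₀ (Real.rpow_pos_of_pos hl0 _).ne']
  have hY0 := J0Aux.YY_nonneg hq
  have hY1 := J0Aux.YY_le_one (q := q)
  set Y : ℝ := YY q with hY
  have hN : 0 < (m + 2) ^ 2 := by positivity
  set ξ : ℝ := ((P - 1) * (4 * m + 4) - 4 * Y * P) / (m + 2) ^ 2 with hξ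
  have hξN : (m + 2) ^ 2 * ξ = (P - 1) * (4 * m + 4) - 4 * Y * P := by
    rw [hξ]; field_simp
  have h1ξ : (m + 2) ^ 2 * (1 + ξ) = m ^ 2 + P * (4 * m + 4 - 4 * Y) := by
    rw [mul_add, hξN]; ring
  have hξ1 : 0 ≤ 1 + ξ := by
    have h2 : 0 ≤ (m + 2) ^ 2 * (1 + ξ) := by
      rw [h1ξ]
      have : 0 ≤ P * (4 * m + 4 - 4 * Y) := mul_nonneg hP0.le (by linarith)
      positivity
    exact nonneg_of_mul_nonneg_right h2 hN
  have hkap : kap q m = l ^ (q + 1) * (1 + ξ) := by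
    unfold kap TT y0
    rw [div_eq_iff hN.ne', mul_assoc, mul_comm (1 + ξ), h1ξ, mul_add, ← mul_assoc (l ^ (q + 1)) P,
      hlP]
    ring
  have hroot : kap q m ^ (1 / (q + 1)) ≤ l * (1 + 1 / (q + 1) * ξ) := by
    rw [hkap, Real.mul_rpow (Real.rpow_nonneg hl0.le _) hξ1, ← Real.rpow_mul hl0.le,
      mul_one_div_cancel hp.ne', Real.rpow_one]
    refine mul_le_mul_of_nonneg_left ?_ hl0.le
    exact rpow_one_add_le_one_add_mul_self (by linarith) (by positivity)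
      (by rw [div_le_one hp]; linarith)
  have h3 : (q + 1) * (m + 2) ^ 2 * kap q m ^ (1 / (q + 1))
      ≤ l * ((q + 1) * (m + 2) ^ 2) + l * ((P - 1) * (4 * m + 4) - 4 * Y * P) := by
    have h4 := mul_le_mul_of_nonneg_left hroot (by positivity : 0 ≤ (q + 1) * (m + 2) ^ 2)
    refine h4.trans (le_of_eq ?_)
    rw [← hξN]
    field_simp
  have h5 : l * ((q + 1) * (m + 2) ^ 2)
      = (q + 1) * (m + 2) ^ 2 - (q + 1) * (m + 2) - 2 * (q + 1) - 4 * (q + 1) * (1 / m) := by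
    rw [hl]; field_simp; ring
  have hT := J0Aux.taylor hq hu0.le
  set E : ℝ := (1 + u) ^ (q - 1) with hE
  have h6 : l * ((P - 1) * (4 * m + 4))
      ≤ (4 + 4 * (1 / m)) * ((q + 1) + (q + 1) * q / 2 * E * u) := by
    have h7 : P - 1 ≤ (q + 1) * u + (q + 1) * q / 2 * E * u ^ 2 := by linarith
    have h8 : l * ((P - 1) * (4 * m + 4))
        ≤ l * (((q + 1) * u + (q + 1) * q / 2 * E * u ^ 2) * (4 * m + 4)) :=
      mul_le_mul_of_nonneg_left (mul_le_mul_of_nonneg_right h7 (by positivity)) hl0.le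
    refine h8.trans (le_of_eq ?_)
    have h9 : l * (((q + 1) * u + (q + 1) * q / 2 * E * u ^ 2) * (4 * m + 4))
        = (l * u) * (((q + 1) + (q + 1) * q / 2 * E * u) * (4 * m + 4)) := by ring
    rw [h9, hlu']
    field_simp
  have h10 : 1 + q * u ≤ l * P := by
    have h11 : l * P = (1 + u) ^ q := by
      rw [hP, Real.rpow_add_one h1u.ne']
      calc l * ((1 + u) ^ q * (1 + u)) = (l * (1 + u)) * (1 + u) ^ q := by ring
        _ = (1 + u) ^ q := by rw [hlu, one_mul]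
    rw [h11]
    exact one_add_mul_self_le_rpow_one_add (by linarith) hq
  have hc : E * (1 + 1 / m) ≤ 1.0102 := J0Aux.cbound hq hm
  have h12 : 4 * Y * (1 + q * u) ≤ 4 * Y * (l * P) :=
    mul_le_mul_of_nonneg_left h10 (by linarith)
  have h13 : 2 * (q + 1) * q * u * (E * (1 + 1 / m)) ≤ 2 * (q + 1) * q * u * 1.0102 :=
    mul_le_mul_of_nonneg_left hc (by positivity)
  have h14 : 2 * q / (m - 1) = 2 * q * u := by rw [hu]; ring
  rw [h14]
  rw [h5] at h3
  nlinarith [h3, h6, h12, h13]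

end Pool.Agent.RieszLin
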