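import Pool.Agent.RieszLin.PsiSum
import Pool.Agent.RieszLin.J0
import Pool.Agent.RieszLin.GlobScal
import Pool.Agent.RieszLin.GlobRed

set_option autoImplicit false

open Real Finset

namespace Pool.Agent.RieszLin

section

variable {ι : Type*} [Fintype ι] [DecidableEq ι] {a : ι → ℝ}

/-- MODULE RL15. The global part (all products at most `4/9`): combine `Psi_sum` with `z = 9/4`,
`t = YY q * (9/4)`, `J0_bound`, `glob_scal`, `glob_red`. -/
theorem glob_main {q m : ℝ} (hq : 2 ≤ q) (hm : 200 * q ≤ m) (hcard : (Fintype.card ι : ℝ) = m + 2)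
    (h0 : ∑ i, a i = 0) (h2 : ∑ i, a i ^ 2 = 1) (hP : ∀ i j, i ≠ j → a i * a j ≤ 4 / 9) :
    ∃ A B : ℝ, (∀ i j, i ≠ j → 0 < Kf (kap q m) A B a i j) ∧
    TT q m < (q + 1) * offsum (fun i j => Kf (kap q m) A B a i j ^ (q / (q + 1)))
      - q * kap q m * (m + 2) ^ 2 := by
  have hY0 : 0 ≤ YY q := by
    unfold YY
    have h1 : (2 : ℝ) ^ (-(q + 1)) ≤ 1 :=
      Real.rpow_le_one_of_one_le_of_nonpos (by norm_num) (by linarith)
    linarith
  have hY1 : YY q < 1 := by
    unfold YY
    have h1 : (0 : ℝ) < 2 ^ (-(q + 1)) := Real.rpow_pos_of_pos (by norm_num) _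
    linarith
  have hx0 : 0 ≤ ∑ i, a i ^ 4 := Finset.sum_nonneg fun i _ => by positivity
  have hx1 : ∑ i, a i ^ 4 ≤ 1 := by
    rw [← h2]
    refine Finset.sum_le_sum fun i _ => ?_
    have h3 : a i ^ 2 ≤ 1 := by
      rw [← h2]
      exact Finset.single_le_sum (f := fun i => a i ^ 2) (fun j _ => sq_nonneg (a j))
        (Finset.mem_univ i)
    nlinarith [sq_nonneg (a i)]
  have h3 := Psi_sum (a := a) (q := q) (z := 9 / 4) (by linarith) (by norm_num) h2
    (fun i j hij => by
      have := hP i j hij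
      linarith)
  have h4 := glob_scal hq hm hx0 hx1
  have h5 := J0_bound (q := q) (m := m) (by linarith) hm
  refine ⟨0, kap q m * (YY q * (9 / 4)), ?_⟩
  refine glob_red (t := YY q * (9 / 4)) (by linarith) (by linarith) hcard h0 h2 ?_ ?_
  · intro i j hij
    have h6 := hP i j hij
    have h7 : YY q * (9 / 4) * (a i * a j) ≤ YY q := by
      have h8 : YY q * (9 / 4 * (a i * a j)) ≤ YY q * 1 :=
        mul_le_mul_of_nonneg_left (by linarith) hY0
      linarith
    linarith
  · linarith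

end

end Pool.Agent.RieszLin
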