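import Pool.Agent.RieszLin.Block

set_option autoImplicit false

open Real Finset

namespace Pool.Agent.RieszLin

namespace LocCostAux

lemma YY_ge {q : ℝ} (hq : 2 ≤ q) : 0.875 ≤ YY q ∧ YY q < 1 := by
  have h1 : (2 : ℝ) ^ (-(q + 1)) ≤ (2 : ℝ) ^ (-(3 : ℝ)) :=
    Real.rpow_le_rpow_of_exponent_le (by norm_num) (by linarith)
  have h2 : (2 : ℝ) ^ (-(3 : ℝ)) = 1 / 8 := by
    rw [Real.rpow_neg (by norm_num)]
    have : (2 : ℝ) ^ (3 : ℝ) = 8 := by
      rw [show (3 : ℝ) = ((3 : ℕ) : ℝ) by norm_num, Real.rpow_natCast]; norm_num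
    rw [this]; norm_num
  have h3 : (0 : ℝ) < (2 : ℝ) ^ (-(q + 1)) := Real.rpow_pos_of_pos (by norm_num) _
  unfold YY
  constructor
  · rw [h2] at h1; norm_num at h1 ⊢; linarith
  · linarith

/-- the algebraic core, with `D = |C|`, `K = m C²`, `W = s²/m`, `T = Δ²`, `r = √e`. -/
lemma core {q B e T W P Y D K c c' N : ℝ} (hq : 2 ≤ q) (he : 0 ≤ e) (hT : 0 ≤ T)
    (hW : 0 ≤ W) (hW' : W ≤ 0.005) (hP : 4 / 9 ≤ P) (h2P : 2 * P = 1 - (e + T) - W)
    (hB1 : 1.71 ≤ B) (hB2 : B ≤ 2.29) (hBP : B * P ≤ Y + 0.0174)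
    (hD0 : 0 ≤ D) (hD : D ≤ 0.0123) (hK0 : 0 ≤ K) (hK : K ≤ 0.013448 * q + 0.03362)
    (hN0 : 0 ≤ N) (hN : N ≤ 1 / 400) (hc : 0 ≤ c) (hc' : 0 ≤ c')
    (hscal : 4.1 * c * (Y + 0.0174) + c * (0.021 + 0.008 * q)
      + 1.02 * c' * (0.33 + 0.017 * q) < q)
    (hpos : 0 < e + T) :
    2 * (c * (B ^ 2 * (1 - e + 0.0051) * e + (B ^ 2 * T ^ 2 * N / 8 + K * T / 2)))
      + 1.02 * (c' * (2 * K * e + B ^ 2 * e ^ 2 + 4 * D * B * (e * √e)))
      < q * B * (T + e) := by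
  set S : ℝ := e + T with hS
  have hS9 : S ≤ 1 / 9 := by linarith
  have heS : e ≤ S := by linarith
  have hTS : T ≤ S := by linarith
  have he9 : e ≤ 1 / 9 := by linarith
  have hB0 : 0 < B := by linarith
  have hBS : 0 < B * S := mul_pos hB0 hpos
  have hY : 0 ≤ Y + 0.0174 := by
    have : 0 ≤ B * P := by positivity
    linarith
  -- sqrt
  have hr : √e ≤ 1 / 3 := by
    rw [show (1 / 3 : ℝ) = √(1 / 9) by
      rw [show (1 / 9 : ℝ) = (1 / 3) ^ 2 by norm_num, Real.sqrt_sq (by norm_num)]]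
    exact Real.sqrt_le_sqrt he9
  have hr0 : 0 ≤ √e := Real.sqrt_nonneg e
  -- Term 1
  have h1a : e * (1 - e + 0.0051) ≤ S * (1 - S + 0.0051) := by
    have : 0 ≤ (S - e) * (1 - S - e + 0.0051) := mul_nonneg (by linarith) (by linarith)
    linarith
  have h1b : 1 - S + 0.0051 ≤ 1.0115 * (1 - S - 0.005) := by linarith
  have h1c : B * (1 - S - 0.005) ≤ 2 * (Y + 0.0174) := by
    have : B * (1 - S - 0.005) ≤ B * (2 * P) := by
      apply mul_le_mul_of_nonneg_left _ hB0.le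
      linarith
    linarith
  have h1 : 2 * (B ^ 2 * (1 - e + 0.0051) * e) ≤ B * S * (4.046 * (Y + 0.0174)) := by
    have e1 : B ^ 2 * (1 - e + 0.0051) * e ≤ B ^ 2 * (S * (1 - S + 0.0051)) := by
      have := mul_le_mul_of_nonneg_left h1a (sq_nonneg B)
      linarith
    have e2 : B ^ 2 * (S * (1 - S + 0.0051)) ≤ B * S * (1.0115 * (B * (1 - S - 0.005))) := by
      have := mul_le_mul_of_nonneg_left h1b (mul_nonneg (sq_nonneg B) hpos.le)
      linarith [this]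
    have e3 : B * S * (1.0115 * (B * (1 - S - 0.005))) ≤ B * S * (1.0115 * (2 * (Y + 0.0174))) := by
      apply mul_le_mul_of_nonneg_left _ hBS.le
      linarith
    linarith [e1, e2, e3]
  -- Term 2
  have h2 : 2 * (B ^ 2 * T ^ 2 * N / 8) ≤ B * S * 0.0002 := by
    have e1 : T ^ 2 ≤ S * (1 / 9) := by
      have := mul_le_mul hTS (show T ≤ 1 / 9 by linarith) hT hpos.le
      linarith
    have e2 : B * N ≤ 2.29 / 400 := by
      have := mul_le_mul hB2 hN hN0 (by norm_num)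
      linarith
    have e3 : 0 ≤ B * N := by positivity
    have e4 : T ^ 2 * (B * N) ≤ S * (1 / 9) * (2.29 / 400) := by
      apply mul_le_mul e1 e2 e3 (by positivity)
    have e5 := mul_le_mul_of_nonneg_left e4 hB0.le
    linarith [e5, hBS]
  -- Term 3
  have h3' : K ≤ B * (0.0079 * q + 0.0197) := by
    have : 1.71 * (0.0079 * q + 0.0197) ≤ B * (0.0079 * q + 0.0197) :=
      mul_le_mul_of_nonneg_right hB1 (by linarith)
    linarith
  have h3 : 2 * (K * T / 2) ≤ B * S * (0.0079 * q + 0.0197) := by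
    have e1 : K * T ≤ K * S := mul_le_mul_of_nonneg_left hTS hK0
    have e2 : K * S ≤ B * (0.0079 * q + 0.0197) * S := mul_le_mul_of_nonneg_right h3' hpos.le
    linarith
  -- Term 4
  have h4 : 2 * K * e ≤ B * S * (2 * (0.0079 * q + 0.0197)) := by
    have e1 : K * e ≤ K * S := mul_le_mul_of_nonneg_left heS hK0
    have e2 : K * S ≤ B * (0.0079 * q + 0.0197) * S := mul_le_mul_of_nonneg_right h3' hpos.le
    linarith
  -- Term 5
  have h5 : B ^ 2 * e ^ 2 ≤ B * S * 0.2545 := by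
    have e1 : B * e ≤ 0.2545 := by
      have := mul_le_mul hB2 he9 he (by norm_num)
      linarith
    have e2 : e * (B * e) ≤ S * 0.2545 := by
      apply mul_le_mul heS e1 (by positivity) hpos.le
    have e3 := mul_le_mul_of_nonneg_left e2 hB0.le
    linarith [e3]
  -- Term 6
  have h6 : 4 * D * B * (e * √e) ≤ B * S * 0.0165 := by
    have e1 : D * √e ≤ 0.0123 * (1 / 3) := mul_le_mul hD hr hr0 (by norm_num)
    have e2 : e * (D * √e) ≤ S * (0.0123 * (1 / 3)) := by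
      apply mul_le_mul heS e1 (by positivity) hpos.le
    have e3 := mul_le_mul_of_nonneg_left e2 hB0.le
    linarith [e3, hBS]
  have hc1 : c * (2 * (B ^ 2 * (1 - e + 0.0051) * e) + 2 * (B ^ 2 * T ^ 2 * N / 8)
      + 2 * (K * T / 2)) ≤ c * (B * S * (4.1 * (Y + 0.0174) + (0.021 + 0.008 * q))) := by
    apply mul_le_mul_of_nonneg_left _ hc
    have : B * S * (4.046 * (Y + 0.0174)) + B * S * 0.0002 + B * S * (0.0079 * q + 0.0197)
        ≤ B * S * (4.1 * (Y + 0.0174) + (0.021 + 0.008 * q)) := by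
      have : 4.046 * (Y + 0.0174) + 0.0002 + (0.0079 * q + 0.0197)
          ≤ 4.1 * (Y + 0.0174) + (0.021 + 0.008 * q) := by linarith
      have := mul_le_mul_of_nonneg_left this hBS.le
      linarith [this]
    linarith
  have hc2 : 1.02 * c' * (2 * K * e + B ^ 2 * e ^ 2 + 4 * D * B * (e * √e))
      ≤ 1.02 * c' * (B * S * (0.33 + 0.017 * q)) := by
    apply mul_le_mul_of_nonneg_left _ (by positivity)
    have : B * S * (2 * (0.0079 * q + 0.0197)) + B * S * 0.2545 + B * S * 0.0165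
        ≤ B * S * (0.33 + 0.017 * q) := by
      have : 2 * (0.0079 * q + 0.0197) + 0.2545 + 0.0165 ≤ 0.33 + 0.017 * q := by linarith
      have := mul_le_mul_of_nonneg_left this hBS.le
      linarith [this]
    linarith
  have hfin : B * S * (4.1 * c * (Y + 0.0174) + c * (0.021 + 0.008 * q)
      + 1.02 * c' * (0.33 + 0.017 * q)) < B * S * q := mul_lt_mul_of_pos_left hscal hBS
  have hTe : T + e = S := by rw [hS]; ring
  rw [hTe]
  linarith

end LocCostAux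

/-- MODULE RL22. Algebraic bound of the cost. `S = e + Δ²`, `2 a1 a2 = 1 - S - s²/m`, `S ≤ 1/9`,
`s² ≤ 2`, `m ≥ 400`, `C = A - B s/m`. (Applied with `c = chib q (ystar q)`, `c' = chib q 0.14`.)
* `(A+B a1)² + (A+B a2)² ≤ B² ((a1+s/m)² + (a2+s/m)²) ≤ B² (1 - e + .0051)` since
  `0 ≤ A + B a_i = C + B(a_i + s/m) ≤ B (a_i + s/m)`;
* `m (L1² + L2²) = (m/2)((L1+L2)² + (L1-L2)²) = B²Δ⁴/(8m) + m C²Δ²/2`;
* `B ≤ (Y+.0174)/(a1 a2) = 2(Y+.0174)/(1-S-s²/m)`, `B ≤ 2.29`, `B ≥ 1.71`;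
* `m C²/B ≤ 1.5735 (q+1)²/m ≤ 1.5735 (q+2.5)/200 ≤ .0079 q + .0197`, `B Δ²/(4m) ≤ .0002`,
* `B e ≤ .2545`, `4 |C| √e ≤ .0164`; `e (1-e+.0051) ≤ S (1-S+.0051)`, `(1-S+.0051)/(1-S-.005) ≤ 1.0115`. -/
theorem loc_cost {q m a1 a2 e A B c c' : ℝ} (hq : 2 ≤ q) (hm : 200 * q ≤ m) (h2 : 0 < a2)
    (h21 : a2 ≤ a1) (hP : 4 / 9 ≤ a1 * a2) (he : 0 ≤ e)
    (hsum : a1 ^ 2 + a2 ^ 2 + (a1 + a2) ^ 2 / m + e = 1)
    (hC : A - B * ((a1 + a2) / m) < 0)
    (hC' : -(A - B * ((a1 + a2) / m)) ≤ 1.64 * (q + 1) / m)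
    (hB : 0 < B) (hBP : B * (a1 * a2) ≤ YY q + 2.32 * (q + 1) / m)
    (hB' : YY q - (q + 1) / m - 4 / m ^ 2 ≤ B * (1 / 2 + 2 / m))
    (hc : 0 ≤ c) (hc' : 0 ≤ c')
    (hscal : 4.1 * c * (YY q + 0.0174) + c * (0.021 + 0.008 * q)
      + 1.02 * c' * (0.33 + 0.017 * q) < q)
    (hpos : 0 < e + (a1 - a2) ^ 2) :
    2 * (c * (((A + B * a1) ^ 2 + (A + B * a2) ^ 2) * e
          + (B ^ 2 * (a1 - a2) ^ 4 / (8 * m) + m * (A - B * ((a1 + a2) / m)) ^ 2 * (a1 - a2) ^ 2 / 2)))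
      + 1.02 * (c' * (2 * m * (A - B * ((a1 + a2) / m)) ^ 2 * e + B ^ 2 * e ^ 2
          + 4 * |A - B * ((a1 + a2) / m)| * B * (e * √e)))
      < q * B * ((a1 - a2) ^ 2 + m / (m - 1) * e) := by
  have hm400 : 400 ≤ m := by linarith
  have hm0 : 0 < m := by linarith
  obtain ⟨hY1, hY2⟩ := LocCostAux.YY_ge hq
  have hinv : 1 / m ≤ 1 / 400 := one_div_le_one_div_of_le (by norm_num) hm400
  have hinv0 : 0 < 1 / m := by positivity
  have hu : (q + 1) / m ≤ 0.0075 := by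
    rw [div_le_iff₀ hm0]; linarith
  have hu0 : 0 < (q + 1) / m := by positivity
  have ha1 : 0 < a1 := by linarith
  have hs2 : (a1 + a2) ^ 2 ≤ 2 := by
    have : 0 ≤ (a1 + a2) ^ 2 / m := by positivity
    have h3 := sq_nonneg (a1 - a2)
    have h4 : (a1 + a2) ^ 2 + (a1 - a2) ^ 2 = 2 * (a1 ^ 2 + a2 ^ 2) := by ring
    linarith
  have hW0 : 0 ≤ (a1 + a2) ^ 2 / m := by positivity
  have hW : (a1 + a2) ^ 2 / m ≤ 0.005 := by
    rw [div_le_iff₀ hm0]; linarith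
  have h2P : 2 * (a1 * a2) = 1 - (e + (a1 - a2) ^ 2) - (a1 + a2) ^ 2 / m := by
    have h4 : (a1 - a2) ^ 2 = a1 ^ 2 + a2 ^ 2 - 2 * (a1 * a2) := by ring
    rw [h4]; linarith
  have h41 : 4 / m ^ 2 ≤ 0.000025 := by
    have : 160000 ≤ m ^ 2 := by nlinarith
    rw [div_le_iff₀ (by positivity)]; linarith
  have h2m : 2 / m ≤ 0.005 := by
    rw [div_le_iff₀ hm0]; linarith
  have hB1 : 1.71 ≤ B := by
    have : B * (1 / 2 + 2 / m) ≤ B * 0.505 := by
      apply mul_le_mul_of_nonneg_left _ hB.le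
      linarith
    linarith
  have h232 : 2.32 * (q + 1) / m ≤ 0.0174 := by
    have : 2.32 * (q + 1) / m = 2.32 * ((q + 1) / m) := by ring
    rw [this]; linarith
  have hBP' : B * (a1 * a2) ≤ YY q + 0.0174 := by linarith
  have hB2 : B ≤ 2.29 := by
    have : B * (4 / 9) ≤ B * (a1 * a2) := mul_le_mul_of_nonneg_left hP hB.le
    linarith
  set C : ℝ := A - B * ((a1 + a2) / m) with hCdef
  have hD0 : 0 ≤ -C := by linarith
  have h164 : 1.64 * (q + 1) / m = 1.64 * ((q + 1) / m) := by ring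
  have hD : -C ≤ 0.0123 := by rw [h164] at hC'; linarith
  have hK : m * C ^ 2 ≤ 0.013448 * q + 0.03362 := by
    have e1 : C ^ 2 ≤ (1.64 * (q + 1) / m) ^ 2 := by
      have : C ^ 2 = (-C) ^ 2 := by ring
      rw [this]
      exact pow_le_pow_left₀ hD0 hC' 2
    have e2 : m * (1.64 * (q + 1) / m) ^ 2 = 2.6896 * ((q + 1) ^ 2 / m) := by
      field_simp; ring
    have e3 : (q + 1) ^ 2 / m ≤ (q + 2.5) / 200 := by
      rw [div_le_div_iff₀ hm0 (by norm_num)]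
      have h5 : (q + 2.5) * (200 * q) ≤ (q + 2.5) * m := mul_le_mul_of_nonneg_left hm (by linarith)
      have h6 : (q + 1) ^ 2 * 200 = 200 * q ^ 2 + 400 * q + 200 := by ring
      rw [h6]
      linarith
    have e4 := mul_le_mul_of_nonneg_left e1 hm0.le
    rw [e2] at e4
    linarith
  have hK0 : 0 ≤ m * C ^ 2 := by positivity
  have habs : |C| = -C := abs_of_neg hC
  have hcore := LocCostAux.core (q := q) (B := B) (e := e) (T := (a1 - a2) ^ 2)
    (W := (a1 + a2) ^ 2 / m) (P := a1 * a2) (Y := YY q) (D := -C) (K := m * C ^ 2) (c := c)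
    (c' := c') (N := 1 / m) hq he (sq_nonneg _) hW0 hW hP h2P hB1 hB2 hBP' hD0 hD hK0 hK
    hinv0.le hinv hc hc' hscal hpos
  -- the first block
  have hA1 : A + B * a1 = C + B * (a1 + (a1 + a2) / m) := by rw [hCdef]; ring
  have hA2 : A + B * a2 = C + B * (a2 + (a1 + a2) / m) := by rw [hCdef]; ring
  have hsig0 : 0 ≤ (a1 + a2) / m := by positivity
  have hsq : (A + B * a1) ^ 2 + (A + B * a2) ^ 2 ≤ B ^ 2 * (1 - e + 0.0051) := by
    rw [hA1, hA2]
    have hs43 : 4 / 3 ≤ a1 + a2 := by nlinarith [sq_nonneg (a1 - a2)]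
    have e1 : C * (C + B * ((a1 + a2) + 2 * ((a1 + a2) / m))) ≤ 0 := by
      apply mul_nonpos_of_nonpos_of_nonneg hC.le
      have : B * (4 / 3) ≤ B * ((a1 + a2) + 2 * ((a1 + a2) / m)) := by
        apply mul_le_mul_of_nonneg_left _ hB.le
        linarith
      linarith
    have e2 : (a1 + (a1 + a2) / m) ^ 2 + (a2 + (a1 + a2) / m) ^ 2 ≤ 1 - e + 0.0051 := by
      have e3 : (a1 + (a1 + a2) / m) ^ 2 + (a2 + (a1 + a2) / m) ^ 2
          = (a1 ^ 2 + a2 ^ 2) + 2 * ((a1 + a2) ^ 2 / m) + 2 * ((a1 + a2) ^ 2 / m) * (1 / m) := by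
        field_simp; ring
      have e4 : (a1 + a2) ^ 2 / m * (1 / m) ≤ 0.005 * (1 / 400) :=
        mul_le_mul hW hinv hinv0.le (by norm_num)
      rw [e3]
      linarith
    have e5 := mul_le_mul_of_nonneg_left e2 (sq_nonneg B)
    linarith [e5, e1]
  have hblock : c * (((A + B * a1) ^ 2 + (A + B * a2) ^ 2) * e
          + (B ^ 2 * (a1 - a2) ^ 4 / (8 * m) + m * C ^ 2 * (a1 - a2) ^ 2 / 2))
      ≤ c * (B ^ 2 * (1 - e + 0.0051) * e
          + (B ^ 2 * ((a1 - a2) ^ 2) ^ 2 * (1 / m) / 8 + m * C ^ 2 * (a1 - a2) ^ 2 / 2)) := by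
    apply mul_le_mul_of_nonneg_left _ hc
    have e1 := mul_le_mul_of_nonneg_right hsq he
    have e2 : B ^ 2 * (a1 - a2) ^ 4 / (8 * m) = B ^ 2 * ((a1 - a2) ^ 2) ^ 2 * (1 / m) / 8 := by
      field_simp
    rw [e2]
    linarith
  have hRHS : q * B * ((a1 - a2) ^ 2 + e) ≤ q * B * ((a1 - a2) ^ 2 + m / (m - 1) * e) := by
    apply mul_le_mul_of_nonneg_left _ (by positivity)
    have : 1 ≤ m / (m - 1) := by
      rw [le_div_iff₀ (by linarith)]; linarith
    have := mul_le_mul_of_nonneg_right this he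
    linarith
  rw [habs]
  have e7 : 2 * m * C ^ 2 * e = 2 * (m * C ^ 2) * e := by ring
  rw [e7]
  linarith

end Pool.Agent.RieszLin
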