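import Pool.Agent.RieszLin.LocId

set_option autoImplicit false

open Real Finset

namespace Pool.Agent.RieszLin

namespace LocEnAux

section

variable {ι : Type*} [DecidableEq ι]

lemma dbl (R : Finset ι) (f : ι → ι → ℝ) :
    ∑ i ∈ R, ∑ j ∈ R, (if i = j then 0 else f i j) = ∑ i ∈ R, ∑ j ∈ R, f i j - ∑ i ∈ R, f i i := by
  rw [← Finset.sum_sub_distrib]
  refine Finset.sum_congr rfl (fun i hi => ?_)
  have h : ∀ j, (if i = j then 0 else f i j) = f i j - (if i = j then f i j else 0) := by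
    intro j; split_ifs <;> ring
  simp only [h, Finset.sum_sub_distrib, Finset.sum_ite_eq, hi, if_true]

end

lemma cross (q K : ℝ) : (q + 1) * K ^ (q / (q + 1)) = 1 + q * K - Psi q (1 - K) := by
  unfold Psi
  rw [show (1 : ℝ) - (1 - K) = K by ring]
  ring

lemma inner {q m K : ℝ} (hq : 1 ≤ q) (hm : 2 ≤ m) (hK : 0 < K) :
    (q + 1) * K ^ (q / (q + 1)) = (1 - 1 / m) ^ q + q * (m / (m - 1)) * K
      - (1 - 1 / m) ^ q * Psi q (1 - K / (1 - y0 q m)) := by
  have hm0 : 0 < m := by linarith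
  have hm1 : 0 < m - 1 := by linarith
  have hq1 : q + 1 ≠ 0 := by linarith
  have hb : 0 < 1 - 1 / m := by
    rw [sub_pos, div_lt_one hm0]; linarith
  have hW : 1 - y0 q m = (1 - 1 / m) ^ (q + 1) := by unfold y0; ring
  have hWp : 0 < (1 - 1 / m) ^ (q + 1) := Real.rpow_pos_of_pos hb _
  have hWt : ((1 - 1 / m) ^ (q + 1)) ^ (q / (q + 1)) = (1 - 1 / m) ^ q := by
    rw [← Real.rpow_mul hb.le]
    congr 1
    field_simp
  have hbq : 0 < (1 - 1 / m) ^ q := Real.rpow_pos_of_pos hb _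
  have hW1 : (1 - 1 / m) ^ (q + 1) = (1 - 1 / m) ^ q * (1 - 1 / m) := by
    rw [Real.rpow_add hb, Real.rpow_one]
  unfold Psi
  rw [hW, show (1 : ℝ) - (1 - K / (1 - 1 / m) ^ (q + 1)) = K / (1 - 1 / m) ^ (q + 1) by ring,
    Real.div_rpow hK.le hWp.le, hWt, hW1]
  have h1 : 1 - 1 / m = (m - 1) / m := by field_simp
  have e1 : (1 - 1 / m) ^ q * (q * (1 - K / ((1 - 1 / m) ^ q * (1 - 1 / m))))
      = q * (1 - 1 / m) ^ q - q * (m / (m - 1)) * K := by
    set b := (1 - 1 / m) ^ q with hbdef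
    rw [h1]
    have : m - 1 ≠ 0 := hm1.ne'
    field_simp
  have e2 : (1 - 1 / m) ^ q * ((q + 1) * (K ^ (q / (q + 1)) / (1 - 1 / m) ^ q))
      = (q + 1) * K ^ (q / (q + 1)) := by
    field_simp
  linear_combination -e1 - e2

end LocEnAux

section

variable {ι : Type*} [Fintype ι] [DecidableEq ι] {a : ι → ℝ}

/-- MODULE RL20. The energy decomposition (2d). `K = Kf κ A B a`, `κ = kap q m`, `p = q+1`.
`offsum_split` for `K^τ`. `K (i1,i2) = 1 - Y`, `p (1-Y)^τ = p 2^(-q)`. For cross pairs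
`p K^τ = p - q (1-K) - Ψ(1-K)`; for `i ≠ j` in `R`, with `K = (1-y₀)(1-y')`:
`p K^τ = (1-y₀)^τ (p - q y' - Ψ(y'))`, `(1-y₀)^τ = (1-1/m)^q`, `(1-y₀)^τ y' = (m/(m-1)) (1-y₀-K)`.
`T + q κ N² = p T`, `T = 2·2^(-q) + 4m + m(m-1)(1-1/m)^q` (`TT_eq`).
Linear part: `2∑_R (K1j + K2j - 2) + (m/(m-1)) ∑_{i≠j∈R} (K_ij - (1-y₀)) = B(Δ² + (m/(m-1)) e)`:
`∑_R (K1j + K2j - 2) = m (L1 + L2) = BΔ²/2` and
`∑_{i≠j∈R}(K_ij-(1-y₀)) = ∑ (-C(η_i+η_j) - Bη_iη_j) = B e` (by (E1)). -/
theorem loc_energy {q m A B : ℝ} (hq : 1 ≤ q) (hm : 2 ≤ m)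
    (hcard : (Fintype.card ι : ℝ) = m + 2) (h0 : ∑ i, a i = 0) {i1 i2 : ι} (hne : i1 ≠ i2)
    (E1 : kap q m + 2 * A * ((a i1 + a i2) / m) - B * ((a i1 + a i2) / m) ^ 2 = 1 - y0 q m)
    (E2 : kap q m - A * (a i1 + a i2) - B * (a i1 * a i2) = 1 - YY q)
    (hK : ∀ i j, i ≠ j → 0 < Kf (kap q m) A B a i j) :
    (q + 1) * offsum (fun i j => Kf (kap q m) A B a i j ^ (q / (q + 1)))
        - q * kap q m * (m + 2) ^ 2 - TT q m
      = q * B * ((a i1 - a i2) ^ 2
          + m / (m - 1) * ∑ j ∈ (univ.erase i1).erase i2, (a j + (a i1 + a i2) / m) ^ 2)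
        - 2 * ∑ j ∈ (univ.erase i1).erase i2,
            (Psi q (1 - Kf (kap q m) A B a i1 j) + Psi q (1 - Kf (kap q m) A B a i2 j))
        - (1 - 1 / m) ^ q * ∑ i ∈ (univ.erase i1).erase i2, ∑ j ∈ (univ.erase i1).erase i2,
            (if i = j then 0 else Psi q (1 - Kf (kap q m) A B a i j / (1 - y0 q m))) := by
  set R := (univ.erase i1).erase i2 with hR
  have hcR : (R.card : ℝ) = m := by
    rw [hR, card_rest hne, hcard]; ring
  have hm0 : (0 : ℝ) < m := by linarith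
  have hm1 : (0 : ℝ) < m - 1 := by linarith
  have hb : 0 < 1 - 1 / m := by
    rw [sub_pos, div_lt_one hm0]; linarith
  have hsumR : ∑ j ∈ R, a j = -(a i1 + a i2) := by
    have hm2 : i2 ∈ univ.erase i1 := Finset.mem_erase.2 ⟨hne.symm, Finset.mem_univ _⟩
    have h1 := Finset.add_sum_erase univ a (Finset.mem_univ i1)
    have h2 := Finset.add_sum_erase (univ.erase i1) a hm2
    rw [hR]; linarith
  have hsym : ∀ i j, Kf (kap q m) A B a i j = Kf (kap q m) A B a j i := by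
    intro i j; unfold Kf; ring
  have hi1 : i1 ∉ R := by simp [hR]
  have hi2 : i2 ∉ R := by simp [hR]
  have hK12 : Kf (kap q m) A B a i1 i2 = (2 : ℝ) ^ (-(q + 1)) := by
    have : (1 : ℝ) - YY q = (2 : ℝ) ^ (-(q + 1)) := by unfold YY; ring
    rw [← this, ← E2]; rfl
  have hK12t : Kf (kap q m) A B a i1 i2 ^ (q / (q + 1)) = (2 : ℝ) ^ (-q) := by
    rw [hK12, ← Real.rpow_mul (by norm_num)]
    congr 1
    have : q + 1 ≠ 0 := by linarith
    field_simp
  -- splitting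
  have hsplit : (q + 1) * offsum (fun i j => Kf (kap q m) A B a i j ^ (q / (q + 1)))
      = 2 * ((q + 1) * (2 : ℝ) ^ (-q))
        + 2 * ∑ j ∈ R, ((1 + q * Kf (kap q m) A B a i1 j - Psi q (1 - Kf (kap q m) A B a i1 j))
            + (1 + q * Kf (kap q m) A B a i2 j - Psi q (1 - Kf (kap q m) A B a i2 j)))
        + ∑ i ∈ R, ∑ j ∈ R, (if i = j then 0 else ((1 - 1 / m) ^ q
            + q * (m / (m - 1)) * Kf (kap q m) A B a i j
            - (1 - 1 / m) ^ q * Psi q (1 - Kf (kap q m) A B a i j / (1 - y0 q m)))) := by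
    rw [← offsum_mul, offsum_split (fun i j => by rw [hsym i j]) hne, hK12t, ← hR]
    congr 1
    · congr 1
      congr 1
      refine Finset.sum_congr rfl (fun j _ => ?_)
      rw [LocEnAux.cross, LocEnAux.cross]
    · refine Finset.sum_congr rfl (fun i _ => Finset.sum_congr rfl (fun j _ => ?_))
      split_ifs with hij
      · rfl
      · exact LocEnAux.inner hq hm (hK i j hij)
  -- first sum
  have hS1 : ∑ j ∈ R, ((1 + q * Kf (kap q m) A B a i1 j - Psi q (1 - Kf (kap q m) A B a i1 j))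
            + (1 + q * Kf (kap q m) A B a i2 j - Psi q (1 - Kf (kap q m) A B a i2 j)))
      = 2 * m + q * ∑ j ∈ R, (Kf (kap q m) A B a i1 j + Kf (kap q m) A B a i2 j)
        - ∑ j ∈ R, (Psi q (1 - Kf (kap q m) A B a i1 j) + Psi q (1 - Kf (kap q m) A B a i2 j)) := by
    have h2 : (2 * m : ℝ) = ∑ _j ∈ R, (2 : ℝ) := by
      rw [Finset.sum_const, nsmul_eq_mul, hcR]; ring
    rw [h2, Finset.mul_sum, ← Finset.sum_add_distrib, ← Finset.sum_sub_distrib]
    exact Finset.sum_congr rfl (fun j _ => by ring)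
  have hS1' : ∑ j ∈ R, (Kf (kap q m) A B a i1 j + Kf (kap q m) A B a i2 j)
      = 2 * m + B * (a i1 - a i2) ^ 2 / 2 := by
    have h1 : ∑ j ∈ R, (Kf (kap q m) A B a i1 j + Kf (kap q m) A B a i2 j)
        = m * (2 * kap q m - A * (a i1 + a i2))
          - (2 * A + B * (a i1 + a i2)) * ∑ j ∈ R, a j := by
      have h3 : m * (2 * kap q m - A * (a i1 + a i2))
          = ∑ _j ∈ R, (2 * kap q m - A * (a i1 + a i2)) := by
        rw [Finset.sum_const, nsmul_eq_mul, hcR]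
      rw [h3, Finset.mul_sum, ← Finset.sum_sub_distrib]
      refine Finset.sum_congr rfl (fun j _ => ?_)
      unfold Kf; ring
    have h2 := LL_add (q := q) (m := m) (a1 := a i1) (a2 := a i2) (A := A) (B := B) hm E1 E2
    unfold LL at h2
    rw [h1, hsumR]
    have h4 : m * (B * (a i1 - a i2) ^ 2 / (2 * m)) = B * (a i1 - a i2) ^ 2 / 2 := by
      field_simp
    have h5 : m * ((a i1 + a i2) / m) = a i1 + a i2 := by field_simp
    rw [← h4, ← h2]
    linear_combination (B * (a i1 + a i2) + 2 * A) * (-h5)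
  -- second sum
  set η : ι → ℝ := fun j => a j + (a i1 + a i2) / m with hη
  have hη0 : ∑ j ∈ R, η j = 0 := by
    simp only [hη]
    rw [Finset.sum_add_distrib, hsumR, Finset.sum_const, nsmul_eq_mul, hcR]
    field_simp
    ring
  have hS2 : ∑ i ∈ R, ∑ j ∈ R, (if i = j then 0 else Kf (kap q m) A B a i j)
      = m * (m - 1) * (1 - y0 q m) + B * ∑ j ∈ R, η j ^ 2 := by
    have hKe : ∀ i j, Kf (kap q m) A B a i j = (1 - y0 q m)
        - (A - B * ((a i1 + a i2) / m)) * (η i + η j) - B * (η i * η j) := by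
      intro i j
      rw [← E1]
      simp only [hη]
      unfold Kf
      ring
    rw [LocEnAux.dbl]
    have h1 : ∑ i ∈ R, ∑ j ∈ R, Kf (kap q m) A B a i j = m ^ 2 * (1 - y0 q m) := by
      have h2 : ∀ i ∈ R, ∑ j ∈ R, Kf (kap q m) A B a i j
          = m * ((1 - y0 q m) - (A - B * ((a i1 + a i2) / m)) * η i) := by
        intro i _
        have h3 : ∑ j ∈ R, Kf (kap q m) A B a i j
            = ∑ _j ∈ R, ((1 - y0 q m) - (A - B * ((a i1 + a i2) / m)) * η i)
              - ((A - B * ((a i1 + a i2) / m)) + B * η i) * ∑ j ∈ R, η j := by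
          rw [Finset.mul_sum, ← Finset.sum_sub_distrib]
          refine Finset.sum_congr rfl (fun j _ => ?_)
          rw [hKe]; ring
        rw [h3, hη0, Finset.sum_const, nsmul_eq_mul, hcR]; ring
      rw [Finset.sum_congr rfl h2, ← Finset.mul_sum, Finset.sum_sub_distrib, ← Finset.mul_sum,
        hη0, Finset.sum_const, nsmul_eq_mul, hcR]
      ring
    have h2 : ∑ i ∈ R, Kf (kap q m) A B a i i = m * (1 - y0 q m) - B * ∑ j ∈ R, η j ^ 2 := by
      have h3 : ∑ i ∈ R, Kf (kap q m) A B a i i = ∑ _i ∈ R, (1 - y0 q m)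
          - 2 * (A - B * ((a i1 + a i2) / m)) * ∑ j ∈ R, η j - B * ∑ j ∈ R, η j ^ 2 := by
        rw [Finset.mul_sum, Finset.mul_sum, ← Finset.sum_sub_distrib, ← Finset.sum_sub_distrib]
        refine Finset.sum_congr rfl (fun j _ => ?_)
        rw [hKe]; ring
      rw [h3, hη0, Finset.sum_const, nsmul_eq_mul, hcR]; ring
    rw [h1, h2]; ring
  have hS2' : ∑ i ∈ R, ∑ j ∈ R, (if i = j then 0 else ((1 - 1 / m) ^ q
            + q * (m / (m - 1)) * Kf (kap q m) A B a i j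
            - (1 - 1 / m) ^ q * Psi q (1 - Kf (kap q m) A B a i j / (1 - y0 q m))))
      = m * (m - 1) * (1 - 1 / m) ^ q
        + q * (m / (m - 1)) * ∑ i ∈ R, ∑ j ∈ R, (if i = j then 0 else Kf (kap q m) A B a i j)
        - (1 - 1 / m) ^ q * ∑ i ∈ R, ∑ j ∈ R,
            (if i = j then 0 else Psi q (1 - Kf (kap q m) A B a i j / (1 - y0 q m))) := by
    have h1 : m * (m - 1) * (1 - 1 / m) ^ q
        = ∑ i ∈ R, ∑ j ∈ R, (if i = j then 0 else (1 - 1 / m) ^ q) := by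
      rw [LocEnAux.dbl]
      simp only [Finset.sum_const, nsmul_eq_mul, hcR]
      ring
    rw [h1, Finset.mul_sum, Finset.mul_sum, ← Finset.sum_add_distrib, ← Finset.sum_sub_distrib]
    refine Finset.sum_congr rfl (fun i _ => ?_)
    rw [Finset.mul_sum, Finset.mul_sum, ← Finset.sum_add_distrib, ← Finset.sum_sub_distrib]
    refine Finset.sum_congr rfl (fun j _ => ?_)
    split_ifs <;> ring
  have hT := TT_eq (q := q) hm
  have hkap := (kap_facts hq hm).2.2
  have hW : m * (m - 1) * (1 - 1 / m) ^ q = m ^ 2 * (1 - y0 q m) := by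
    have h1 : (1 : ℝ) - y0 q m = (1 - 1 / m) ^ (q + 1) := by unfold y0; ring
    rw [h1, Real.rpow_add hb, Real.rpow_one]
    field_simp
  rw [hsplit, hS1, hS1', hS2', hS2]
  have h6 : m / (m - 1) * (m * (m - 1) * (1 - y0 q m)) = m ^ 2 * (1 - y0 q m) := by
    have : m - 1 ≠ 0 := hm1.ne'
    field_simp
  have h7 : q * kap q m * (m + 2) ^ 2 = q * TT q m := by
    rw [← hkap]; ring
  rw [h7]
  linear_combination (-(q + 1)) * hT + q * h6 - q * hW

end

end Pool.Agent.RieszLin
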