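import Pool.Agent.RieszLin.Block

set_option autoImplicit false

open Real Finset

namespace Pool.Agent.RieszLin

/-- the constant part of `K (i1, j) - 1` -/
noncomputable def LL (κ A B m s a1 : ℝ) : ℝ := κ - A * (a1 - s / m) + B * (a1 * (s / m)) - 1

/-- MODULE RL16. Consequences of the two equations (E1), (E2); `κ N² = T = N² - 4Y - m² y₀`, so
`κ (m² + 4m) = κ N² - 4κ`. `m² E1 + ...`: `2m (L1 + L2) = 4-4Y-4κ+4As+Bs² = B (s² - 4 a1 a2)`. -/
theorem LL_add {q m a1 a2 A B : ℝ} (hm : 2 ≤ m)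
    (E1 : kap q m + 2 * A * ((a1 + a2) / m) - B * ((a1 + a2) / m) ^ 2 = 1 - y0 q m)
    (E2 : kap q m - A * (a1 + a2) - B * (a1 * a2) = 1 - YY q) :
    LL (kap q m) A B m (a1 + a2) a1 + LL (kap q m) A B m (a1 + a2) a2
      = B * (a1 - a2) ^ 2 / (2 * m) := by
  have hm0 : m ≠ 0 := by linarith
  have hN : (m + 2) ^ 2 ≠ 0 := by
    have : (0 : ℝ) < (m + 2) ^ 2 := by nlinarith
    exact this.ne'
  have hk : kap q m * (m + 2) ^ 2 = (m + 2) ^ 2 - 4 * YY q - m ^ 2 * y0 q m := by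
    unfold kap TT
    field_simp
  have hx : ∃ t : ℝ, (a1 + a2) = t * m := ⟨(a1 + a2) / m, by field_simp⟩
  obtain ⟨t, ht⟩ := hx
  have hdiv : (a1 + a2) / m = t := by rw [ht]; field_simp
  rw [hdiv] at E1
  unfold LL
  rw [hdiv, eq_div_iff (by positivity)]
  generalize kap q m = κ at *
  generalize YY q = Y at *
  generalize y0 q m = y at *
  have h2 : a2 = t * m - a1 := by linarith
  subst h2
  linear_combination (1:ℝ) * hk + (-m ^ 2) * E1 + (-4 : ℝ) * E2

theorem LL_sub {m a1 a2 κ A B : ℝ} (hm : 0 < m) :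
    LL κ A B m (a1 + a2) a1 - LL κ A B m (a1 + a2) a2
      = -(A - B * ((a1 + a2) / m)) * (a1 - a2) := by
  unfold LL
  ring

end Pool.Agent.RieszLin
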