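import Pool.Agent.RieszLin.Block

set_option autoImplicit false

open Real Finset

namespace Pool.Agent.RieszLin

/-- the majorant constant for `Ψ(y)/y²` on `(-∞, z]` -/
noncomputable def chib (q z : ℝ) : ℝ := psi2 q + psi3 q * z + psi4 q * z ^ 2 / (1 - z)

/-- upper bound for the cross values `y` -/
noncomputable def ystar (q : ℝ) : ℝ := 0.52 * (YY q + 0.0174) + 0.003

namespace LocScalAux

lemma psi4_le {q : ℝ} (hq : 0 < q) : psi4 q ≤ 0.0881 := by
  unfold psi4
  set t := q / (q + 1) with ht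
  have h0 : 0 < t := by positivity
  have h1 : t < 1 := by rw [ht, div_lt_one (by linarith)]; linarith
  nlinarith [sq_nonneg (t - 0.785), mul_nonneg h0.le (sq_nonneg (t - 0.785)), sq_nonneg t]

lemma psi4_nonneg {q : ℝ} (hq : 0 < q) : 0 ≤ psi4 q := by
  unfold psi4
  set t := q / (q + 1) with ht
  have h0 : 0 < t := by positivity
  have h1 : t < 1 := by rw [ht, div_lt_one (by linarith)]; linarith
  have : 0 ≤ t * (2 - t) * (3 - t) := mul_nonneg (mul_nonneg h0.le (by linarith)) (by linarith)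
  linarith

lemma psi3_le {q T : ℝ} (hq : 0 < q) (hT : q / (q + 1) ≤ T) (hT1 : T ≤ 1) :
    psi3 q ≤ T * (2 - T) / 6 := by
  unfold psi3
  set t := q / (q + 1) with ht
  have h0 : 0 < t := by positivity
  have : 0 ≤ (T - t) * (2 - T - t) := mul_nonneg (by linarith) (by linarith)
  nlinarith

lemma psi3_nonneg {q : ℝ} (hq : 0 < q) : 0 ≤ psi3 q := by
  unfold psi3
  set t := q / (q + 1) with ht
  have h0 : 0 < t := by positivity
  have h1 : t < 1 := by rw [ht, div_lt_one (by linarith)]; linarith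
  have : 0 ≤ t * (2 - t) := mul_nonneg h0.le (by linarith)
  linarith

lemma chib_le {q z T Z : ℝ} (hq : 0 < q) (hT : q / (q + 1) ≤ T) (hT1 : T ≤ 1)
    (hz0 : 0 ≤ z) (hz : z ≤ Z) (hZ : Z < 1) :
    chib q z ≤ T / 2 + T * (2 - T) / 6 * Z + 0.0881 * (Z ^ 2 / (1 - Z)) := by
  have h0 : 0 < q / (q + 1) := by positivity
  unfold chib
  have h2 : psi2 q ≤ T / 2 := by unfold psi2; linarith
  have h3 : psi3 q * z ≤ T * (2 - T) / 6 * Z :=
    mul_le_mul (psi3_le hq hT hT1) hz hz0 (by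
      have : 0 ≤ T * (2 - T) := mul_nonneg (by linarith) (by linarith)
      linarith)
  have h4 : psi4 q * z ^ 2 / (1 - z) ≤ 0.0881 * (Z ^ 2 / (1 - Z)) := by
    rw [mul_div_assoc]
    refine mul_le_mul (psi4_le hq) ?_ (div_nonneg (sq_nonneg _) (by linarith)) (by norm_num)
    exact div_le_div₀ (sq_nonneg _) (by nlinarith) (by linarith) (by linarith)
  linarith

lemma YY_le {q r c : ℝ} (hq : q ≤ r) (h : c ≤ (2 : ℝ) ^ (-(r + 1))) : YY q ≤ 1 - c := by
  unfold YY
  have : (2 : ℝ) ^ (-(r + 1)) ≤ (2 : ℝ) ^ (-(q + 1)) :=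
    Real.rpow_le_rpow_of_exponent_le (by norm_num) (by linarith)
  linarith

lemma pow_three_half : (0.0883 : ℝ) ≤ (2 : ℝ) ^ (-((2.5 : ℝ) + 1)) := by
  have h : ((2 : ℝ) ^ (-((2.5 : ℝ) + 1))) ^ 2 = 1 / 128 := by
    rw [← Real.rpow_natCast, ← Real.rpow_mul (by norm_num)]
    have : (-((2.5 : ℝ) + 1) * ((2 : ℕ) : ℝ)) = ((-7 : ℤ) : ℝ) := by push_cast; norm_num
    rw [this, Real.rpow_intCast]
    norm_num
  have hp : 0 < (2 : ℝ) ^ (-((2.5 : ℝ) + 1)) := Real.rpow_pos_of_pos (by norm_num) _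
  nlinarith

lemma pow_four : (0.0625 : ℝ) ≤ (2 : ℝ) ^ (-((3 : ℝ) + 1)) := by
  have : (-((3 : ℝ) + 1)) = ((-4 : ℤ) : ℝ) := by push_cast; norm_num
  rw [this, Real.rpow_intCast]
  norm_num

end LocScalAux

open LocScalAux

theorem chib_nonneg {q z : ℝ} (hq : 0 < q) (hz0 : 0 ≤ z) (hz : z < 1) : 0 ≤ chib q z := by
  unfold chib
  have h2 : 0 ≤ psi2 q := by unfold psi2; positivity
  have h3 : 0 ≤ psi3 q * z := mul_nonneg (psi3_nonneg hq) hz0
  have h4 : 0 ≤ psi4 q * z ^ 2 / (1 - z) :=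
    div_nonneg (mul_nonneg (psi4_nonneg hq) (sq_nonneg _)) (by linarith)
  linarith

theorem ystar_bounds {q : ℝ} (hq : 1 ≤ q) : 0 ≤ ystar q ∧ ystar q ≤ 0.533 := by
  have hY := YY_bounds hq
  unfold ystar
  constructor
  · linarith [hY.1]
  · linarith [hY.2]

namespace LocScalAux

lemma final {q T Ym C1 C2 : ℝ} (hq : 2 ≤ q) (hT : q / (q + 1) ≤ T) (hT1 : T ≤ 1)
    (hY : YY q ≤ Ym) (hYm : Ym ≤ 1)
    (h1 : T / 2 + T * (2 - T) / 6 * (0.52 * (Ym + 0.0174) + 0.003)
      + 0.0881 * ((0.52 * (Ym + 0.0174) + 0.003) ^ 2 / (1 - (0.52 * (Ym + 0.0174) + 0.003))) ≤ C1)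
    (h2 : T / 2 + T * (2 - T) / 6 * 0.14 + 0.0881 * (0.14 ^ 2 / (1 - 0.14)) ≤ C2)
    (h3 : 4.1 * C1 * (Ym + 0.0174) + C1 * (0.021 + 0.008 * q)
      + 1.02 * C2 * (0.33 + 0.017 * q) < q) :
    4.1 * chib q (ystar q) * (YY q + 0.0174) + chib q (ystar q) * (0.021 + 0.008 * q)
      + 1.02 * chib q 0.14 * (0.33 + 0.017 * q) < q := by
  have hq0 : 0 < q := by linarith
  have hYb := YY_bounds (q := q) (by linarith)
  have hys := ystar_bounds (q := q) (by linarith)
  have hc0 : 0 ≤ chib q (ystar q) := chib_nonneg hq0 hys.1 (by linarith [hys.2])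
  have hd0 : 0 ≤ chib q 0.14 := chib_nonneg hq0 (by norm_num) (by norm_num)
  have hc : chib q (ystar q) ≤ C1 := by
    refine (chib_le hq0 hT hT1 hys.1 (Z := 0.52 * (Ym + 0.0174) + 0.003) ?_ ?_).trans h1
    · unfold ystar; linarith
    · linarith
  have hd : chib q 0.14 ≤ C2 := by
    refine (chib_le hq0 hT hT1 (z := 0.14) (Z := 0.14) (by norm_num) le_rfl (by norm_num)).trans h2
  have e1 : chib q (ystar q) * (YY q + 0.0174) ≤ C1 * (Ym + 0.0174) :=
    mul_le_mul hc (by linarith) (by linarith [hYb.1]) (hc0.trans hc)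
  have e2 : chib q (ystar q) * (0.021 + 0.008 * q) ≤ C1 * (0.021 + 0.008 * q) :=
    mul_le_mul_of_nonneg_right hc (by linarith)
  have e3 : chib q 0.14 * (0.33 + 0.017 * q) ≤ C2 * (0.33 + 0.017 * q) :=
    mul_le_mul_of_nonneg_right hd (by linarith)
  nlinarith [e1, e2, e3]

lemma tau_le {q r : ℝ} (hq : 0 < q) (h : q ≤ r) : q / (q + 1) ≤ r / (r + 1) := by
  rw [div_le_div_iff₀ (by linarith) (by linarith)]
  nlinarith

end LocScalAux

/-- MODULE RL21. Scalar inequality in `q`. Values: `q = 2`: left side 1.768; `q = 2.5`: 1.979 (so on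
`[2,2.5]` bound everything by the values at 2.5: `τ ≤ 5/7`, `Y ≤ .9117`, `ystar ≤ .4862`,
`chib ≤ .4715`, `chib 0.14 ≤ .3805`, left side < 2), on `[2.5,3]`: `τ ≤ 3/4`, `Y ≤ .9375`, left side < 2.15,
`q ≥ 3`: `τ < 1`, `Y < 1`, `ystar ≤ .5321`, `chib ≤ .65`, `chib 0.14 ≤ .53`, left side < 2.93 + .015 q < q.
Use `psi2 = τ/2`, `psi3 = τ(2-τ)/6 ≤ 1/6` and `psi4 = τ(2-τ)(3-τ)/24 ≤ .0881`. -/
theorem scal_loc {q : ℝ} (hq : 2 ≤ q) :
    4.1 * chib q (ystar q) * (YY q + 0.0174) + chib q (ystar q) * (0.021 + 0.008 * q)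
      + 1.02 * chib q 0.14 * (0.33 + 0.017 * q) < q := by
  have hq0 : 0 < q := by linarith
  rcases le_total q 2.5 with h | h
  · refine final (T := 5 / 7) (Ym := 0.9117) (C1 := 0.4722) (C2 := 0.3807) hq ?_ (by norm_num) ?_
      (by norm_num) (by norm_num) (by norm_num) ?_
    · refine (tau_le hq0 h).trans ?_; norm_num
    · have := YY_le h pow_three_half
      linarith
    · norm_num; linarith
  · rcases le_total q 3 with h' | h'
    · refine final (T := 3 / 4) (Ym := 0.9375) (C1 := 0.498) (C2 := 0.4) hq ?_ (by norm_num) ?_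
        (by norm_num) (by norm_num) (by norm_num) ?_
      · refine (tau_le hq0 h').trans ?_; norm_num
      · have := YY_le h' pow_four
        linarith
      · norm_num; linarith
    · refine final (T := 1) (Ym := 1) (C1 := 0.643) (C2 := 0.526) hq ?_ (by norm_num) ?_
        (by norm_num) (by norm_num) (by norm_num) ?_
      · rw [div_le_one (by linarith)]; linarith
      · exact (YY_bounds (q := q) (by linarith)).2.le
      · norm_num; linarith

end Pool.Agent.RieszLin
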