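import Pool.Agent.RieszLin.Block

set_option autoImplicit false

open Real Finset

namespace Pool.Agent.RieszLin

namespace LocSolveAux

/-- the linear system, `σ = s/m`, `s = σ m`, `w = 2 P + σ² m`. -/
theorem sys {Y y k m σ P : ℝ} (hσ : σ ≠ 0) (hw : 2 * P + σ ^ 2 * m ≠ 0) :
    ∃ A B : ℝ, k + 2 * A * σ - B * σ ^ 2 = 1 - y ∧ k - A * (σ * m) - B * P = 1 - Y ∧
      (A - B * σ) * (2 * P + σ ^ 2 * m) * σ =
        ((1 - k) - y) * (P + σ ^ 2 * m) - (Y - (1 - k)) * σ ^ 2 ∧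
      B * (P + σ ^ 2 * m) = Y - (1 - k) - (A - B * σ) * (σ * m) := by
  obtain ⟨w, hwd⟩ : ∃ w : ℝ, w = 2 * P + σ ^ 2 * m := ⟨_, rfl⟩
  rw [← hwd] at hw ⊢
  obtain ⟨B, hB⟩ : ∃ B : ℝ, B * w = 2 * (Y - (1 - k)) - m * ((1 - k) - y) :=
    ⟨(2 * (Y - (1 - k)) - m * ((1 - k) - y)) / w, div_mul_cancel₀ _ hw⟩
  obtain ⟨C, hC⟩ : ∃ C : ℝ, C * (w * σ) =
      ((1 - k) - y) * (P + σ ^ 2 * m) - (Y - (1 - k)) * σ ^ 2 :=
    ⟨(((1 - k) - y) * (P + σ ^ 2 * m) - (Y - (1 - k)) * σ ^ 2) / (w * σ),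
      div_mul_cancel₀ _ (mul_ne_zero hw hσ)⟩
  have e2 : C * (σ * m) + B * (P + σ ^ 2 * m) = Y - (1 - k) := by
    apply mul_right_cancel₀ hw
    have h1 : (C * (σ * m) + B * (P + σ ^ 2 * m)) * w =
        m * (C * (w * σ)) + (P + σ ^ 2 * m) * (B * w) := by ring
    rw [h1, hB, hC, hwd]
    ring
  have e1 : 2 * C * σ + B * σ ^ 2 = (1 - k) - y := by
    apply mul_right_cancel₀ hw
    have h1 : (2 * C * σ + B * σ ^ 2) * w = 2 * (C * (w * σ)) + σ ^ 2 * (B * w) := by ring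
    rw [h1, hB, hC, hwd]
    ring
  refine ⟨C + B * σ, B, ?_, ?_, ?_, ?_⟩
  · linear_combination e1
  · linear_combination -e2
  · linear_combination hC
  · linear_combination e2

/-- the value of `C` -/
theorem cval {Y y k m σ P C : ℝ} (hk : k * (m + 2) ^ 2 = (m + 2) ^ 2 - 4 * Y - m ^ 2 * y)
    (hC : C * (2 * P + σ ^ 2 * m) * σ =
        ((1 - k) - y) * (P + σ ^ 2 * m) - (Y - (1 - k)) * σ ^ 2) :
    (-C) * ((2 * P + σ ^ 2 * m) * σ * (m + 2) ^ 2) =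
      Y * (σ ^ 2 * m ^ 2 - 4 * P) +
        y * (3 * (σ ^ 2 * m ^ 2) + 4 * (σ ^ 2 * m) + 4 * (m + 1) * P) := by
  have h1 : (-C) * ((2 * P + σ ^ 2 * m) * σ * (m + 2) ^ 2) =
      -((C * (2 * P + σ ^ 2 * m) * σ) * (m + 2) ^ 2) := by ring
  rw [h1, hC]
  linear_combination ((P + σ ^ 2 * m) + σ ^ 2) * hk

/-- the bound for `C` -/
theorem cbound {q Y y m σ P C : ℝ} (hq : 1 ≤ q) (hm : 0 < m) (hσ : 0 < σ) (hY0 : 0 ≤ Y)
    (hY1 : Y ≤ 1) (hy0 : 0 ≤ y) (hy1 : y * m ≤ q + 1) (hP : 4 / 9 ≤ P)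
    (hs4 : 4 * P ≤ σ ^ 2 * m ^ 2) (hsl : 4 / 3 ≤ σ * m) (hsu : σ * m ≤ 1.41422)
    (hd : σ ^ 2 * m ^ 2 - 4 * P ≤ 1 / 9)
    (hC : (-C) * ((2 * P + σ ^ 2 * m) * σ * (m + 2) ^ 2) =
      Y * (σ ^ 2 * m ^ 2 - 4 * P) +
        y * (3 * (σ ^ 2 * m ^ 2) + 4 * (σ ^ 2 * m) + 4 * (m + 1) * P)) :
    -C * m ≤ 1.64 * (q + 1) := by
  by_contra hcon
  push Not at hcon
  have hC0 : 0 < -C * m := lt_trans (by positivity) hcon
  have hC0' : 0 < -C := by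
    by_contra h
    push Not at h
    have := mul_nonpos_of_nonpos_of_nonneg h hm.le
    linarith
  have hN : 0 < (m + 2) ^ 2 := by positivity
  -- lower bound of the left side times m
  have h1 : (8 / 9 : ℝ) ≤ 2 * P + σ ^ 2 * m := by
    have : 0 ≤ σ ^ 2 * m := by positivity
    linarith
  have h2 : (8 / 9 : ℝ) * (σ * (m + 2) ^ 2) ≤ (2 * P + σ ^ 2 * m) * σ * (m + 2) ^ 2 := by
    have := mul_le_mul_of_nonneg_right h1 (by positivity : 0 ≤ σ * (m + 2) ^ 2)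
    linarith
  have h3 : 1.64 * (q + 1) * ((8 / 9 : ℝ) * (σ * (m + 2) ^ 2)) ≤
      (-C * m) * ((2 * P + σ ^ 2 * m) * σ * (m + 2) ^ 2) :=
    mul_le_mul hcon.le h2 (by positivity) hC0.le
  have h4 : (-C * m) * ((2 * P + σ ^ 2 * m) * σ * (m + 2) ^ 2) =
      m * (Y * (σ ^ 2 * m ^ 2 - 4 * P) +
        y * (3 * (σ ^ 2 * m ^ 2) + 4 * (σ ^ 2 * m) + 4 * (m + 1) * P)) := by
    rw [← hC]
    ring
  -- upper bound of the right side
  have h5 : Y * (σ ^ 2 * m ^ 2 - 4 * P) ≤ 1 / 9 := by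
    have := mul_le_mul hY1 hd (by linarith) (by norm_num : (0 : ℝ) ≤ 1)
    linarith
  have h6 : 3 * (σ ^ 2 * m ^ 2) + 4 * (σ ^ 2 * m) + 4 * (m + 1) * P ≤ σ ^ 2 * m * (m + 2) ^ 2 := by
    have := mul_le_mul_of_nonneg_left hs4 (by positivity : (0 : ℝ) ≤ m + 1)
    nlinarith
  have h7 : m * (y * (3 * (σ ^ 2 * m ^ 2) + 4 * (σ ^ 2 * m) + 4 * (m + 1) * P)) ≤
      (q + 1) * (1.41422 * (σ * (m + 2) ^ 2)) := by
    have e1 : m * (y * (3 * (σ ^ 2 * m ^ 2) + 4 * (σ ^ 2 * m) + 4 * (m + 1) * P)) =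
        (y * m) * (3 * (σ ^ 2 * m ^ 2) + 4 * (σ ^ 2 * m) + 4 * (m + 1) * P) := by ring
    rw [e1]
    have h0 : 0 ≤ 3 * (σ ^ 2 * m ^ 2) + 4 * (σ ^ 2 * m) + 4 * (m + 1) * P := by
      have : 0 < P := by linarith
      positivity
    refine mul_le_mul hy1 (h6.trans ?_) h0 (by linarith)
    have e2 : σ ^ 2 * m * (m + 2) ^ 2 = (σ * m) * (σ * (m + 2) ^ 2) := by ring
    rw [e2]
    exact mul_le_mul_of_nonneg_right hsu (by positivity)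
  have h8 : 4 / 3 * m ≤ σ * (m + 2) ^ 2 := by
    have e1 : m * (4 / 3) ≤ m * (σ * m) := mul_le_mul_of_nonneg_left hsl hm.le
    have e2 : m * (σ * m) ≤ σ * (m + 2) ^ 2 := by nlinarith
    linarith
  have h9 : (q + 1) * (4 / 3 * m) ≤ (q + 1) * (σ * (m + 2) ^ 2) :=
    mul_le_mul_of_nonneg_left h8 (by linarith)
  have h10 : 2 * m ≤ (q + 1) * m := mul_le_mul_of_nonneg_right (by linarith) hm.le
  have h11 : m * (Y * (σ ^ 2 * m ^ 2 - 4 * P)) ≤ m * (1 / 9) :=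
    mul_le_mul_of_nonneg_left h5 hm.le
  nlinarith

end LocSolveAux

open LocSolveAux

/-- MODULE RL17. Solution of (E1), (E2), `s = a1 + a2`, `P = a1 a2`, `C = A - B s/m`, `N = m+2`:
`C (s²/m + 2P) = (s/m) N⁻² (-Y m² (1-4P/s²) - y₀ m (3m+4+4m(m+1)P/s²)) < 0`,
`B (P + s²/m) = Y - (1-κ) - C s`, `A = C + B s/m`.
Bounds: `1 - 4P/s² = (a1-a2)²/s²`, `P/s² ≤ 1/4`, `3m+4+m(m+1) = (m+2)²`, so
`-C ≤ (Y (a1-a2)²/(m s) + s y₀)/(2P)`, with `(a1-a2)² ≤ 1/9`, `4/3 ≤ s ≤ √2`, `2P ≥ 8/9`, `Y<1`,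
`y₀ ≤ (q+1)/m`: `-C ≤ (.094 + 1.591 (q+1))/m ≤ 1.64 (q+1)/m`; `s ≤ 1.41422`.
`B P ≤ Y - C s ≤ Y + 2.32 (q+1)/m`; `B (1/2+2/m) ≥ B (P+s²/m) ≥ Y - (1-κ)` (`kap_lower`). -/
theorem loc_solve {q m a1 a2 : ℝ} (hq : 1 ≤ q) (hm : 200 * q ≤ m) (h2 : 0 < a2) (h21 : a2 ≤ a1)
    (hS : a1 ^ 2 + a2 ^ 2 ≤ 1) (hP : 4 / 9 ≤ a1 * a2) :
    ∃ A B : ℝ, kap q m + 2 * A * ((a1 + a2) / m) - B * ((a1 + a2) / m) ^ 2 = 1 - y0 q m ∧
      kap q m - A * (a1 + a2) - B * (a1 * a2) = 1 - YY q ∧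
      A - B * ((a1 + a2) / m) < 0 ∧
      -(A - B * ((a1 + a2) / m)) ≤ 1.64 * (q + 1) / m ∧
      0 < B ∧ B * (a1 * a2) ≤ YY q + 2.32 * (q + 1) / m ∧
      YY q - (q + 1) / m - 4 / m ^ 2 ≤ B * (1 / 2 + 2 / m) := by
  have hm0 : 0 < m := by linarith
  have hm2 : 2 ≤ m := by linarith
  obtain ⟨hY0, hY1⟩ := YY_bounds hq
  obtain ⟨hy0, hy1, hy2⟩ := y0_bounds hq hm2
  obtain ⟨hk0, hk1, hkT⟩ := kap_facts hq hm2
  have hkl := kap_lower hq hm2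
  unfold TT at hkT
  obtain ⟨σ, hσ⟩ : ∃ σ : ℝ, σ = (a1 + a2) / m := ⟨_, rfl⟩
  have hs : a1 + a2 = σ * m := by
    rw [hσ]
    exact (div_mul_cancel₀ _ hm0.ne').symm
  have hσ0 : 0 < σ := by
    rw [hσ]
    apply div_pos (by linarith) hm0
  obtain ⟨P, hPd⟩ : ∃ P : ℝ, P = a1 * a2 := ⟨_, rfl⟩
  rw [← hPd] at hP
  have hs2 : σ ^ 2 * m ^ 2 = (a1 + a2) ^ 2 := by
    rw [hs]
    ring
  have hs4 : 4 * P ≤ σ ^ 2 * m ^ 2 := by
    rw [hs2, hPd]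
    nlinarith [sq_nonneg (a1 - a2)]
  have hsq : σ ^ 2 * m ^ 2 ≤ 2 := by
    rw [hs2]
    nlinarith [sq_nonneg (a1 - a2)]
  have hP2 : 2 * P ≤ 1 := by
    rw [hPd]
    nlinarith [sq_nonneg (a1 - a2)]
  have hd : σ ^ 2 * m ^ 2 - 4 * P ≤ 1 / 9 := by
    have : (a1 + a2) ^ 2 = a1 ^ 2 + a2 ^ 2 + 2 * P := by
      rw [hPd]
      ring
    rw [hs2, this]
    linarith
  have hsm0 : 0 < σ * m := by positivity
  have hsl : 4 / 3 ≤ σ * m := by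
    by_contra h
    push Not at h
    nlinarith
  have hsu : σ * m ≤ 1.41422 := by
    by_contra h
    push Not at h
    nlinarith
  have hw0 : 0 < 2 * P + σ ^ 2 * m := by
    have : 0 < σ ^ 2 * m := by positivity
    linarith
  obtain ⟨A, B, e1, e2, e3, e4⟩ := sys (Y := YY q) (y := y0 q m) (k := kap q m) (m := m)
    (σ := σ) (P := P) hσ0.ne' hw0.ne'
  have hCv := cval hkT e3
  have hy1' : y0 q m * m ≤ q + 1 := by
    rw [le_div_iff₀ hm0] at hy1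
    exact hy1
  have hCb := cbound hq hm0 hσ0 (by linarith) hY1.le hy0.le hy1' hP hs4 hsl hsu hd hCv
  have hCneg : A - B * σ < 0 := by
    by_contra h
    push Not at h
    have h1 : (-(A - B * σ)) * ((2 * P + σ ^ 2 * m) * σ * (m + 2) ^ 2) ≤ 0 :=
      mul_nonpos_of_nonpos_of_nonneg (by linarith) (by positivity)
    have h3 : 0 ≤ YY q * (σ ^ 2 * m ^ 2 - 4 * P) := mul_nonneg (by linarith) (by linarith)
    have h4 : 0 < y0 q m * (3 * (σ ^ 2 * m ^ 2) + 4 * (σ ^ 2 * m) + 4 * (m + 1) * P) := by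
      have : 0 < P := by linarith
      positivity
    linarith
  have hP0 : 0 < P := by linarith
  have hD0 : 0 < P + σ ^ 2 * m := by positivity
  have hCs : 0 < -(A - B * σ) * (σ * m) := mul_pos (by linarith) hsm0
  have hmm : 4 / m ^ 2 ≤ 1 / 100 := by
    rw [div_le_iff₀ (by positivity)]
    nlinarith
  have hqm : (q + 1) / m ≤ 1 / 100 := by
    rw [div_le_iff₀ hm0]
    linarith
  have hBD : YY q - (q + 1) / m - 4 / m ^ 2 ≤ B * (P + σ ^ 2 * m) := by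
    rw [e4]
    linarith
  have hB0 : 0 < B := by
    by_contra h
    push Not at h
    have := mul_nonpos_of_nonpos_of_nonneg h hD0.le
    linarith
  have hCm : -(A - B * σ) ≤ 1.64 * (q + 1) / m := by
    rw [le_div_iff₀ hm0]
    exact hCb
  rw [← hσ, ← hPd, hs]
  refine ⟨A, B, e1, e2, hCneg, hCm, hB0, ?_, ?_⟩
  · have h1 : B * P ≤ B * (P + σ ^ 2 * m) :=
      mul_le_mul_of_nonneg_left (by nlinarith [mul_pos (pow_pos hσ0 2) hm0]) hB0.le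
    have h3 : -(A - B * σ) * (σ * m) ≤ 2.32 * (q + 1) / m := by
      have h5 : -(A - B * σ) * (σ * m) ≤ (1.64 * (q + 1) / m) * 1.41422 :=
        mul_le_mul hCm hsu hsm0.le (by positivity)
      have h6 : (1.64 * (q + 1) / m) * 1.41422 ≤ 2.32 * (q + 1) / m := by
        have h7 : 0 < (q + 1) / m := by positivity
        have h8 : (1.64 * (q + 1) / m) * 1.41422 = (1.64 * 1.41422) * ((q + 1) / m) := by ring
        have h9 : 2.32 * (q + 1) / m = 2.32 * ((q + 1) / m) := by ring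
        rw [h8, h9]
        exact mul_le_mul_of_nonneg_right (by norm_num) h7.le
      exact h5.trans h6
    rw [e4] at h1
    linarith
  · refine hBD.trans (mul_le_mul_of_nonneg_left ?_ hB0.le)
    have h1 : σ ^ 2 * m ≤ 2 / m := by
      rw [le_div_iff₀ hm0]
      nlinarith
    linarith

end Pool.Agent.RieszLin
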