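import Pool.Agent.RieszLin.LocId

set_option autoImplicit false

open Real Finset

namespace Pool.Agent.RieszLin

section

variable {ι : Type*} [DecidableEq ι]

/-- MODULE RL18. Cross sums. `R` = the other indices, `card R = m`, `∑_R a = -s`. With
`η j = a j + s/m` (`∑ η = 0`): `1 - K (i1,j) = (A + B a1) η j - L1`. -/
theorem cross_sum {R : Finset ι} {a : ι → ℝ} {m s a1 κ A B : ℝ} (hm : 0 < m)
    (hR : (R.card : ℝ) = m) (hs : ∑ j ∈ R, a j = -s) :
    ∑ j ∈ R, (1 - (κ - A * (a1 + a j) - B * (a1 * a j))) ^ 2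
      = (A + B * a1) ^ 2 * ∑ j ∈ R, (a j + s / m) ^ 2 + m * LL κ A B m s a1 ^ 2 := by
  have h0 : ∑ j ∈ R, (a j + s / m) = 0 := by
    rw [Finset.sum_add_distrib, hs, Finset.sum_const, nsmul_eq_mul, hR]
    field_simp
    ring
  have h1 : ∀ j ∈ R, (1 - (κ - A * (a1 + a j) - B * (a1 * a j))) ^ 2
      = (A + B * a1) ^ 2 * (a j + s / m) ^ 2
        - 2 * (A + B * a1) * LL κ A B m s a1 * (a j + s / m) + LL κ A B m s a1 ^ 2 := by
    intro j _
    unfold LL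
    ring
  rw [Finset.sum_congr rfl h1, Finset.sum_add_distrib, Finset.sum_sub_distrib, ← Finset.mul_sum,
    ← Finset.mul_sum, h0, Finset.sum_const, nsmul_eq_mul, hR]
  ring

/-- MODULE RL19. Sums over pairs of other indices, `∑ η = 0`, `e = ∑ η²`:
exact value `2(m-2)C²e + B²(e² - ∑η⁴) - 4CB∑η³`, and `|∑η³| ≤ e^(3/2)` (`|η i| ≤ √e`). -/
theorem rest_sum {R : Finset ι} {η : ι → ℝ} {m B C : ℝ} (hB : 0 ≤ B)
    (hR : (R.card : ℝ) = m) (hs : ∑ j ∈ R, η j = 0) :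
    ∑ i ∈ R, ∑ j ∈ R, (if i = j then 0 else (C * (η i + η j) + B * (η i * η j)) ^ 2)
      ≤ 2 * m * C ^ 2 * ∑ j ∈ R, η j ^ 2 + B ^ 2 * (∑ j ∈ R, η j ^ 2) ^ 2
        + 4 * |C| * B * ((∑ j ∈ R, η j ^ 2) * √(∑ j ∈ R, η j ^ 2)) := by
  set e : ℝ := ∑ j ∈ R, η j ^ 2 with he
  have he0 : 0 ≤ e := Finset.sum_nonneg fun j _ => sq_nonneg _
  -- the cubic sum
  have h3 : |∑ j ∈ R, η j ^ 3| ≤ e * √e := by
    refine (Finset.abs_sum_le_sum_abs _ _).trans ?_
    rw [he, Finset.sum_mul]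
    refine Finset.sum_le_sum fun j hj => ?_
    have h4 : |η j| ≤ √e := by
      refine Real.abs_le_sqrt ?_
      exact Finset.single_le_sum (f := fun j => η j ^ 2) (fun i _ => sq_nonneg _) hj
    have h5 : |η j ^ 3| = η j ^ 2 * |η j| := by
      rw [pow_succ, abs_mul, abs_of_nonneg (sq_nonneg _)]
    rw [h5]
    exact mul_le_mul_of_nonneg_left h4 (sq_nonneg _)
  have hrow : ∀ i ∈ R, ∑ j ∈ R, (if i = j then 0 else (C * (η i + η j) + B * (η i * η j)) ^ 2)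
      = C ^ 2 * (m * η i ^ 2 + e) + 2 * C * B * (η i * e) + B ^ 2 * (η i ^ 2 * e)
        - (2 * C * η i + B * η i ^ 2) ^ 2 := by
    intro i hi
    have h6 : ∀ j ∈ R, (if i = j then 0 else (C * (η i + η j) + B * (η i * η j)) ^ 2)
        = (C ^ 2 * η i ^ 2 + (2 * C ^ 2 * η i + 2 * C * B * η i ^ 2) * η j
          + (C ^ 2 + 2 * C * B * η i + B ^ 2 * η i ^ 2) * η j ^ 2)
          - (if i = j then (2 * C * η i + B * η i ^ 2) ^ 2 else 0) := by
      intro j _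
      by_cases hij : i = j
      · subst hij
        rw [if_pos rfl, if_pos rfl]
        ring
      · rw [if_neg hij, if_neg hij]
        ring
    rw [Finset.sum_congr rfl h6, Finset.sum_sub_distrib, Finset.sum_add_distrib,
      Finset.sum_add_distrib, Finset.sum_const, nsmul_eq_mul, hR, ← Finset.mul_sum,
      ← Finset.mul_sum, hs, ← he, Finset.sum_ite_eq, if_pos hi]
    ring
  have htot : ∑ i ∈ R, ∑ j ∈ R, (if i = j then 0 else (C * (η i + η j) + B * (η i * η j)) ^ 2)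
      = 2 * m * C ^ 2 * e + B ^ 2 * e ^ 2 - 4 * C ^ 2 * e - 4 * C * B * ∑ j ∈ R, η j ^ 3
        - B ^ 2 * ∑ j ∈ R, η j ^ 4 := by
    rw [Finset.sum_congr rfl hrow]
    have h7 : ∀ i ∈ R, C ^ 2 * (m * η i ^ 2 + e) + 2 * C * B * (η i * e) + B ^ 2 * (η i ^ 2 * e)
        - (2 * C * η i + B * η i ^ 2) ^ 2
        = (C ^ 2 * m + B ^ 2 * e - 4 * C ^ 2) * η i ^ 2 + C ^ 2 * e + (2 * C * B * e) * η i
          - (4 * C * B) * η i ^ 3 - B ^ 2 * η i ^ 4 := by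
      intro i _
      ring
    rw [Finset.sum_congr rfl h7, Finset.sum_sub_distrib, Finset.sum_sub_distrib,
      Finset.sum_add_distrib, Finset.sum_add_distrib, Finset.sum_const, nsmul_eq_mul, hR,
      ← Finset.mul_sum, ← Finset.mul_sum, ← Finset.mul_sum, ← Finset.mul_sum, hs, ← he]
    ring
  rw [htot]
  have h8 : -(4 * C * B * ∑ j ∈ R, η j ^ 3) ≤ 4 * |C| * B * (e * √e) := by
    have h9 : -(4 * C * B * ∑ j ∈ R, η j ^ 3) ≤ |4 * C * B * ∑ j ∈ R, η j ^ 3| := neg_le_abs _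
    have h10 : |4 * C * B * ∑ j ∈ R, η j ^ 3| = 4 * |C| * B * |∑ j ∈ R, η j ^ 3| := by
      rw [abs_mul, abs_mul, abs_mul, abs_of_nonneg hB, abs_of_nonneg (by norm_num : (0 : ℝ) ≤ 4)]
    rw [h10] at h9
    refine h9.trans (mul_le_mul_of_nonneg_left h3 ?_)
    exact mul_nonneg (mul_nonneg (by norm_num) (abs_nonneg _)) hB
  have h11 : 0 ≤ 4 * C ^ 2 * e := by positivity
  have h12 : 0 ≤ B ^ 2 * ∑ j ∈ R, η j ^ 4 :=
    mul_nonneg (sq_nonneg _) (Finset.sum_nonneg fun j _ => by positivity)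
  linarith

end

end Pool.Agent.RieszLin
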