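import Pool.Agent.RieszLin.PsiSer

set_option autoImplicit false

open Real Finset

namespace Pool.Agent.RieszLin

namespace PsiBdAux

lemma tau_pos {q : ℝ} (hq : 0 < q) : 0 < q / (q + 1) := by positivity

lemma tau_lt {q : ℝ} (hq : 0 < q) : q / (q + 1) < 1 := by
  rw [div_lt_one (by linarith)]
  linarith

lemma psi2_nonneg {q : ℝ} (hq : 0 < q) : 0 ≤ psi2 q := by
  unfold psi2
  positivity

lemma psi3_nonneg {q : ℝ} (hq : 0 < q) : 0 ≤ psi3 q := by
  unfold psi3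
  have h1 := tau_pos hq
  have h2 := tau_lt hq
  have h3 : 0 ≤ 2 - q / (q + 1) := by linarith
  positivity

lemma psi4_nonneg {q : ℝ} (hq : 0 < q) : 0 ≤ psi4 q := by
  unfold psi4
  have h1 := tau_pos hq
  have h2 := tau_lt hq
  have h3 : 0 ≤ 2 - q / (q + 1) := by linarith
  have h4 : 0 ≤ 3 - q / (q + 1) := by linarith
  positivity

lemma bern {a t : ℝ} (ha : 0 ≤ a) (ht : 0 ≤ t) : 1 - a * t ≤ (1 + t) ^ (-a) := by
  have h1 : (0 : ℝ) < 1 + t := by linarith
  rw [Real.rpow_def_of_pos h1]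
  have h2 := Real.add_one_le_exp (Real.log (1 + t) * -a)
  have h3 := Real.log_le_sub_one_of_pos h1
  nlinarith [mul_le_mul_of_nonneg_left h3 ha]

lemma quad {a t : ℝ} (ha0 : 0 < a) (ha1 : a < 1) (ht : 0 ≤ t) :
    1 + a * t - a * (1 - a) / 2 * t ^ 2 ≤ (1 + t) ^ a := by
  have hmono : MonotoneOn (fun t : ℝ => (1 + t) ^ a - (1 + a * t - a * (1 - a) / 2 * t ^ 2))
      (Set.Ici 0) := by
    have hd : ∀ x : ℝ, 0 ≤ x → HasDerivAt
        (fun t : ℝ => (1 + t) ^ a - (1 + a * t - a * (1 - a) / 2 * t ^ 2))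
        (a * (1 + x) ^ (a - 1) - (a - a * (1 - a) * x)) x := by
      intro x hx
      have h1 : HasDerivAt (fun t : ℝ => 1 + t) 1 x := by
        simpa using (hasDerivAt_id x).const_add (1 : ℝ)
      have h2 : HasDerivAt (fun t : ℝ => (1 + t) ^ a) (1 * a * (1 + x) ^ (a - 1)) x :=
        h1.rpow_const (Or.inl (by linarith))
      have h3 : HasDerivAt (fun t : ℝ => 1 + a * t - a * (1 - a) / 2 * t ^ 2)
          (a - a * (1 - a) * x) x := by
        have h4 : HasDerivAt (fun t : ℝ => a * t) a x := by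
          simpa using (hasDerivAt_id x).const_mul a
        have h5 : HasDerivAt (fun t : ℝ => a * (1 - a) / 2 * t ^ 2)
            (a * (1 - a) / 2 * (2 * x)) x := by
          have := (hasDerivAt_pow 2 x).const_mul (a * (1 - a) / 2)
          simpa using this
        have h6 := (h4.const_add 1).sub h5
        refine HasDerivAt.congr_deriv h6 ?_
        ring
      have h7 := h2.sub h3
      refine HasDerivAt.congr_deriv h7 ?_
      ring
    refine monotoneOn_of_deriv_nonneg (convex_Ici 0) ?_ ?_ ?_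
    · intro x hx
      exact (hd x hx).continuousAt.continuousWithinAt
    · intro x hx
      rw [interior_Ici] at hx
      exact (hd x (le_of_lt hx)).differentiableAt.differentiableWithinAt
    · intro x hx
      rw [interior_Ici] at hx
      have hx' : (0 : ℝ) ≤ x := le_of_lt hx
      rw [(hd x hx').deriv]
      have h8 := bern (a := 1 - a) (t := x) (by linarith) hx'
      have h9 : -(1 - a) = a - 1 := by ring
      rw [h9] at h8
      nlinarith [mul_le_mul_of_nonneg_left h8 ha0.le]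
  have h := hmono (Set.mem_Ici.2 le_rfl) (Set.mem_Ici.2 ht) ht
  simp only [add_zero, Real.one_rpow, mul_zero] at h
  norm_num at h
  linarith

/-- the tail of the series from `n = 4` on -/
lemma tail {q : ℝ} {c : ℕ → ℝ} (h0 : c 0 = 0) (h1 : c 1 = 0) (h2 : c 2 = psi2 q)
    (h3 : c 3 = psi3 q) {y : ℝ} (h : HasSum (fun n => c n * y ^ n) (Psi q y)) :
    HasSum (fun n => c (n + 4) * y ^ (n + 4)) (Psi q y - psi2 q * y ^ 2 - psi3 q * y ^ 3) := by
  have h4 := (hasSum_nat_add_iff' 4).2 h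
  have e : Psi q y - psi2 q * y ^ 2 - psi3 q * y ^ 3
      = Psi q y - ∑ i ∈ Finset.range 4, c i * y ^ i := by
    simp only [Finset.sum_range_succ, Finset.sum_range_zero, h0, h1, h2, h3]
    ring
  rw [e]
  exact h4

end PsiBdAux

open PsiBdAux

/-- MODULE RL6. Consequences of `Psi_series`.
For `y ≤ 0`: `(1+t)^τ ≥ 1 + τ t - τ(1-τ)/2 t²` for `t = -y ≥ 0`, `0<τ<1`
(note `p τ = q`, `p τ (1-τ)/2 = q/(2p) = psi2`).  Proof e.g. by monotonicity:
`f(t) = (1+t)^τ - 1 - τ t + τ(1-τ)/2 t²`, `f(0)=0`, `f'(t) = τ[(1+t)^(τ-1) - 1 + (1-τ) t] ≥ 0` by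
Bernoulli (`one_add_mul_self_le_rpow_one_add` for the exponent `τ - 1 < 0`). -/
theorem Psi_neg {q y : ℝ} (hq : 0 < q) (hy : y ≤ 0) : Psi q y ≤ psi2 q * y ^ 2 := by
  have h := quad (tau_pos hq) (tau_lt hq) (t := -y) (by linarith)
  have hq1 : (0 : ℝ) < q + 1 := by linarith
  have h2 := mul_le_mul_of_nonneg_left h hq1.le
  have e : (q + 1) * (1 + q / (q + 1) * -y - q / (q + 1) * (1 - q / (q + 1)) / 2 * (-y) ^ 2)
      = (q + 1) - q * y - q / (q + 1) / 2 * y ^ 2 := by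
    field_simp
    ring
  rw [e] at h2
  unfold Psi psi2
  have e2 : (1 : ℝ) - y = 1 + -y := by ring
  rw [e2]
  linarith

/-- all terms of the series from `n = 2` on are nonnegative -/
theorem Psi_lower {q y : ℝ} (hq : 0 < q) (hy : 0 ≤ y) (hy1 : y < 1) :
    psi2 q * y ^ 2 + psi3 q * y ^ 3 ≤ Psi q y := by
  obtain ⟨c, h0, h1, h2, h3, h4, hn, hm, hs⟩ := Psi_series hq
  have h := hs y (by rw [abs_of_nonneg hy]; exact hy1)
  have ht := tail h0 h1 h2 h3 h
  have hnn : 0 ≤ Psi q y - psi2 q * y ^ 2 - psi3 q * y ^ 3 :=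
    ht.nonneg (fun n => mul_nonneg (hn _) (pow_nonneg hy _))
  linarith

/-- for `0 ≤ y ≤ Y < 1`, `n ≥ 4`: `y^n ≤ Y^n (y/Y)^4`; `Y > 0`. -/
theorem Psi_quartic {q y Y : ℝ} (hq : 0 < q) (hy : 0 ≤ y) (hyY : y ≤ Y) (hY0 : 0 < Y) (hY : Y < 1) :
    Psi q y ≤ psi2 q * y ^ 2 + psi3 q * y ^ 3
      + (Psi q Y - psi2 q * Y ^ 2 - psi3 q * Y ^ 3) * (y / Y) ^ 4 := by
  obtain ⟨c, h0, h1, h2, h3, h4, hn, hm, hs⟩ := Psi_series hq
  have hy1 : y < 1 := lt_of_le_of_lt hyY hY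
  have h := tail h0 h1 h2 h3 (hs y (by rw [abs_of_nonneg hy]; exact hy1))
  have hY' := tail h0 h1 h2 h3 (hs Y (by rw [abs_of_nonneg hY0.le]; exact hY))
  have hY'' := hY'.mul_right ((y / Y) ^ 4)
  have hle := hasSum_le (fun n => ?_) h hY''
  · linarith
  · have e : c (n + 4) * Y ^ (n + 4) * (y / Y) ^ 4 = c (n + 4) * (Y ^ n * y ^ 4) := by
      rw [div_pow, pow_add]
      field_simp
    rw [e, pow_add]
    exact mul_le_mul_of_nonneg_left
      (mul_le_mul_of_nonneg_right (pow_le_pow_left₀ hy hyY n) (pow_nonneg hy 4)) (hn _)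

/-- `c (n+1) ≤ c n` for `n ≥ 2`, so `∑_{n≥4} c n y^n ≤ psi4 y^4/(1-y)`; together with `Psi_neg`
for negative `y` (`psi3, psi4 ≥ 0`). Here `y ≤ z < 1`, `0 ≤ z`. -/
theorem Psi_loc {q y z : ℝ} (hq : 0 < q) (hyz : y ≤ z) (hz0 : 0 ≤ z) (hz : z < 1) :
    Psi q y ≤ (psi2 q + psi3 q * z + psi4 q * z ^ 2 / (1 - z)) * y ^ 2 := by
  have hz1 : 0 < 1 - z := by linarith
  rcases le_or_gt y 0 with hy | hy
  · refine (Psi_neg hq hy).trans ?_
    refine mul_le_mul_of_nonneg_right ?_ (sq_nonneg y)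
    have h3 := mul_nonneg (psi3_nonneg hq) hz0
    have h4 : 0 ≤ psi4 q * z ^ 2 / (1 - z) :=
      div_nonneg (mul_nonneg (psi4_nonneg hq) (sq_nonneg z)) hz1.le
    linarith
  · obtain ⟨c, h0, h1, h2, h3, h4, hn, hm, hs⟩ := Psi_series hq
    have hy1 : y < 1 := lt_of_le_of_lt hyz hz
    have hy1' : 0 < 1 - y := by linarith
    have h := tail h0 h1 h2 h3 (hs y (by rw [abs_of_nonneg hy.le]; exact hy1))
    have hc : ∀ n, c (n + 4) ≤ psi4 q := by
      intro n
      induction n with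
      | zero => rw [← h4]
      | succ k ih =>
        have := hm (k + 4) (by omega)
        have e : k + 1 + 4 = k + 4 + 1 := by omega
        rw [e]
        exact this.trans ih
    have hg : HasSum (fun n : ℕ => psi4 q * y ^ 4 * y ^ n) (psi4 q * y ^ 4 * (1 - y)⁻¹) :=
      (hasSum_geometric_of_lt_one hy.le hy1).mul_left _
    have hle := hasSum_le (fun n => ?_) h hg
    · have hA : psi4 q * y ^ 4 * (1 - y)⁻¹ ≤ psi4 q * z ^ 2 / (1 - z) * y ^ 2 := by
        have e1 : psi4 q * y ^ 4 * (1 - y)⁻¹ = psi4 q * y ^ 2 * (y ^ 2 * (1 - y)⁻¹) := by ring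
        have e2 : psi4 q * z ^ 2 / (1 - z) * y ^ 2
            = psi4 q * y ^ 2 * (z ^ 2 * (1 - z)⁻¹) := by
          rw [div_eq_mul_inv]; ring
        rw [e1, e2]
        refine mul_le_mul_of_nonneg_left ?_ (mul_nonneg (psi4_nonneg hq) (sq_nonneg y))
        refine mul_le_mul (pow_le_pow_left₀ hy.le hyz 2) ?_ (inv_nonneg.2 hy1'.le) (sq_nonneg z)
        exact inv_anti₀ hz1 (by linarith)
      have hB : psi3 q * y ^ 3 ≤ psi3 q * z * y ^ 2 := by
        have e1 : psi3 q * y ^ 3 = psi3 q * y * y ^ 2 := by ring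
        rw [e1]
        exact mul_le_mul_of_nonneg_right (mul_le_mul_of_nonneg_left hyz (psi3_nonneg hq))
          (sq_nonneg y)
      have e3 : (psi2 q + psi3 q * z + psi4 q * z ^ 2 / (1 - z)) * y ^ 2
          = psi2 q * y ^ 2 + psi3 q * z * y ^ 2 + psi4 q * z ^ 2 / (1 - z) * y ^ 2 := by ring
      rw [e3]
      linarith
    · have e : psi4 q * y ^ 4 * y ^ n = psi4 q * y ^ (n + 4) := by rw [pow_add]; ring
      rw [e]
      exact mul_le_mul_of_nonneg_right (hc n) (pow_nonneg hy.le _)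

/-- `Ψ(Y) = 1 - (q+2) 2^(-q)/2` (`(1-Y)^(q/(q+1)) = 2^(-q)`). -/
theorem Psi_YY {q : ℝ} (hq : 0 < q) : Psi q (YY q) = 1 - (q + 2) * (2 : ℝ) ^ (-q) / 2 := by
  have hq1 : (q + 1) ≠ 0 := by linarith
  unfold Psi YY
  have e1 : (1 : ℝ) - (1 - 2 ^ (-(q + 1))) = 2 ^ (-(q + 1)) := by ring
  rw [e1, ← Real.rpow_mul (by norm_num : (0 : ℝ) ≤ 2)]
  have e2 : -(q + 1) * (q / (q + 1)) = -q := by field_simp
  have e3 : (2 : ℝ) ^ (-(q + 1)) = 2 ^ (-q) / 2 := by
    have : -(q + 1) = -q - 1 := by ring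
    rw [this, Real.rpow_sub_one (by norm_num)]
  rw [e2, e3]
  ring

end Pool.Agent.RieszLin
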