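import Pool.Agent.RieszLin.Defs

set_option autoImplicit false

open Real Finset

namespace Pool.Agent.RieszLin

section

variable {ι : Type*} [Fintype ι] [DecidableEq ι] {a : ι → ℝ}

namespace PowSumAux

lemma offsum_sq (b : ι → ℝ) : offsum (fun i j => b i * b j) = (∑ i, b i) ^ 2 - ∑ i, b i ^ 2 := by
  rw [offsum_mulfun]
  simp only [← pow_two]

/-- `∑ a^4 ≥ 0`. -/
lemma A4_nonneg : 0 ≤ ∑ i, a i ^ 4 := Finset.sum_nonneg (fun i _ => by positivity)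

lemma A6_ge (h2 : ∑ i, a i ^ 2 = 1) : (∑ i, a i ^ 4) ^ 2 ≤ ∑ i, a i ^ 6 := by
  have h := Finset.sum_mul_sq_le_sq_mul_sq (univ : Finset ι) a (fun i => a i ^ 3)
  have e1 : ∑ i, a i * a i ^ 3 = ∑ i, a i ^ 4 := Finset.sum_congr rfl (fun i _ => by ring)
  have e2 : ∑ i, (a i ^ 3) ^ 2 = ∑ i, a i ^ 6 := Finset.sum_congr rfl (fun i _ => by ring)
  rw [e1, e2, h2, one_mul] at h
  exact h

lemma A6_sq (a : ι → ℝ) : (∑ i, a i ^ 6) ^ 2 ≤ (∑ i, a i ^ 4) * ∑ i, a i ^ 8 := by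
  have h := Finset.sum_mul_sq_le_sq_mul_sq (univ : Finset ι) (fun i => a i ^ 2) (fun i => a i ^ 4)
  have e1 : ∑ i, a i ^ 2 * a i ^ 4 = ∑ i, a i ^ 6 := Finset.sum_congr rfl (fun i _ => by ring)
  have e2 : ∑ i, (a i ^ 2) ^ 2 = ∑ i, a i ^ 4 := Finset.sum_congr rfl (fun i _ => by ring)
  have e3 : ∑ i, (a i ^ 4) ^ 2 = ∑ i, a i ^ 8 := Finset.sum_congr rfl (fun i _ => by ring)
  rw [e1, e2, e3] at h
  exact h

/-- Cauchy for the third powers of a family with `∑ u² ≤ 1`. -/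
lemma cube_sq (u : ι → ℝ) (hu : ∑ i, u i ^ 2 ≤ 1) : (∑ i, u i ^ 3) ^ 2 ≤ ∑ i, u i ^ 4 := by
  have h := Finset.sum_mul_sq_le_sq_mul_sq (univ : Finset ι) u (fun i => u i ^ 2)
  have e1 : ∑ i, u i * u i ^ 2 = ∑ i, u i ^ 3 := Finset.sum_congr rfl (fun i _ => by ring)
  have e2 : ∑ i, (u i ^ 2) ^ 2 = ∑ i, u i ^ 4 := Finset.sum_congr rfl (fun i _ => by ring)
  rw [e1, e2] at h
  have h4 : 0 ≤ ∑ i, u i ^ 4 := A4_nonneg
  nlinarith

lemma max_cases (x : ℝ) : (max x 0 = x ∧ max (-x) 0 = 0) ∨ (max x 0 = 0 ∧ max (-x) 0 = -x) := by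
  rcases le_total 0 x with h | h
  · left; exact ⟨max_eq_left h, max_eq_right (by linarith)⟩
  · right; exact ⟨max_eq_right h, max_eq_left (by linarith)⟩

lemma max_prod (x y : ℝ) : max (x * y) 0 ^ 3
    = max x 0 ^ 3 * max y 0 ^ 3 + max (-x) 0 ^ 3 * max (-y) 0 ^ 3 := by
  rcases le_total 0 x with hx | hx <;> rcases le_total 0 y with hy | hy
  · rw [max_eq_left (mul_nonneg hx hy), max_eq_left hx, max_eq_left hy,
      max_eq_right (by linarith : -x ≤ 0)]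
    ring
  · rw [max_eq_right (mul_nonpos_of_nonneg_of_nonpos hx hy), max_eq_right hy,
      max_eq_right (by linarith : -x ≤ 0)]
    ring
  · rw [max_eq_right (mul_nonpos_of_nonpos_of_nonneg hx hy), max_eq_right hx,
      max_eq_right (by linarith : -y ≤ 0)]
    ring
  · rw [max_eq_left (mul_nonneg_of_nonpos_of_nonpos hx hy), max_eq_right hx, max_eq_right hy,
      max_eq_left (by linarith : 0 ≤ -x), max_eq_left (by linarith : 0 ≤ -y)]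
    ring

lemma max_split (x : ℝ) (n : ℕ) (hn : n ≠ 0) (he : Even n) :
    max x 0 ^ n + max (-x) 0 ^ n = x ^ n := by
  rcases max_cases x with ⟨h1, h2⟩ | ⟨h1, h2⟩
  · rw [h1, h2, zero_pow hn, add_zero]
  · rw [h1, h2, zero_pow hn, zero_add, he.neg_pow]

end PowSumAux

open PowSumAux

/-- MODULE RL4. Power sums, `x = ∑ a^4`, for `∑ a² = 1`. -/
theorem A4_bounds (h2 : ∑ i, a i ^ 2 = 1) : 0 ≤ ∑ i, a i ^ 4 ∧ ∑ i, a i ^ 4 ≤ 1 := by
  refine ⟨A4_nonneg, ?_⟩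
  have h : ∑ i, a i ^ 4 ≤ ∑ i, a i ^ 2 := by
    refine Finset.sum_le_sum (fun i _ => ?_)
    have h1 : a i ^ 2 ≤ 1 := by
      rw [← h2]
      exact Finset.single_le_sum (f := fun i => a i ^ 2) (fun j _ => sq_nonneg _)
        (Finset.mem_univ i)
    nlinarith [sq_nonneg (a i)]
  rw [h2] at h
  exact h

theorem offsum_two (h2 : ∑ i, a i ^ 2 = 1) :
    offsum (fun i j => (a i * a j) ^ 2) = 1 - ∑ i, a i ^ 4 := by
  have e : offsum (fun i j => (a i * a j) ^ 2) = offsum (fun i j => a i ^ 2 * a j ^ 2) :=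
    offsum_congr (fun i j _ => by ring)
  rw [e, offsum_sq (fun i => a i ^ 2), h2]
  have e2 : ∑ i, (a i ^ 2) ^ 2 = ∑ i, a i ^ 4 := Finset.sum_congr rfl (fun i _ => by ring)
  rw [e2]
  ring

/-- With `u = max a 0`, `v = max (-a) 0`: `(max (a i * a j) 0)^3 = (u i * u j)^3 + (v i * v j)^3`,
so the sum over `i ≠ j` is `(∑u³)² + (∑v³)² - ∑ a^6` (`∑ u^6 + ∑ v^6 = ∑ a^6`).
Cauchy: `(∑u³)² ≤ (∑u²)(∑u⁴) ≤ ∑u⁴` (`∑u² ≤ 1`), same for `v`, `∑u⁴+∑v⁴ = ∑ a⁴`.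
`∑ a^6 ≥ (∑ a^4)²` (Cauchy with `a`, `a³`). -/
theorem offsum_three (h2 : ∑ i, a i ^ 2 = 1) :
    offsum (fun i j => max (a i * a j) 0 ^ 3) ≤ ∑ i, a i ^ 4 - (∑ i, a i ^ 4) ^ 2 := by
  have e : offsum (fun i j => max (a i * a j) 0 ^ 3)
      = offsum (fun i j => max (a i) 0 ^ 3 * max (a j) 0 ^ 3
        + max (-a i) 0 ^ 3 * max (-a j) 0 ^ 3) :=
    offsum_congr (fun i j _ => max_prod _ _)
  rw [e, offsum_add, offsum_sq (fun i => max (a i) 0 ^ 3), offsum_sq (fun i => max (-a i) 0 ^ 3)]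
  have s2 : ∑ i, max (a i) 0 ^ 2 + ∑ i, max (-a i) 0 ^ 2 = 1 := by
    rw [← Finset.sum_add_distrib, ← h2]
    exact Finset.sum_congr rfl (fun i _ => max_split _ 2 (by norm_num) (by decide))
  have s4 : ∑ i, max (a i) 0 ^ 4 + ∑ i, max (-a i) 0 ^ 4 = ∑ i, a i ^ 4 := by
    rw [← Finset.sum_add_distrib]
    exact Finset.sum_congr rfl (fun i _ => max_split _ 4 (by norm_num) (by decide))
  have s6 : ∑ i, (max (a i) 0 ^ 3) ^ 2 + ∑ i, (max (-a i) 0 ^ 3) ^ 2 = ∑ i, a i ^ 6 := by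
    rw [← Finset.sum_add_distrib]
    refine Finset.sum_congr rfl (fun i _ => ?_)
    rw [← pow_mul, ← pow_mul]
    exact max_split _ 6 (by norm_num) (by decide)
  have pu : 0 ≤ ∑ i, max (a i) 0 ^ 2 := Finset.sum_nonneg (fun i _ => sq_nonneg _)
  have pv : 0 ≤ ∑ i, max (-a i) 0 ^ 2 := Finset.sum_nonneg (fun i _ => sq_nonneg _)
  have cu := cube_sq (fun i => max (a i) 0) (by linarith)
  have cv := cube_sq (fun i => max (-a i) 0) (by linarith)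
  have h6 := A6_ge h2
  linarith

/-- The sum is `(∑a⁴)² - ∑a⁸` and `∑a⁸ ≥ (∑a⁴)³`: `(∑a⁶)² ≤ (∑a⁴)(∑a⁸)`, `∑a⁶ ≥ (∑a⁴)²`. -/
theorem offsum_four (h2 : ∑ i, a i ^ 2 = 1) :
    offsum (fun i j => (a i * a j) ^ 4) ≤ (∑ i, a i ^ 4) ^ 2 - (∑ i, a i ^ 4) ^ 3 := by
  have e : offsum (fun i j => (a i * a j) ^ 4) = offsum (fun i j => a i ^ 4 * a j ^ 4) :=
    offsum_congr (fun i j _ => by ring)
  rw [e, offsum_sq (fun i => a i ^ 4)]
  have e2 : ∑ i, (a i ^ 4) ^ 2 = ∑ i, a i ^ 8 := Finset.sum_congr rfl (fun i _ => by ring)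
  rw [e2]
  have h6 := A6_ge h2
  have h8 := A6_sq a
  have hx : 0 ≤ ∑ i, a i ^ 4 := A4_nonneg
  have h8' : 0 ≤ ∑ i, a i ^ 8 := Finset.sum_nonneg (fun i _ => by positivity)
  have key : (∑ i, a i ^ 4) ^ 3 ≤ ∑ i, a i ^ 8 := by
    rcases hx.eq_or_lt with h0 | h0
    · rw [← h0]; simpa using h8'
    · have h4 : (∑ i, a i ^ 4) ^ 4 ≤ (∑ i, a i ^ 4) * ∑ i, a i ^ 8 := by
        calc (∑ i, a i ^ 4) ^ 4 = ((∑ i, a i ^ 4) ^ 2) ^ 2 := by ring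
          _ ≤ (∑ i, a i ^ 6) ^ 2 := by
            apply pow_le_pow_left₀ (by positivity) h6
          _ ≤ _ := h8
      have : (∑ i, a i ^ 4) * (∑ i, a i ^ 4) ^ 3 ≤ (∑ i, a i ^ 4) * ∑ i, a i ^ 8 := by
        calc (∑ i, a i ^ 4) * (∑ i, a i ^ 4) ^ 3 = (∑ i, a i ^ 4) ^ 4 := by ring
          _ ≤ _ := h4
      exact le_of_mul_le_mul_left this h0
  linarith

end

end Pool.Agent.RieszLin
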