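import Pool.Agent.RieszLin.Defs

set_option autoImplicit false

open Real Finset

namespace Pool.Agent.RieszLin

/-- MODULE RL5. The function `Ψ`. -/
theorem Psi_zero {q : ℝ} (_hq : 0 < q) : Psi q 0 = 0 := by
  unfold Psi
  rw [sub_zero, Real.one_rpow]
  ring

/-- the coefficients -/
private noncomputable def psiC (q : ℝ) : ℕ → ℝ
  | 0 => 0
  | 1 => 0
  | n + 2 => -(q + 1) * RieszSmall.W (q / (q + 1) - 1) n

private lemma psiC_two {q : ℝ} (hq : 0 < q) : psiC q 2 = psi2 q := by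
  show -(q + 1) * RieszSmall.W (q / (q + 1) - 1) 0 = psi2 q
  rw [RieszSmall.W_zero]
  unfold psi2
  have : q + 1 ≠ 0 := by linarith
  field_simp
  ring

private lemma psiC_succ {q : ℝ} (n : ℕ) :
    psiC q (n + 3) = psiC q (n + 2) * ((n + 2 - q / (q + 1)) / (n + 3)) := by
  show -(q + 1) * RieszSmall.W (q / (q + 1) - 1) (n + 1) =
    (-(q + 1) * RieszSmall.W (q / (q + 1) - 1) n) * ((n + 2 - q / (q + 1)) / (n + 3))
  rw [RieszSmall.W_succ]
  ring

private lemma tau_lt {q : ℝ} (hq : 0 < q) : q / (q + 1) < 1 := by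
  rw [div_lt_one (by linarith)]
  linarith

private lemma psiC_nonneg {q : ℝ} (hq : 0 < q) : ∀ n, 0 ≤ psiC q n := by
  have h2 : ∀ n : ℕ, 0 ≤ psiC q (n + 2) := by
    intro n
    induction n with
    | zero =>
      show 0 ≤ psiC q 2
      rw [psiC_two hq]
      unfold psi2
      positivity
    | succ n ih =>
      show 0 ≤ psiC q (n + 3)
      rw [psiC_succ]
      have h1 := tau_lt hq
      have h3 : (0 : ℝ) ≤ n := Nat.cast_nonneg n
      exact mul_nonneg ih (div_nonneg (by linarith) (by linarith))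
  intro n
  match n with
  | 0 => exact le_rfl
  | 1 => exact le_rfl
  | n + 2 => exact h2 n

/-- Power series with nonnegative coefficients, ratio of consecutive coefficients
`(n - τ)/(n + 1)`, `n ≥ 2` (`τ = q/(q+1)`): there is `c : ℕ → ℝ` with `c 2 = psi2`, `c 3 = psi3`,
`c 4 = psi4`, `c 0 = c 1 = 0`, `c (n+1) = c n * (n - τ)/(n+1)` for `n ≥ 2`, and
`HasSum (fun n => c n * y^n) (Psi q y)` for `|y| < 1`.
(Use `hasSum_choose` in RieszSmall/Series.lean: `(1 - y)^τ = ∑ Ring.choose τ n (-y)^n`, or the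
binomial series of Mathlib.) -/
theorem Psi_series {q : ℝ} (hq : 0 < q) : ∃ c : ℕ → ℝ, c 0 = 0 ∧ c 1 = 0 ∧ c 2 = psi2 q ∧
    c 3 = psi3 q ∧ c 4 = psi4 q ∧ (∀ n, 0 ≤ c n) ∧ (∀ n, 2 ≤ n → c (n + 1) ≤ c n) ∧
    ∀ y : ℝ, |y| < 1 → HasSum (fun n => c n * y ^ n) (Psi q y) := by
  have h3 : psiC q 3 = psi3 q := by
    have := psiC_succ (q := q) 0
    simp only [zero_add, Nat.cast_zero] at this
    rw [this, psiC_two hq]
    unfold psi2 psi3
    ring
  have h4 : psiC q 4 = psi4 q := by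
    have := psiC_succ (q := q) 1
    simp only [Nat.cast_one] at this
    norm_num at this
    rw [this, h3]
    unfold psi3 psi4
    ring
  refine ⟨psiC q, rfl, rfl, psiC_two hq, h3, h4, psiC_nonneg hq, ?_, ?_⟩
  · intro n hn
    obtain ⟨m, rfl⟩ : ∃ m, n = m + 2 := ⟨n - 2, by omega⟩
    show psiC q (m + 3) ≤ psiC q (m + 2)
    rw [psiC_succ]
    have h0 := psiC_nonneg hq (m + 2)
    have h1 : 0 < q / (q + 1) := by positivity
    have h5 : (0 : ℝ) ≤ m := Nat.cast_nonneg m
    refine mul_le_of_le_one_right h0 ?_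
    rw [div_le_one (by linarith)]
    linarith
  · intro y hy
    have h := (RieszSmall.hasSum_W (q / (q + 1) - 1) hy).mul_left (-(q + 1))
    have e1 : -(q + 1) * ((1 - y) ^ (q / (q + 1) - 1 + 1) - 1 + (1 + (q / (q + 1) - 1)) * y) =
        Psi q y - ∑ i ∈ range 2, psiC q i * y ^ i := by
      rw [Finset.sum_range_succ, Finset.sum_range_one]
      show _ = Psi q y - (0 * y ^ 0 + 0 * y ^ 1)
      rw [sub_add_cancel]
      unfold Psi
      have : q + 1 ≠ 0 := by linarith
      field_simp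
      ring
    rw [e1] at h
    rw [← hasSum_nat_add_iff' 2]
    refine h.congr_fun ?_ |> fun h' => h'
    intro n
    show -(q + 1) * RieszSmall.W (q / (q + 1) - 1) n * y ^ (n + 2) =
      -(q + 1) * (RieszSmall.W (q / (q + 1) - 1) n * y ^ (n + 2))
    ring

end Pool.Agent.RieszLin
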