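import Pool.Agent.RieszLin.PsiBd
import Pool.Agent.RieszLin.PowSum

set_option autoImplicit false

open Real Finset

namespace Pool.Agent.RieszLin

section

variable {ι : Type*} [Fintype ι] [DecidableEq ι] {a : ι → ℝ}

/-- MODULE RL12. Upper bound for the sum of `Ψ`, with `z > 0`, all products `a i a j ≤ 1/z`,
`x = ∑ a⁴`, `Y = YY q`.
Pointwise, with `v = Y z (a i a j)`: if `a i a j ≥ 0` then `0 ≤ v ≤ Y` and `Psi_quartic` applies;
if `< 0` use `Psi_neg`; in both cases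
`Ψ(v) ≤ psi2 Y² z² (a i a j)² + psi3 Y³ z³ (max (a i a j) 0)³ + c4 z⁴ (a i a j)⁴`,
`c4 = Ψ(Y) - psi2 Y² - psi3 Y³ ≥ 0` (`Psi_lower`). Then sum with `offsum_two/three/four`. -/
theorem Psi_sum {q z : ℝ} (hq : 1 ≤ q) (hz : 0 < z) (h2 : ∑ i, a i ^ 2 = 1)
    (hP : ∀ i j, i ≠ j → z * (a i * a j) ≤ 1) :
    offsum (fun i j => Psi q (YY q * z * (a i * a j)))
      ≤ psi2 q * YY q ^ 2 * z ^ 2 * (1 - ∑ i, a i ^ 4)
        + psi3 q * YY q ^ 3 * z ^ 3 * (∑ i, a i ^ 4 - (∑ i, a i ^ 4) ^ 2)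
        + (Psi q (YY q) - psi2 q * YY q ^ 2 - psi3 q * YY q ^ 3) * z ^ 4
          * ((∑ i, a i ^ 4) ^ 2 - (∑ i, a i ^ 4) ^ 3) := by
  have h20 : (0 : ℝ) < 2 ^ (-(q + 1)) := Real.rpow_pos_of_pos (by norm_num) _
  have h21 : (2 : ℝ) ^ (-(q + 1)) < 1 := Real.rpow_lt_one_of_one_lt_of_neg (by norm_num) (by linarith)
  have hY0 : 0 < YY q := by unfold YY; linarith
  have hY1 : YY q < 1 := by unfold YY; linarith
  have hq0 : 0 < q := by linarith
  have hc4 : 0 ≤ Psi q (YY q) - psi2 q * YY q ^ 2 - psi3 q * YY q ^ 3 := by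
    have := Psi_lower hq0 hY0.le hY1
    linarith
  have hr0 : 0 ≤ q / (q + 1) := by positivity
  have hr1 : q / (q + 1) ≤ 1 := by
    rw [div_le_one (by linarith)]
    linarith
  have hp3 : 0 ≤ psi3 q := by
    unfold psi3
    have h4 : 0 ≤ 2 - q / (q + 1) := by linarith
    positivity
  set c4 := Psi q (YY q) - psi2 q * YY q ^ 2 - psi3 q * YY q ^ 3 with hc4d
  set Y := YY q with hYd
  have hpt : ∀ i j, i ≠ j → Psi q (Y * z * (a i * a j))
      ≤ (psi2 q * Y ^ 2 * z ^ 2) * (a i * a j) ^ 2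
        + ((psi3 q * Y ^ 3 * z ^ 3) * (max (a i * a j) 0 ^ 3)
          + (c4 * z ^ 4) * (a i * a j) ^ 4) := by
    intro i j hij
    have hP1 := hP i j hij
    rcases le_or_gt 0 (a i * a j) with h0 | h0
    · rw [max_eq_left h0]
      have hy : 0 ≤ Y * z * (a i * a j) := by positivity
      have hyY : Y * z * (a i * a j) ≤ Y := by
        have h5 : Y * (z * (a i * a j)) ≤ Y * 1 := mul_le_mul_of_nonneg_left hP1 hY0.le
        nlinarith
      have h6 := Psi_quartic hq0 hy hyY hY0 hY1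
      have h7 : Y * z * (a i * a j) / Y = z * (a i * a j) := by
        rw [mul_assoc]
        exact mul_div_cancel_left₀ _ hY0.ne'
      rw [h7] at h6
      refine h6.trans (le_of_eq ?_)
      rw [hc4d]
      ring
    · rw [max_eq_right h0.le]
      have hy : Y * z * (a i * a j) ≤ 0 :=
        mul_nonpos_of_nonneg_of_nonpos (by positivity) h0.le
      have h6 := Psi_neg hq0 hy
      have h8 : 0 ≤ (c4 * z ^ 4) * (a i * a j) ^ 4 := by positivity
      have h9 : psi2 q * (Y * z * (a i * a j)) ^ 2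
          = (psi2 q * Y ^ 2 * z ^ 2) * (a i * a j) ^ 2 := by ring
      rw [h9] at h6
      have h10 : (psi3 q * Y ^ 3 * z ^ 3) * (0 : ℝ) ^ 3 = 0 := by ring
      rw [h10]
      linarith
  refine (offsum_le hpt).trans ?_
  rw [offsum_add, offsum_add, offsum_mul, offsum_mul, offsum_mul, offsum_two h2]
  have h11 := mul_le_mul_of_nonneg_left (offsum_three h2)
    (by positivity : 0 ≤ psi3 q * Y ^ 3 * z ^ 3)
  have h12 := mul_le_mul_of_nonneg_left (offsum_four h2)
    (by positivity : 0 ≤ c4 * z ^ 4)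
  linarith

end

end Pool.Agent.RieszLin
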